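import Pool.Agent.Lib.MP_751085_ag.ZC.Iface
import Pool.Agent.Lib.MP_751085_ag.ZC.CAff

/-! Charts with smooth fibre curves, jets, and the statements of the geometric block in any
characteristic. -/

namespace Pool.Agent.ZCy

open scoped Classical Polynomial Topology
open MvPolynomial

section

variable {R S : Type} [CommRing R] [CommRing S] {σ : Type} {N : ℕ}

/-- the derivative of `G` at `x` in the direction `v` -/
noncomputable def dr (φ : R →+* S) (x v : Fin (N + 1) → S) (G : Fm N R) : S :=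
  ∑ j, eval₂ φ x (pderiv j G) * v j

/-- the curve `f_i = b_i f_0`, `1 ≤ i ≤ n - 1`, on the zero set of `GG` is smooth -/
def SmF (GG : Set (Fm N R)) (f : Option (Option σ) → Fm N R) {Ω : Type} [Field Ω] (φ : R →+* Ω)
    (b : σ → Ω) : Prop :=
  ∀ x : Fin (N + 1) → Ω, x ≠ 0 → Zer GG φ x →
    (∀ i, eval₂ φ x (f (some (some i))) = b i * eval₂ φ x (f none)) →
    ∃ w : Fin (N + 1) → Ω, ∀ v, (∀ G ∈ GG, dr φ x v G = 0) →
      (∀ i, dr φ x v (f (some (some i))) = b i * dr φ x v (f none)) →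
        ∃ α β : Ω, v = α • x + β • w

/-- the branch locus that replaces `br` -/
noncomputable def PChart.brs (c : PChart R σ) (Φ : MP σ R) : MP (Option σ) R := c.Ψ * up Φ

variable {GG : Set (Fm N R)}

/-- the fibre curves over the points off `Φ = 0` are smooth -/
def Chart.SM (c : Chart R σ N GG) (Φ : MP σ R) : Prop :=
  ∀ (Ω : Type) [Field Ω] (φ : R →+* Ω) (b : σ → Ω), eval₂ φ b Φ ≠ 0 → SmF GG c.f φ b

/-- `c'` arises from `c` by the linear change `L'` of the forms `f_1, …, f_(n-1)` -/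
structure Chart.IsLin [Fintype σ] (c c' : Chart R σ N GG) (L L' : Matrix σ σ R) : Prop where
  inv : L * L' = 1
  δ : c'.δ = c.δ
  χ : c'.χ = c.χ.map (aff 0 (extM L) : MP (Option σ) R →+* MP (Option σ) R)
  D : c'.D = aff 0 (extM L) c.D
  Ψ : c'.Ψ = aff 0 (extM L) c.Ψ
  d : c'.d = c.d
  th : c'.th = c.th
  l0 : c'.l0 = c.l0
  pp : ∀ j, c'.pp j = (c.pp j).map (aff 0 (extM L) : MP (Option σ) R →+* MP (Option σ) R)
  f0 : c'.f none = c.f none
  fn : c'.f (some none) = c.f (some none)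
  f : ∀ i, c'.f (some (some i)) = ∑ j, C (L' i j) * c.f (some (some j))

/-- every point of the model lies in the good open set of a chart -/
def CHvS (σ : Type) (GG : Set (Fm N R)) : Prop :=
  ∀ (Ω : Type) [Field Ω] (φ : R →+* Ω) (x : Fin (N + 1) → Ω), x ≠ 0 → Zer GG φ x →
    ∃ (c : Chart R σ N GG) (Φ : MP σ R), IsUnit (c.d : R) ∧ c.SM Φ ∧ c.Off (c.brs Φ) φ x

end

/-- finitely many separable points with tangent directions -/
structure Jets (k : Type) [Field k] (N : ℕ) : Type 1 where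
  K : Type
  [fld : Field K]
  [alg : Algebra k K]
  [fin : FiniteDimensional k K]
  [sep : Algebra.IsSeparable k K]
  s : ℕ
  Q : Fin s → Fin (N + 1) → K
  w : Fin s → Fin (N + 1) → K

attribute [instance] Jets.fld Jets.alg Jets.fin Jets.sep

variable {k : Type} [Field k]

/-- forms of degree `d` that vanish on the jets -/
def Jets.Van {N : ℕ} (J : Jets k N) (d : ℕ) (f : Fm N k) : Prop :=
  f.IsHomogeneous d ∧ ∀ j, aeval (J.Q j) f = 0 ∧ grad (J.Q j) f ⬝ᵥ J.w j = 0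

/-- the same over an extension -/
def Jets.VanK {N : ℕ} (J : Jets k N) (d : ℕ) (K : Type) [Field K] [Algebra k K] (f : Fm N K) :
    Prop := f ∈ Submodule.span K (map (algebraMap k K) '' {g | J.Van d g})

variable (X : Var k)

/-- the jets lie on `X`, and two conjugates at the same point have the same direction -/
structure Var.JOk (J : Jets k X.N) : Prop where
  on : ∀ j, X.On (J.Q j)
  tan : ∀ j, ∀ G ∈ X.I, grad (J.Q j) G ⬝ᵥ J.w j = 0
  ne : ∀ j (ζ : J.K), J.w j ≠ ζ • J.Q j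
  cmp : ∀ (Ω : Type) [Field Ω] [Algebra k Ω] (e e' : J.K →ₐ[k] Ω) (j j' : Fin J.s) (ζ : Ω),
    (fun i => e' (J.Q j' i)) = ζ • (fun i => e (J.Q j i)) → ∃ α β : Ω,
      (fun i => e' (J.w j' i)) = α • (fun i => e (J.w j i)) + β • fun i => e (J.Q j i)

/-- every subfamily of `f` cuts out a smooth section of the right dimension -/
def Var.SmAll {ι : Type} [Fintype ι] (f : ι → Fm X.N k) : Prop :=
  ∀ (Ω : Type) [Field Ω] [Algebra k Ω] (x : Fin (X.N + 1) → Ω), X.On x → ∀ a : ι → Ω,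
    (∀ i, a i ≠ 0 → aeval x (f i) = 0) → ∑ i, a i • grad x (f i) ∈ X.jac x → a = 0

/-- `C` is the section of `X` by the forms `f` -/
def Var.Cut {ι : Type} (C : Gen k X.N) (f : ι → Fm X.N k) : Prop :=
  ∀ (M : Type) [Field M] [Algebra k M] (x : Fin (X.N + 1) → M),
    C.var.On x ↔ X.On x ∧ ∀ i, aeval x (f i) = 0

/-- a chart whose fibre curve over the origin is smooth and contains the jets -/
structure Var.ZCh (J : Jets k X.N) {σ : Type} [Fintype σ] (c : Chart k σ X.N (X.IK k))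
    (Φ : MP σ k) : Prop where
  sm : c.SM Φ
  Φ0 : constantCoeff Φ ≠ 0
  Ψ0 : constantCoeff c.Ψ ≠ 0
  dp : (c.d : k) ≠ 0
  van : ∀ i, J.Van c.d (c.f (some (some i)))
  all : X.SmAll fun i => c.f (some (some i))
  l0 : ∀ j, aeval (J.Q j) c.l0 ≠ 0

/-- the chart `c` has good reduction over the subring `O` -/
def Var.GoodV {σ : Type} (c : Chart k σ X.N (X.IK k)) (Φ : MP σ k) (O : Subring k) : Prop :=
  ∃ (GG : Set (Fm X.N O)) (c' : Chart O σ X.N GG) (Φ' : MP σ O), GG.Finite ∧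
    X.Model (K := k) GG ∧ CHvS σ GG ∧ c'.IsMap O.subtype c ∧ map O.subtype Φ' = Φ ∧ c'.SM Φ' ∧
    IsUnit (constantCoeff Φ') ∧ IsUnit (constantCoeff c'.Ψ) ∧ IsUnit (c'.d : O)

/-- `P` holds for almost all members of the pencils of hyperplanes through a general point -/
def Pen {σ : Type} [Fintype σ] (P : (σ → k) → Prop) : Prop :=
  ∃ δ : MP σ k, δ ≠ 0 ∧ ∀ a', eval a' δ ≠ 0 → ∀ a μ : σ → k, a ⬝ᵥ a' = 0 → μ ⬝ᵥ a' = 0 →
    LinearIndependent k ![a, μ] → ∀ᶠ ε : k in Filter.cofinite, P (a + ε • μ)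

/-- weak approximation -/
def WApx {V : Type} (R : V → ValuationSubring k) (K : V → Type) [∀ v, Field (K v)]
    [∀ v, Algebra k (K v)] [∀ v, TopologicalSpace (K v)] : Prop :=
  ∀ S T : Finset V, Disjoint S T → ∀ (t : ∀ v, K v) (U : ∀ v, Set (K v)),
    (∀ v ∈ S, U v ∈ 𝓝 (t v)) → ∀ s r : V → k, (∀ v, r v ≠ 0) →
      {z : k | (∀ v ∈ S, algebraMap k _ z ∈ U v) ∧ ∀ v ∈ T, (z - s v) / r v ∈ R v}.Infinite

/-! ### Imported: a smooth fibre curve is geometrically irreducible -/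

def IRRp : Prop := ∀ (K : Type) [Field K] (σ : Type) [Fintype σ] (N : ℕ) (GG : Set (Fm N K))
  (c : Chart K σ N GG) (Φ : MP σ K), (∀ G ∈ GG, ∃ m, G.IsHomogeneous m) → c.GI → c.SM Φ →
  constantCoeff Φ ≠ 0 → Irreducible (c.χ.map
    (line (algebraMap K (AlgebraicClosure K)) 0 (Pi.single none 1)))

/-! ### Exported -/

/-- charts of a nice variety are geometrically irreducible and describe its function field -/
def CHFp : Prop := ∀ (k : Type) [Field k] (X : Var k) (n : ℕ), X.Nice n →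
  ∀ (K : Type) [Field K] [Algebra k K] (σ : Type) [Fintype σ] (c : Chart K σ X.N (X.IK K)),
  Fintype.card σ + 1 = n → c.GI ∧ ∀ (F' : Type) [Field F'] [Algebra (RF (Option σ) K) F']
    [Algebra k F'] (θ : F'), c.FF F' θ → (∀ a : k, algebraMap k F' a =
      toE (MP (Option σ) K) F' (C (algebraMap k K a))) → ∃ γ, X.Fld c F' θ γ

/-- a chart over `k` that is good at finitely many points, with points at infinity off `H = 0` -/
def N1p : Prop := ∀ (k : Type) [Field k] [Infinite k] (X : Var k) (n : ℕ), X.Nice n →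
  ∀ (σ : Type) [Fintype σ], Fintype.card σ + 1 = n →
  ∀ (M : Type) [Field M] [Algebra k M] (S : Finset (Fin (X.N + 1) → M)), (∀ x ∈ S, X.On x) →
  ∀ H : Fm X.N k, (∃ m, H.IsHomogeneous m) → H ∉ X.I → ∀ d : ℕ, 2 ≤ d → (d : k) ≠ 0 →
  ∃ (c : Chart k σ X.N (X.IK k)) (Φ : MP σ k), c.d = d ∧ c.SM Φ ∧ Φ ≠ 0 ∧
    (∀ x ∈ S, c.Off (c.brs Φ) (algebraMap k M) x) ∧ ∀ (Ω : Type) [Field Ω] [Algebra k Ω]
      (x : Fin (X.N + 1) → Ω), X.On x → (∀ i, aeval x (c.f (skip i)) = 0) → aeval x H ≠ 0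

/-- charts through the jets exist in all large degrees prime to the characteristic -/
def ZEX : Prop := ∀ (k : Type) [Field k] [Infinite k] (X : Var k) (n : ℕ), X.Nice n →
  ∀ (σ : Type) [Fintype σ], Fintype.card σ + 1 = n → ∀ J : Jets k X.N, X.JOk J →
  ∃ d₂ : ℕ, ∀ d, d₂ ≤ d → (d : k) ≠ 0 →
    ∃ (c : Chart k σ X.N (X.IK k)) (Φ : MP σ k), X.ZCh J c Φ ∧ c.d = d

/-- the fibre curve -/
def FIB : Prop := ∀ (k : Type) [Field k] (X : Var k) (n : ℕ), X.Nice n →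
  ∀ (σ : Type) [Fintype σ], Fintype.card σ + 1 = n → ∀ (c : Chart k σ X.N (X.IK k)) (Φ : MP σ k),
  c.SM Φ → constantCoeff Φ ≠ 0 →
    ∃ C : Gen k X.N, C.var.Nice 1 ∧ X.Cut C fun i => c.f (some (some i))

/-- good reduction almost everywhere -/
def GDV : Prop := ∀ (k : Type) [Field k] [Infinite k] (X : Var k) (n : ℕ), X.Nice n →
  ∀ (σ : Type) [Fintype σ], Fintype.card σ + 1 = n → ∀ (V : Type) (𝓕 : Filter V)
  (R : V → Subring k), (∀ t, ∀ᶠ v in 𝓕, t ∈ R v) →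
  ∀ (c : Chart k σ X.N (X.IK k)) (Φ : MP σ k), c.SM Φ → constantCoeff Φ ≠ 0 →
  constantCoeff c.Ψ ≠ 0 → (c.d : k) ≠ 0 → ∀ᶠ v in 𝓕, X.GoodV c Φ (R v)

/-- The choice of the section `Y` and of the curves on it. `Gd` is any notion of good reduction of
a chart, `Lf` any property of hyperplanes that holds for almost all members of general pencils. -/
def CMainP : Prop := ∀ (k : Type) [Field k] [Infinite k] (V : Type) (R : V → ValuationSubring k)
  (K : V → Type) [∀ v, Field (K v)] [∀ v, Algebra k (K v)] [∀ v, TopologicalSpace (K v)]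
  [∀ v, IsTopologicalRing (K v)], (∀ v, R v ≠ ⊤) → WApx R K →
  ∀ (X : Var k) (n : ℕ), X.Nice n → 4 ≤ n → ∀ (σ : Type) [Fintype σ], Fintype.card σ + 2 = n →
  ∀ J : Jets k X.N, X.JOk J → ∃ d₂ : ℕ,
  ∀ Gd : Chart k (Option σ) X.N (X.IK k) → MP (Option σ) k → V → Prop,
    (∀ c Φ, X.ZCh J c Φ → ∀ᶠ v in Filter.cofinite, Gd c Φ v) →
  ∀ Lf : Chart k (Option σ) X.N (X.IK k) → MP (Option σ) k → (Option σ → k) → Prop,
    (∀ c Φ, X.ZCh J c Φ → Pen (Lf c Φ)) →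
  ∀ c₀ Φ₀, X.ZCh J c₀ Φ₀ → ∀ S : Finset V, (∀ v ∉ S, Gd c₀ Φ₀ v) →
  ∀ d, d₂ ≤ d → c₀.d ≤ d → (d : k) ≠ 0 → ∀ (fv : ∀ v, Option σ → Fm X.N (K v))
    (W : ∀ v, Option σ → Set ((Fin (X.N + 1) →₀ ℕ) → K v)),
    (∀ v ∈ S, ∀ i, J.VanK d (K v) (fv v i) ∧ W v i ∈ 𝓝 (cf (fv v i))) →
  ∃ (c c' : Chart k (Option σ) X.N (X.IK k)) (Φ : MP (Option σ) k)
    (L L' : Matrix (Option σ) (Option σ) k) (Y : Gen k X.N) (c'' : Chart k σ X.N (Y.var.IK k)),
    X.ZCh J c Φ ∧ c.d = d ∧ Lf c Φ (L' none) ∧ c.IsLin c' L L' ∧ c'.SM (aff 0 L Φ) ∧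
    Y.var.Nice (n - 1) ∧ X.Sec Y (c'.f (some (some none))) ∧ c'.IsHyp c'' ∧
    c''.SM (hyp0 (aff 0 L Φ)) ∧ ∀ v, ∃ (C : Gen k X.N) (g : Option σ → Fm X.N k),
      C.var.Nice 1 ∧ X.Cut C g ∧ (∀ i, J.Van d (g i)) ∧
      (∀ (M : Type) [Field M] [Algebra k M] (x : Fin (X.N + 1) → M), C.var.On x → Y.var.On x) ∧
      (v ∈ S → ∀ i, cf (map (algebraMap k (K v)) (g i)) ∈ W v i) ∧
      (v ∉ S → ∃ cb Φb, X.ZCh J cb Φb ∧ c₀.d ≤ cb.d ∧ Gd cb Φb v ∧ ∃ e : ℕ, ∀ i m,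
        (R v).valuation (coeff m (g i - cb.l0 ^ e * cb.f (some (some i)))) < 1)

end Pool.Agent.ZCy
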