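import Pool.Agent.Lib.MP_751085_ag.ZC.CGn

/-! Linear systems of forms. -/

namespace Pool.Agent.ZCy

open scoped Classical Polynomial
open MvPolynomial

section

variable {R S T : Type} [CommRing R] [CommRing S] [CommRing T] [Algebra R S] {N d : ℕ}
  {ι μ : Type} [Fintype μ]

/-- the member with coefficients `a` of the family `E` of linear systems -/
noncomputable def sys (E : ι → μ → Fm N R) (a : ι × μ → S) (i : ι) : Fm N S :=
  ∑ m, C (a (i, m)) * map (algebraMap R S) (E i m)

/-- the complete linear system -/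
noncomputable def mons (R : Type) [CommRing R] (N d : ℕ) (m : Mon N d) : Fm N R := monomial m.1 1

theorem mons_hom (m : Mon N d) : (mons R N d m).IsHomogeneous d :=
  isHomogeneous_monomial _ m.degree

theorem sys_hom {E : ι → μ → Fm N R} {i : ι} (h : ∀ m, (E i m).IsHomogeneous d) (a : ι × μ → S) :
    (sys E a i).IsHomogeneous d :=
  IsHomogeneous.sum _ _ _ fun m _ => ((h m).map _).C_mul _

theorem sys_self (E : ι → μ → Fm N R) (a : ι × μ → R) (i : ι) :
    sys E a i = ∑ m, C (a (i, m)) * E i m := by
  simp [sys, map_id]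

theorem sys_mons (a : ι × Mon N d → S) : sys (fun _ => mons R N d) a = forms a := by
  funext i
  simp [sys, mons, forms, form, map_monomial, C_mul_monomial]

theorem map_sys [Algebra R T] (ψ : S →+* T) (h : ∀ r, ψ (algebraMap R S r) = algebraMap R T r)
    (E : ι → μ → Fm N R) (a : ι × μ → S) (i : ι) :
    map ψ (sys E a i) = sys E (fun p => ψ (a p)) i := by
  have e : ψ.comp (algebraMap R S) = algebraMap R T := RingHom.ext h
  simp [sys, map_map, e]

variable [Algebra S T] [Algebra R T] [IsScalarTower R S T]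

theorem aeval_sys (E : ι → μ → Fm N R) (a : ι × μ → S) (i : ι) (x : Fin (N + 1) → T) :
    aeval x (sys E a i) = ∑ m, algebraMap S T (a (i, m)) * aeval x (E i m) := by
  simp [sys, aeval_map_algebraMap]

theorem grad_sys (E : ι → μ → Fm N R) (a : ι × μ → S) (i : ι) (x : Fin (N + 1) → T) :
    grad x (sys E a i) = ∑ m, algebraMap S T (a (i, m)) • grad x (E i m) := by
  funext j
  simp [sys, grad, pderiv_map, aeval_map_algebraMap, Algebra.smul_def]

end

variable {k : Type} [Field k] {N : ℕ} {μ : Type}

/-- the gradients at `x` of the members of the linear system `E` -/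
noncomputable def gsp (E : μ → Fm N k) {Ω : Type} [Field Ω] [Algebra k Ω] (x : Fin (N + 1) → Ω) :
    Submodule Ω (Fin (N + 1) → Ω) := Submodule.span Ω (Set.range fun m => grad x (E m))

/-- the gradients fill the space at every point -/
def Ful (E : μ → Fm N k) : Prop :=
  ∀ (Ω : Type) [Field Ω] [Algebra k Ω] (x : Fin (N + 1) → Ω), x ≠ 0 → gsp E x = ⊤

/-- the gradients fill the space, or a subspace of codimension at most two at closed points -/
def Big (E : μ → Fm N k) : Prop :=
  ∀ (Ω : Type) [Field Ω] [Algebra k Ω] (x : Fin (N + 1) → Ω), x ≠ 0 → gsp E x = ⊤ ∨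
    (∀ i j, IsAlgebraic k (x i / x j)) ∧ N ≤ Module.finrank Ω (gsp E x) + 1

theorem Ful.big {E : μ → Fm N k} (h : Ful E) : Big E := fun Ω _ _ x hx => Or.inl (h Ω x hx)

theorem mem_gsp [Fintype μ] {E : μ → Fm N k} {Ω : Type} [Field Ω] [Algebra k Ω]
    {x u : Fin (N + 1) → Ω} : u ∈ gsp E x ↔ ∃ c : μ → Ω, ∑ m, c m • grad x (E m) = u :=
  Submodule.mem_span_range_iff_exists_fun Ω

/-- linearly independent elements stay independent over the algebraic numbers -/
def LD (k F : Type) [Field k] [Field F] [Algebra k F] : Prop :=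
  ∀ (Ω : Type) [Field Ω] [Algebra k Ω] (γ : F →ₐ[k] Ω) (α : Type) [Fintype α] (b : α → F),
    LinearIndependent k b → ∀ c : α → Ω, (∀ i, IsAlgebraic k (c i)) →
      ∑ i, c i * γ (b i) = 0 → ∀ i, c i = 0

end Pool.Agent.ZCy
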