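import Pool.Agent.Lib.MP_751085_ag.ZC.CLd1
import Pool.Agent.Lib.MP_751085_ag.ZF.C.SDefs

/-! Separably generated regular extensions are linearly disjoint from the algebraic closure. -/

namespace Pool.Agent.ZCy

open scoped Classical Polynomial
open MvPolynomial

variable {k F : Type} [Field k] [Field F] [Algebra k F]

theorem macp_hom {K K' α κ : Type} [Field K] [Field K'] [Finite κ] (φ : K →+* K') {v : α → κ → K}
    (h : LinearIndependent K v) : LinearIndependent K' fun i => φ ∘ v i := by
  let := φ.toAlgebra
  exact linearIndependent_algebraMap_comp_iff.2 h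

theorem macp_span (q r : ℕ) [ExpChar k q] {κ : Type} {v : κ → F}
    (hv : LinearIndependent k fun x => v x ^ q ^ r) {α : Type} [Fintype α] {b : α → F}
    (hb : LinearIndependent k b) (hs : ∀ i, b i ∈ Submodule.span k (Set.range v)) :
    LinearIndependent k fun i => b i ^ q ^ r := by
  have : ExpChar F q := expChar_of_injective_algebraMap (algebraMap k F).injective q
  choose c hc using fun i => Finsupp.mem_span_range_iff_exists_finsupp.1 (hs i)
  let S : Finset κ := Finset.univ.biUnion fun i => (c i).support
  have e : ∀ i, b i = ∑ x : S, c i x • v x := fun i => by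
    rw [← hc i, Finsupp.sum_of_support_subset _ (s := S)
      (Finset.subset_biUnion_of_mem (fun i => (c i).support) (Finset.mem_univ i))
      (fun x a => a • v x) (fun x _ => zero_smul _ _)]
    exact (Finset.sum_coe_sort S fun x => c i x • v x).symm
  have h1 : LinearIndependent k fun i => fun x : S => c i x := by
    refine LinearIndependent.of_comp (Fintype.linearCombination k fun x : S => v x) ?_
    have : (Fintype.linearCombination k fun x : S => v x) ∘ (fun i => fun x : S => c i x) = b := by
      funext i
      rw [e i]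
      rfl
    rwa [this]
  have h2 := (macp_hom (iterateFrobenius k q r) h1).map'
    (Fintype.linearCombination k fun x : S => v x ^ q ^ r)
    (LinearMap.ker_eq_bot.2 (linearIndependent_iff_injective_fintypeLinearCombination.1
      (hv.comp (fun x : S => (x : κ)) Subtype.val_injective)))
  have h3 : (fun i => b i ^ q ^ r) = (Fintype.linearCombination k fun x : S => v x ^ q ^ r) ∘
      fun i => iterateFrobenius k q r ∘ fun x : S => c i x := by
    funext i
    rw [e i, sum_pow_char_pow, Function.comp_apply, Fintype.linearCombination_apply]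
    refine Finset.sum_congr rfl fun x _ => ?_
    rw [smul_pow]
    rfl
  rwa [h3]

/-- Mac Lane: clear denominators and expand in the products of monomials in `t` with a basis -/
theorem maclane (q : ℕ) [ExpChar k q] {ι : Type} {t : ι → F} (ht : AlgebraicIndependent k t)
    [Algebra.IsSeparable (IntermediateField.adjoin k (Set.range t)) F] {α : Type} [Fintype α]
    {b : α → F} (hb : LinearIndependent k b) (r : ℕ) :
    LinearIndependent k fun i => b i ^ q ^ r := by
  let L := IntermediateField.adjoin k (Set.range t)
  have : ExpChar L q := expChar_of_injective_algebraMap (algebraMap k L).injective q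
  have hQ : q ^ r ≠ 0 := (expChar_pow_pos k q r).ne'
  let e := Module.Basis.ofVectorSpace L F
  have hL : ∀ P : MvPolynomial ι k, aeval t P ∈ L := fun P =>
    (IntermediateField.mem_adjoin_range_iff k t _).2 ⟨P, 1, by simp⟩
  let v : (ι →₀ ℕ) × Module.Basis.ofVectorSpaceIndex L F → F :=
    fun x => aeval t (monomial x.1 (1 : k)) * e x.2
  have h1 : LinearIndependent k fun m : ι →₀ ℕ =>
      (⟨aeval t (monomial m (1 : k)), hL _⟩ : L) ^ q ^ r := by
    refine LinearIndependent.of_comp L.val.toLinearMap ?_
    have h := (((basisMonomials ι k).linearIndependent.map' (aeval t).toLinearMap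
      (LinearMap.ker_eq_bot.2 ht)).comp (fun m => (q ^ r) • m) (smul_right_injective _ hQ))
    have h' : (L.val.toLinearMap ∘ fun m : ι →₀ ℕ =>
        (⟨aeval t (monomial m (1 : k)), hL _⟩ : L) ^ q ^ r) =
        ((aeval t).toLinearMap ∘ basisMonomials ι k) ∘ fun m => (q ^ r) • m := by
      funext m
      show aeval t (monomial m (1 : k)) ^ q ^ r = aeval t (basisMonomials ι k ((q ^ r) • m))
      rw [coe_basisMonomials, ← map_pow, monomial_pow, one_pow]
    rwa [h']
  have h2 : LinearIndependent k fun x => v x ^ q ^ r := by
    have h := linearIndependent_smul h1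
      (e.linearIndependent.map_pow_expChar_pow_of_isSeparable q r)
    have h' : (fun x => v x ^ q ^ r) = fun x : (ι →₀ ℕ) × Module.Basis.ofVectorSpaceIndex L F =>
        ((⟨aeval t (monomial x.1 (1 : k)), hL _⟩ : L) ^ q ^ r) • e x.2 ^ q ^ r := by
      funext x
      rw [← smul_pow]
      rfl
    rwa [h']
  let V := Submodule.span k (Set.range v)
  have h3 : ∀ (P : MvPolynomial ι k), ∀ x ∈ V, aeval t P * x ∈ V := by
    intro P x hx
    induction hx using Submodule.span_induction with
    | mem x hx =>
      obtain ⟨⟨m, s⟩, rfl⟩ := hx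
      induction P using MvPolynomial.induction_on' with
      | monomial u a =>
        have : aeval t (monomial u a) * v (m, s) = a • v (u + m, s) := by
          show _ * (aeval t (monomial m (1 : k)) * e s) = a • (aeval t (monomial (u + m) (1 : k)) * e s)
          rw [← mul_assoc, ← map_mul, monomial_mul, ← smul_mul_assoc, ← map_smul, smul_monomial]
          simp
        rw [this]
        exact V.smul_mem _ (Submodule.subset_span ⟨_, rfl⟩)
      | add P P' hP hP' =>
        rw [map_add, add_mul]
        exact V.add_mem hP hP'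
    | zero =>
      rw [mul_zero]
      exact V.zero_mem
    | add x y _ _ hx hy =>
      rw [mul_add]
      exact V.add_mem hx hy
    | smul a x _ hx =>
      rw [mul_smul_comm]
      exact V.smul_mem _ hx
  have h4 : ∀ x : F, ∃ D : MvPolynomial ι k, aeval t D ≠ 0 ∧ aeval t D * x ∈ V := by
    intro x
    have hx : x ∈ Submodule.span L (Set.range e) := e.mem_span x
    induction hx using Submodule.span_induction with
    | mem x hx =>
      obtain ⟨s, rfl⟩ := hx
      exact ⟨1, by simp, Submodule.subset_span ⟨(0, s), rfl⟩⟩
    | zero => exact ⟨1, by simp, by simp⟩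
    | add x y _ _ hx hy =>
      obtain ⟨D, hD, hx⟩ := hx
      obtain ⟨D', hD', hy⟩ := hy
      refine ⟨D * D', by rw [map_mul]; exact mul_ne_zero hD hD', ?_⟩
      have : aeval t (D * D') * (x + y) =
          aeval t D' * (aeval t D * x) + aeval t D * (aeval t D' * y) := by
        rw [map_mul]
        ring
      rw [this]
      exact V.add_mem (h3 _ _ hx) (h3 _ _ hy)
    | smul a x _ hx =>
      obtain ⟨D, hD, hx⟩ := hx
      obtain ⟨P, P', ha⟩ := (IntermediateField.mem_adjoin_range_iff k t _).1 a.2
      by_cases h0 : aeval t P' = 0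
      · refine ⟨1, by simp, ?_⟩
        rw [IntermediateField.smul_def, ha, h0]
        simp
      refine ⟨D * P', by rw [map_mul]; exact mul_ne_zero hD h0, ?_⟩
      have : aeval t (D * P') * (a • x) = aeval t P * (aeval t D * x) := by
        rw [map_mul, IntermediateField.smul_def, ha, smul_eq_mul]
        field_simp
      rw [this]
      exact h3 _ _ hx
  choose D hD hV using fun i => h4 (b i)
  have h0 : aeval t (∏ i, D i) ≠ 0 := by
    rw [map_prod]
    exact Finset.prod_ne_zero_iff.2 fun i _ => hD i
  have h5 := macp_span q r h2 (b := fun i => aeval t (∏ i, D i) * b i)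
    (hb.map' (LinearMap.mulLeft k (aeval t (∏ i, D i)))
      (LinearMap.ker_eq_bot.2 (mul_right_injective₀ h0))) (fun i => by
      rw [← Finset.prod_erase_mul _ _ (Finset.mem_univ i), map_mul, mul_assoc]
      exact h3 _ _ (hV i))
  refine LinearIndependent.of_comp (LinearMap.mulLeft k (aeval t (∏ i, D i) ^ q ^ r)) ?_
  simp only [mul_pow] at h5
  exact h5

open Polynomial in
theorem macp_sep {Ω : Type} [Field Ω] [Algebra k Ω]
    (hk : ∀ a : F, IsAlgebraic k a → a ∈ (algebraMap k F).range)
    (γ : F →ₐ[k] Ω) {α : Type} [Fintype α] {b : α → F} (hb : LinearIndependent k b) {c : α → Ω}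
    (hc : ∀ i, IsSeparable k (c i)) (h : ∑ i, c i * γ (b i) = 0) (i : α) : c i = 0 := by
  let L := IntermediateField.adjoin k (Set.range c)
  have : FiniteDimensional k L := IntermediateField.finiteDimensional_adjoin (by
    rintro _ ⟨j, rfl⟩
    exact (hc j).isIntegral)
  have : Algebra.IsSeparable k L := (IntermediateField.isSeparable_adjoin_iff_isSeparable k Ω).2 (by
    rintro _ ⟨j, rfl⟩
    exact hc j)
  let pb := Field.powerBasisOfFiniteOfSeparable k L
  choose q hq hcq using fun j =>
    pb.exists_eq_aeval (⟨c j, IntermediateField.subset_adjoin _ _ ⟨j, rfl⟩⟩ : L)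
  have he : ∀ j, c j = Polynomial.aeval (L.val pb.gen) (q j) := fun j => by
    rw [Polynomial.aeval_algHom_apply, ← hcq]
    rfl
  have hP : ∑ j, Polynomial.C (b j) * (q j).map (algebraMap k F) = 0 := by
    refine eq_zero_of_geom hk γ (α := L.val pb.gen) (pb.isIntegral_gen.map L.val) ?_ ?_
    · rw [minpoly.algHom_eq L.val L.val.injective, pb.natDegree_minpoly]
      refine lt_of_le_of_lt (natDegree_sum_le_of_forall_le (n := pb.dim - 1) _ _ fun j _ => ?_)
        (Nat.sub_one_lt pb.dim_pos.ne')
      exact (natDegree_C_mul_le _ _).trans (natDegree_map_le.trans (Nat.le_sub_one_of_lt (hq j)))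
    · rw [Polynomial.eval₂_finsetSum, ← h]
      refine Finset.sum_congr rfl fun j _ => ?_
      rw [Polynomial.eval₂_mul, Polynomial.eval₂_C, Polynomial.eval₂_map, γ.comp_algebraMap,
        ← Polynomial.aeval_def, ← he, mul_comm]
      rfl
  have hz : q i = 0 := Polynomial.ext fun n => by
    refine Fintype.linearIndependent_iff.1 hb (fun j => (q j).coeff n) ?_ i
    have := congrArg (fun P => P.coeff n) hP
    simp only [finsetSum_coeff, Polynomial.coeff_C_mul, Polynomial.coeff_map,
      Polynomial.coeff_zero] at this
    rw [← this]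
    exact Finset.sum_congr rfl fun j _ => by rw [Algebra.smul_def, mul_comm]
  rw [he, hz, map_zero]

/-- raise the relation to a power that makes all coefficients separable -/
theorem ld_of_sepgen (hk : ∀ a : F, IsAlgebraic k a → a ∈ (algebraMap k F).range) {ι : Type}
    {t : ι → F} (ht : AlgebraicIndependent k t)
    [Algebra.IsSeparable (IntermediateField.adjoin k (Set.range t)) F] : LD k F := by
  intro Ω _ _ γ α _ b hb c hc h i
  obtain ⟨q, hq⟩ := ExpChar.exists k
  have : ExpChar Ω q := expChar_of_injective_algebraMap (algebraMap k Ω).injective q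
  have hQ : ∀ r, q ^ r ≠ 0 := fun r => (expChar_pow_pos k q r).ne'
  have h1 : ∀ j, ∃ n, c j ^ q ^ n ∈ separableClosure k Ω := fun j => by
    obtain ⟨g, h1, n, h2⟩ := (minpoly.irreducible (hc j).isIntegral).hasSeparableContraction q
    refine ⟨n, h1.of_dvd (minpoly.dvd k _ ?_)⟩
    rw [← Polynomial.expand_aeval, h2, minpoly.aeval]
  choose n hn using h1
  have h2 : ∀ j, IsSeparable k (c j ^ q ^ ∑ j, n j) := fun j => by
    rw [← Finset.add_sum_erase _ _ (Finset.mem_univ j), pow_add, pow_mul]
    exact pow_mem (hn j) _
  refine eq_zero_of_pow_eq_zero (macp_sep hk γ (maclane q ht hb (∑ j, n j)) h2 ?_ i)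
  have := congrArg (· ^ q ^ ∑ j, n j) h
  simp only [sum_pow_char_pow, zero_pow (hQ _), mul_pow] at this
  simpa only [map_pow] using this

end Pool.Agent.ZCy
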