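import Pool.Agent.Lib.MP_751085_ag.ZC.CDim
import Pool.Agent.Lib.MP_751085_ag.ZC.CJac

/-! Separability from the Jacobian criterion. -/

namespace Pool.Agent.ZCy

open scoped Classical Polynomial
open MvPolynomial

theorem sepp_chain {L E ζ : Type} [Field L] [Field E] [Algebra L E] [Fintype ζ] (z : ζ → E)
    (D : Derivation L E E) (P : MP ζ L) : D (aeval z P) = grad z P ⬝ᵥ fun j => D (z j) := by
  induction P using MvPolynomial.induction_on with
  | C a => simp [grad, dotProduct]
  | add p q hp hq =>
    have e : grad z (p + q) = grad z p + grad z q := by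
      funext i
      simp [grad]
    rw [map_add, map_add, hp, hq, e, add_dotProduct]
  | mul_X p i hp =>
    have e : grad z (p * X i) = z i • grad z p + Pi.single i (aeval z p) := by
      funext j
      by_cases hj : j = i
      · subst hj
        simp [grad, Derivation.leibniz, add_comm]
      · simp [grad, Derivation.leibniz, pderiv_X, hj, Ne.symm hj]
    rw [map_mul, aeval_X, Derivation.leibniz, hp, e, add_dotProduct, smul_dotProduct,
      single_dotProduct, add_comm, smul_eq_mul (aeval z p)]

theorem sepp_step {E ι : Type} [Field E] [Fintype ι] {W : Submodule E (ι → E)} {u : ι → E}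
    (hu : u ∉ W) : Module.finrank E ↥(W ⊔ Submodule.span E {u}) = Module.finrank E W + 1 := by
  have h0 : u ≠ 0 := fun h => hu (h ▸ W.zero_mem)
  have h1 := Submodule.finrank_sup_add_finrank_inf_eq W (Submodule.span E {u})
  have h2 : W ⊓ Submodule.span E {u} = ⊥ :=
    disjoint_iff.1 ((Submodule.disjoint_span_singleton' h0).2 hu)
  rw [h2, finrank_bot, finrank_span_singleton h0, add_zero] at h1
  exact h1

theorem sepp_ext {E ι : Type} [Field E] [Fintype ι] (n : ℕ) (W : Submodule E (ι → E))
    (hW : Module.finrank E W + n = Fintype.card ι) :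
    ∃ t : Fin n → ι, ∀ v : ι → E, (∀ w ∈ W, w ⬝ᵥ v = 0) → (∀ j, v (t j) = 0) → v = 0 := by
  induction n generalizing W with
  | zero =>
    refine ⟨Fin.elim0, fun v hv _ => ?_⟩
    have hT : W = ⊤ := Submodule.eq_top_of_finrank_eq (by simpa using hW)
    funext i
    have := hv (Pi.single i 1) (hT ▸ Submodule.mem_top)
    simpa using this
  | succ n ih =>
    have hex : ∃ i, (Pi.single i 1 : ι → E) ∉ W := by
      by_contra hcon
      push Not at hcon
      have hT : W = ⊤ := by
        rw [eq_top_iff]
        intro v _
        rw [← Finset.univ_sum_single v]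
        refine Submodule.sum_mem _ fun i _ => ?_
        have e : (Pi.single i (v i) : ι → E) = v i • Pi.single i 1 := by
          rw [← Pi.single_smul, smul_eq_mul, mul_one]
        rw [e]
        exact W.smul_mem _ (hcon i)
      rw [hT, finrank_top, Module.finrank_fintype_fun_eq_card] at hW
      omega
    obtain ⟨i, hi⟩ := hex
    obtain ⟨t, ht⟩ := ih (W ⊔ Submodule.span E {Pi.single i 1}) (by rw [sepp_step hi]; omega)
    refine ⟨Fin.cons i t, fun v hv h0 => ht v (fun w hw => ?_) fun j => h0 j.succ⟩
    obtain ⟨a, ha, b, hb, rfl⟩ := Submodule.mem_sup.1 hw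
    obtain ⟨c, rfl⟩ := Submodule.mem_span_singleton.1 hb
    have h1 : v i = 0 := h0 0
    rw [add_dotProduct, hv a ha, smul_dotProduct, single_dotProduct, h1]
    simp

/-- If `Ω[E⁄L]` is not zero, take a nonzero linear form `λ` on it (`Module.Projective.exists_dual_ne_zero`
or `Module.forall_dual_apply_eq_zero_iff`), `D = λ ∘ d` (`LinearMap.compDer`), `v j = D (z j)`; the chain rule
(`Derivation.map_aeval`-like induction, or `MvPolynomial.aeval_sumElim_pderiv_inl`) gives
`D (aeval z P) = grad z P ⬝ᵥ v`. So `v = 0`, `D` kills `adjoin L (range z) = ⊤`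
(`IntermediateField.adjoin_induction`, `Derivation.leibniz_inv`), `λ = 0` by
`KaehlerDifferential.span_range_derivation`. Then `Algebra.FormallyUnramified.iff_isSeparable`
(`Algebra.EssFiniteType L E` from the finite generation, `IntermediateField.fg_top_iff`). -/
theorem sep_of_tan {L E ζ : Type} [Field L] [Field E] [Algebra L E] [Fintype ζ] {z : ζ → E}
    (hz : IntermediateField.adjoin L (Set.range z) = ⊤)
    (h : ∀ v : ζ → E, (∀ P : MP ζ L, aeval z P = 0 → grad z P ⬝ᵥ v = 0) → v = 0) :
    Algebra.IsSeparable L E := by
  have hfg : (⊤ : IntermediateField L E).FG :=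
    ⟨(Set.finite_range z).toFinset, by rw [Set.Finite.coe_toFinset, hz]⟩
  have : Algebra.EssFiniteType L E := IntermediateField.fg_top_iff.1 hfg
  have hD : ∀ D : Derivation L E E, ∀ a, D a = 0 := by
    intro D a
    have hv := h (fun j => D (z j)) fun P hP => by rw [← sepp_chain, hP, map_zero]
    have ha : a ∈ IntermediateField.adjoin L (Set.range z) := hz ▸ IntermediateField.mem_top
    induction ha using IntermediateField.adjoin_induction with
    | mem x hx =>
      obtain ⟨j, rfl⟩ := hx
      exact congrFun hv j
    | algebraMap x => exact D.map_algebraMap x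
    | add x y _ _ hx hy => rw [map_add, hx, hy, add_zero]
    | inv x _ hx => rw [Derivation.leibniz_inv, hx, smul_zero]
    | mul x y _ _ hx hy => rw [Derivation.leibniz, hx, hy, smul_zero, smul_zero, add_zero]
  have hd : ∀ a, KaehlerDifferential.D L E a = 0 := fun a =>
    (Module.forall_dual_apply_eq_zero_iff E _).1 fun φ =>
      hD (LinearMap.compDer φ (KaehlerDifferential.D L E)) a
  have hs : Subsingleton (KaehlerDifferential L E) := by
    refine subsingleton_of_forall_eq 0 fun ω => ?_
    have hω : ω ∈ Submodule.span E (Set.range (KaehlerDifferential.D L E)) :=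
      KaehlerDifferential.span_range_derivation L E ▸ Submodule.mem_top
    have hb : Submodule.span E (Set.range (KaehlerDifferential.D L E)) = ⊥ := by
      rw [Submodule.span_eq_bot]
      rintro _ ⟨a, rfl⟩
      exact hd a
    rw [hb] at hω
    exact hω
  exact (Algebra.FormallyUnramified.iff_isSeparable L E).1 ⟨hs⟩

/-- The function field of a nice variety is separably generated. Let `g i₀ = 1` and let `T` be the
space of `v` with `grad g G ⬝ᵥ v = 0` for all `G ∈ X.I` and `v i₀ = 0`. `Pi.single i₀ 1 ∉ X.jac g` by Euler
(`grad_dot_self`), so `jac + span {single i₀ 1}` has dimension `N - n + 1` (`Var.Nice.finrank_jac` at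
`X.on_g`); extend a basis by `n` vectors `Pi.single (t j) 1` to a basis of the whole space
(`exists_linearIndependent_extension`-like induction, or `cy4_minor`). With `L = k(g (t j))`,
`sep_of_tan` applies to `z = g` (use `P = map G`, `X i₀ - 1`, `X (t j) - C (g (t j))`). A separable
extension is algebraic, so `n = rk k univ ≤ rk k (range (g ∘ t))` (`Var.rk_univ`, `rk_le_of_acl`,
`mem_acl`) and `rk_range_iff` gives the independence. -/
theorem Var.Nice.sepgen {k : Type} [Field k] {X : Var k} {n : ℕ} (hX : X.Nice n) :
    ∃ t : Fin n → X.F, AlgebraicIndependent k t ∧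
      Algebra.IsSeparable (IntermediateField.adjoin k (Set.range t)) X.F := by
  obtain ⟨i₀, hi₀⟩ := X.one
  have hk : ∀ v : Fin (X.N + 1) → X.F, (∀ G ∈ X.I, grad X.g G ⬝ᵥ v = 0) →
      ∀ w ∈ X.jac X.g, w ⬝ᵥ v = 0 := by
    intro v hv w hw
    induction hw using Submodule.span_induction with
    | mem x hx =>
      obtain ⟨G, hG, rfl⟩ := hx
      exact hv G hG
    | zero => exact zero_dotProduct _
    | add x y _ _ hx hy => rw [add_dotProduct, hx, hy, add_zero]
    | smul c x _ hx => rw [smul_dotProduct, hx, smul_zero]
  have hn : (Pi.single i₀ 1 : Fin (X.N + 1) → X.F) ∉ X.jac X.g := by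
    intro hm
    have := hk X.g (fun G hG => by
      obtain ⟨⟨m, hm⟩, h0⟩ := hG
      rw [grad_dot_self hm, h0, mul_zero]) _ hm
    rw [single_dotProduct, hi₀, one_mul] at this
    exact one_ne_zero this
  have hr := hX.finrank_jac X.on_g
  obtain ⟨t, ht⟩ := sepp_ext n (X.jac X.g ⊔ Submodule.span X.F {Pi.single i₀ 1}) (by
    rw [sepp_step hn, Fintype.card_fin]; omega)
  have hsep : Algebra.IsSeparable (IntermediateField.adjoin k (Set.range fun j => X.g (t j)))
      X.F := by
    set L := IntermediateField.adjoin k (Set.range fun j => X.g (t j)) with hL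
    have hcst : ∀ (v : Fin (X.N + 1) → X.F), (∀ P : MP (Fin (X.N + 1)) L, aeval X.g P = 0 →
        grad X.g P ⬝ᵥ v = 0) → ∀ (i : Fin (X.N + 1)) (a : L), algebraMap L X.F a = X.g i →
          v i = 0 := by
      intro v hv i a ha
      have h1 := hv (MvPolynomial.X i - C a) (by rw [map_sub, aeval_X, aeval_C, ha, sub_self])
      have e : grad X.g (MvPolynomial.X i - C a : MP (Fin (X.N + 1)) L) = Pi.single i 1 := by
        funext j
        by_cases hj : j = i
        · subst hj
          simp [grad]
        · simp [grad, pderiv_X, hj, Ne.symm hj]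
      rwa [e, single_dotProduct, one_mul] at h1
    refine sep_of_tan (z := X.g) ?_ fun v hv => ht v (fun w hw => ?_) fun j => ?_
    · rw [eq_top_iff]
      intro a _
      have ha : a ∈ IntermediateField.adjoin k (Set.range X.g) :=
        X.gen ▸ IntermediateField.mem_top
      have hle : IntermediateField.adjoin k (Set.range X.g) ≤
          (IntermediateField.adjoin L (Set.range X.g)).restrictScalars k :=
        IntermediateField.adjoin_le_iff.2 (IntermediateField.subset_adjoin L _)
      exact hle ha
    · obtain ⟨a, ha, b, hb, rfl⟩ := Submodule.mem_sup.1 hw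
      obtain ⟨c, rfl⟩ := Submodule.mem_span_singleton.1 hb
      have h1 : v i₀ = 0 := hcst v hv i₀ 1 (by rw [map_one, hi₀])
      have h2 := hk v (fun G hG => by
        have h3 := hv (map (algebraMap k L) G) (by rw [aeval_map_algebraMap]; exact hG.2)
        have e : grad X.g (map (algebraMap k L) G) = grad X.g G := by
          funext j
          simp only [grad, pderiv_map, aeval_map_algebraMap]
        rwa [e] at h3) a ha
      rw [add_dotProduct, h2, smul_dotProduct, single_dotProduct, h1]
      simp
    · exact hcst v hv (t j) ⟨X.g (t j), IntermediateField.subset_adjoin _ _ ⟨j, rfl⟩⟩ rfl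
  refine ⟨fun j => X.g (t j), ?_, hsep⟩
  rw [← rk_range_iff, Fintype.card_fin, ← X.rk_univ hX.dim]
  exact rk_le_of_acl fun a _ => mem_acl.2 (Algebra.IsAlgebraic.isAlgebraic a)

end Pool.Agent.ZCy
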