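import Pool.Agent.Lib.MP_751085_ag.ZC.CGen
import Pool.Agent.Lib.MP_751085_ag.ZF.C.Sep
import Pool.Agent.Lib.MP_751085_ag.ZF.C.Mac

/-! Free extensions are linearly disjoint from the function field. -/

namespace Pool.Agent.ZCy

open scoped Classical Polynomial
open MvPolynomial Set

variable {k F K Ω : Type} [Field k] [Field F] [Field K] [Field Ω] [Algebra k F] [Algebra k K]
  [Algebra k Ω] [Algebra K Ω] [IsScalarTower k K Ω] {n : ℕ}

theorem Var.Nice.ld {X : Var k} (hX : X.Nice n) : LD k X.F := by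
  obtain ⟨t, ht, _⟩ := hX.sepgen
  exact ld_of_sepgen hX.geom ht

theorem ld_freeP (hk : LD k F)
    (hn : rk k (univ : Set F) ≤ n) (γ : F →ₐ[k] Ω) (hγ : (n : ℕ∞) ≤ rk K (range γ)) {α : Type}
    [Fintype α] {b : α → F} (hb : LinearIndependent k b) {c : α → K}
    (h : ∑ i, algebraMap K Ω (c i) * γ (b i) = 0) (i : α) : c i = 0 := by
  by_contra hi
  wlog h1 : c i = 1 generalizing c
  · refine this (c := fun j => (c i)⁻¹ * c j) ?_ (by simp [hi]) (by simp [hi])
    simp only [map_mul, mul_assoc, ← Finset.mul_sum, h, mul_zero]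
  obtain ⟨t, ht, halg⟩ := exists_free_basis hn γ hγ
  obtain ⟨c', hc'⟩ := exists_spec (K := k) (AlgebraicClosure k) c
  let f : MP (Fin n) (MP α k) →+* Ω :=
    eval₂Hom ((algebraMap K Ω).comp (aeval c : MP α k →ₐ[k] K).toRingHom) fun j => γ (t j)
  let φ : MP (Fin n) (MP α k) →ₐ[k] MP (Fin n) (AlgebraicClosure k) := mapAlgHom (aeval c')
  have : (RingHom.ker φ).IsPrime := RingHom.ker_isPrime φ
  obtain ⟨V, hV, hres⟩ := ld2_place f (RingHom.ker φ) fun a ha => by
    have h2 : map (aeval c : MP α k →ₐ[k] K).toRingHom a = 0 :=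
      ht.eq_zero_of_aeval_eq_zero _ (by rw [aeval_def, eval₂_map]; exact ha)
    rw [RingHom.mem_ker]
    ext m
    have h3 := congrArg (coeff m) h2
    rw [coeff_map] at h3
    exact (coeff_map _ _ _).trans (hc' _ h3)
  have hf : ∀ Q : MP (Fin n) k, f (map C Q) = γ (aeval t Q) := fun Q => by
    have e : f.comp (map C) = (γ : F →+* Ω).comp (aeval t : MP (Fin n) k →ₐ[k] F).toRingHom := by
      ext x
      · simp [f, ← IsScalarTower.algebraMap_apply]
      · simp [f]
    exact RingHom.congr_fun e Q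
  have hφ : ∀ Q : MP (Fin n) k, φ (map C Q) = map (algebraMap k _) Q := fun Q => by
    ext m
    exact (coeff_map _ _ _).trans (by simp [coeff_map])
  have hB : ∀ y : Algebra.adjoin k (range t), ∃ Q : MP (Fin n) k, aeval t Q = y := fun y =>
    (Algebra.adjoin_range_eq_range_aeval k t).le y.2
  have hγV : ∀ a, (γ : F →+* Ω) a ∈ V := fun a => by
    obtain ⟨y, hy, hint⟩ := (halg a).exists_integral_multiple
    let ψ : Algebra.adjoin k (range t) →+* V :=
      ((γ : F →+* Ω).comp (algebraMap _ F)).codRestrict V fun x => by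
        obtain ⟨Q, hQ⟩ := hB x
        have := hV (map C Q)
        rwa [hf, hQ] at this
    obtain ⟨z, hz⟩ := IsIntegrallyClosed.isIntegral_iff.1
      (IsIntegral.map_of_comp_eq ψ (γ : F →+* Ω) rfl hint)
    obtain ⟨Q, hQ⟩ := hB y
    have hQ0 : Q ≠ 0 := fun e => hy (Subtype.ext (by rw [← hQ, e, map_zero]; rfl))
    have hu : IsUnit (⟨f (map C Q), hV _⟩ : V) := by
      rw [← IsLocalRing.residue_ne_zero_iff_isUnit, Ne, hres, RingHom.mem_ker, hφ]
      exact fun e => hQ0 (map_injective _ (algebraMap k _).injective (e.trans (map_zero _).symm))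
    obtain ⟨w, hw⟩ := hu.exists_left_inv
    have h4 : (w : Ω) * γ y = 1 := by
      rw [← hQ, ← hf]; exact congrArg Subtype.val hw
    have h5 : (z : Ω) = γ y * γ a := hz.trans (map_mul γ (y : F) a)
    have h6 : (γ : F →+* Ω) a = w * z := by
      rw [h5, ← mul_assoc, h4, one_mul]; rfl
    rw [h6]
    exact mul_mem w.2 z.2
  let γ₁ : F →+* IsLocalRing.ResidueField V :=
    (IsLocalRing.residue V).comp ((γ : F →+* Ω).codRestrict V hγV)
  let _ : Algebra k (IsLocalRing.ResidueField V) := (γ₁.comp (algebraMap k F)).toAlgebra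
  let ρ : MP (Fin n) (MP α k) →ₐ[k] IsLocalRing.ResidueField V :=
    ⟨(IsLocalRing.residue V).comp (f.codRestrict V hV), fun x =>
      congrArg (IsLocalRing.residue V) (Subtype.ext (by
        have := hf (C x)
        rw [map_C, aeval_C] at this
        exact this))⟩
  have hρ : ∀ a, ρ a = 0 ↔ φ a = 0 := hres
  have hX : ∀ j, φ (C (X j)) = C (c' j) := fun j => by simp [φ]
  have h7 := hk _ ⟨γ₁, fun _ => rfl⟩ _ b hb (fun j => ρ (C (X j))) (fun j => by
    obtain ⟨q, hq, h0⟩ := Algebra.IsAlgebraic.isAlgebraic (R := k) (c' j)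
    refine ⟨q, hq, ?_⟩
    rw [Polynomial.aeval_algHom_apply, hρ, ← Polynomial.aeval_algHom_apply, hX, ← algebraMap_eq,
      Polynomial.aeval_algebraMap_apply, h0, map_zero]) (by
    have e : ∑ j, (f.codRestrict V hV (C (X j)) * (γ : F →+* Ω).codRestrict V hγV (b j)) = 0 :=
      Subtype.ext (by
        rw [AddSubmonoidClass.coe_finsetSum]
        refine Eq.trans (Finset.sum_congr rfl fun j _ => ?_) h
        simp [f])
    have e' := congrArg (IsLocalRing.residue V) e
    rw [map_sum, map_zero] at e'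
    simp only [map_mul] at e'
    exact e') i
  rw [hρ, hX, C_eq_zero] at h7
  have h8 := hc' (X i - 1) (by simp [h1])
  simp [h7] at h8

theorem ld_funP (hk : LD k F)
    (hn : rk k (univ : Set F) ≤ n) (γ : F →ₐ[k] Ω) (hγ : (n : ℕ∞) ≤ rk K (range γ)) {α : Type}
    (s : Finset α) (z : α → F) (c : α → K) (h : ∑ i ∈ s, algebraMap K Ω (c i) * γ (z i) = 0)
    (lam : K →ₗ[k] k) : ∑ i ∈ s, lam (c i) • z i = 0 := by
  let β := Module.Basis.ofVectorSpace k F
  let T := s.biUnion fun i => (β.repr (z i)).support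
  have hT : ∀ i ∈ s, (β.repr (z i)).support ⊆ T := fun i hi =>
    Finset.subset_biUnion_of_mem (fun i => (β.repr (z i)).support) hi
  have key : ∀ j : T, ∑ i ∈ s, β.repr (z i) j • c i = 0 := by
    refine ld_freeP hk hn γ hγ (b := fun j : T => β j)
      (β.linearIndependent.comp _ Subtype.val_injective) ?_
    rw [Finset.sum_coe_sort T fun j => algebraMap K Ω (∑ i ∈ s, β.repr (z i) j • c i) * γ (β j),
      ← h]
    simp only [map_sum, Finset.sum_mul]
    rw [Finset.sum_comm]
    refine Finset.sum_congr rfl fun i hi => ?_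
    conv_rhs => rw [← gen_repr β (hT i hi), map_sum, Finset.mul_sum]
    refine Finset.sum_congr rfl fun j _ => ?_
    rw [Algebra.smul_def, Algebra.smul_def, map_mul, map_mul, γ.commutes,
      ← IsScalarTower.algebraMap_apply]
    ring
  rw [Finset.sum_congr rfl fun i hi => by rw [← gen_repr β (hT i hi), Finset.smul_sum],
    Finset.sum_comm]
  refine Finset.sum_eq_zero fun j hj => ?_
  have e := congrArg lam (key ⟨j, hj⟩)
  rw [map_sum, map_zero] at e
  rw [Finset.sum_congr rfl (g := fun i => lam (β.repr (z i) j • c i) • β j) fun i _ => by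
    rw [map_smul, smul_smul, smul_eq_mul, mul_comm], ← Finset.sum_smul, e, zero_smul]

theorem Var.Nice.gen_spanP {X : Var k} (hX : X.Nice n) {x : Fin (X.N + 1) → Ω}
    (hx : X.On x) {i : Fin (X.N + 1)} (h1 : x i = 1) (hr : (n : ℕ∞) ≤ rk K (range x))
    {G : Fm X.N K} {m : ℕ} (hG : G.IsHomogeneous m) (h0 : aeval x G = 0) :
    G ∈ Ideal.span (X.IK K) := by
  obtain ⟨γ₀, hc, u, hu, hxu⟩ := hx.exists_dom hX.dim h1 (hr.trans (rk_le_of_tower _))
  let γ : X.F →ₐ[k] Ω := { γ₀ with commutes' := hc }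
  have hi : X.g i ≠ 0 := hx.zr.g_ne (h1 ▸ one_ne_zero)
  have hγ : ∀ j, γ (X.g j / X.g i) = x j := fun j => by
    change γ₀ _ = _
    rw [map_div₀, ← mul_div_mul_left _ _ hu, ← hxu, ← hxu, h1, div_one]
  have hI : ∀ lam : K →ₗ[k] k, ∑ e ∈ G.support, monomial e (lam (coeff e G)) ∈ X.I := fun lam => by
    have hh : (∑ e ∈ G.support, monomial e (lam (coeff e G)) : Fm X.N k).IsHomogeneous m :=
      IsHomogeneous.sum _ _ _ fun e he =>
        isHomogeneous_monomial _ (by_contra fun hne => mem_support_iff.1 he (hG.coeff_eq_zero hne))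
    have key := ld_funP hX.ld (X.rk_univ hX.dim).le γ
      (hr.trans (rk_mono (range_subset_iff.2 fun j => ⟨_, hγ j⟩))) G.support
      (fun e => aeval (fun j => X.g j / X.g i) (monomial e (1 : k))) (fun e => coeff e G) (by
        rw [← h0]
        conv_rhs => rw [G.as_sum, map_sum]
        refine Finset.sum_congr rfl fun e _ => ?_
        rw [comp_aeval_apply, funext hγ, aeval_monomial, aeval_monomial, map_one, one_mul]) lam
    refine ⟨⟨m, hh⟩, ?_⟩
    have e1 : X.g = X.g i • fun j => X.g j / X.g i :=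
      funext fun j => (mul_div_cancel₀ _ hi).symm
    rw [e1, aeval_smul_hom hh, map_sum, Finset.sum_congr rfl fun e _ => ?_, key, mul_zero]
    rw [← map_smul, smul_monomial, smul_eq_mul, mul_one]
  let κ := Module.Basis.ofVectorSpace k K
  let T := G.support.biUnion fun e => (κ.repr (coeff e G)).support
  have e2 : G = ∑ t ∈ T, C (κ t) *
      map (algebraMap k K) (∑ e ∈ G.support, monomial e (κ.coord t (coeff e G))) := by
    simp only [map_sum, Finset.mul_sum, map_monomial, C_mul_monomial]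
    rw [Finset.sum_comm]
    conv_lhs => rw [G.as_sum]
    refine Finset.sum_congr rfl fun e he => ?_
    rw [← map_sum]
    congr 1
    conv_lhs => rw [← gen_repr κ (T := T)
      (Finset.subset_biUnion_of_mem (fun e => (κ.repr (coeff e G)).support) he)]
    exact Finset.sum_congr rfl fun t _ => by rw [Algebra.smul_def, mul_comm]; rfl
  rw [e2]
  exact sum_mem fun t _ => Ideal.mul_mem_left _ _ (Ideal.subset_span ⟨_, hI _, rfl⟩)

end Pool.Agent.ZCy
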