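import Pool.Agent.Lib.MP_751085_ag.ZC.CChf
import Pool.Agent.Lib.MP_751085_ag.ZF.C.Gen
import Pool.Agent.Lib.MP_751085_ag.ZF.C.Defs

/-! Charts of a nice variety are geometrically irreducible. -/

namespace Pool.Agent.ZCy

open scoped Classical Polynomial
open MvPolynomial Set

section

variable {k K σ : Type} [Field k] [Field K] [Algebra k K] [Fintype σ] {X : Var k}
  {n : ℕ} (c : Chart K σ X.N (X.IK K))

theorem Chart.gen_ptP (hσ : Fintype.card σ + 1 = n) {K' Ω : Type} [Field K'] [Field Ω] [Algebra K K']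
    [Algebra K' Ω] [Algebra K Ω] [Algebra k Ω] [IsScalarTower K K' Ω] [IsScalarTower k K Ω]
    {ξ : Option σ → Ω} {θ : Ω} (hξ : AlgebraicIndependent K' ξ)
    (hθ : ev (algebraMap K Ω) ξ θ c.χ = 0) : ∃ (x : Fin (X.N + 1) → Ω) (u : Ω)
      (i : Fin (X.N + 1)), u ≠ 0 ∧ c.pv (algebraMap K Ω) ξ θ = u • x ∧ X.On x ∧ x i = 1 ∧
      (n : ℕ∞) ≤ rk K' (range x) ∧ aeval x (c.f none) ≠ 0 ∧
      (∀ j, aeval x (c.f (some j)) = ξ j * aeval x (c.f none)) ∧
      aeval x c.th = θ * aeval x (c.f none) := by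
  have hD := chf_ne hξ (chf_D_ne c.toPChart)
  have hsb : ∀ G, ev (algebraMap K Ω) ξ θ (sb c.pp G) = aeval (c.pv (algebraMap K Ω) ξ θ) G :=
    fun G => ev_sb _ _ _ _ G
  have h0 := (c.ne Ω _ ξ θ hθ hD).1
  rw [hsb] at h0
  generalize c.pv (algebraMap K Ω) ξ θ = y at hsb h0
  have hy : y ≠ 0 := fun e => h0 (by
    have := aeval_smul_hom (c.hf none) (0 : Ω) y
    rwa [zero_pow c.dpos.ne', zero_mul, zero_smul, ← e] at this)
  obtain ⟨i, hi⟩ := Function.ne_iff.1 hy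
  have hi' : (y i)⁻¹ ≠ 0 := inv_ne_zero hi
  have hon : X.On y := ⟨hy, (Var.zer_IK (algebraMap K Ω)
    (fun a => (IsScalarTower.algebraMap_apply k K Ω a).symm)).1 fun G hG =>
      (hsb G).symm.trans (chf_ev_dvd hθ (c.dv_on G hG))⟩
  have e0 : aeval ((y i)⁻¹ • y) (c.f none) ≠ 0 := by
    rw [aeval_smul_hom (c.hf none)]
    exact mul_ne_zero (pow_ne_zero _ hi') h0
  have e1 : ∀ j, aeval ((y i)⁻¹ • y) (c.f (some j)) = ξ j * aeval ((y i)⁻¹ • y) (c.f none) :=
    fun j => by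
    have := chf_ev_dvd hθ (c.dv_f j)
    rw [map_sub, map_mul, hsb, hsb, chf_ev_C, eval₂_X, sub_eq_zero] at this
    rw [aeval_smul_hom (c.hf none), aeval_smul_hom (c.hf _), this, mul_left_comm]
  have e2 : aeval ((y i)⁻¹ • y) c.th = θ * aeval ((y i)⁻¹ • y) (c.f none) := by
    have := chf_ev_dvd hθ c.dv_th
    rw [map_sub, map_mul, hsb, hsb, ev_def, Polynomial.eval₂_X, sub_eq_zero] at this
    rw [aeval_smul_hom (c.hf none), aeval_smul_hom c.hth, this, mul_left_comm]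
  refine ⟨(y i)⁻¹ • y, y i, i, hi, (smul_inv_smul₀ hi y).symm, hon.smul hi',
    inv_mul_cancel₀ hi, ?_, e0, e1, e2⟩
  have hr := rk_range_iff.2 hξ
  rw [Fintype.card_option, hσ] at hr
  refine hr.trans (rk_le_of_acl ?_)
  rintro _ ⟨j, rfl⟩
  have hm : ∀ P : Fm X.N K, aeval ((y i)⁻¹ • y) P ∈ acl K' (range ((y i)⁻¹ • y)) := fun P => by
    rw [← aeval_map_algebraMap K']
    exact aeval_mem_acl (fun l => mem_acl_of_mem (mem_range_self l)) _
  rw [SetLike.mem_coe, ← mul_div_cancel_right₀ (ξ j) e0, ← e1]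
  exact div_mem (hm _) (hm _)

theorem chf_irrP (hX : X.Nice n) (hσ : Fintype.card σ + 1 = n) {K' Ω : Type} [Field K'] [Field Ω]
    [IsAlgClosed Ω] [Algebra K K'] [Algebra k K'] [Algebra K' Ω] [Algebra K Ω] [Algebra k Ω]
    [IsScalarTower K K' Ω] [IsScalarTower k K Ω] [IsScalarTower k K' Ω] {ξ : Option σ → Ω}
    (hξ : AlgebraicIndependent K' ξ) : Irreducible (mq (algebraMap K K') c.χ) := by
  have hm : (mq (algebraMap K K') c.χ).Monic := c.monic.map _
  have hev : ∀ θ p, ev (algebraMap K' Ω) ξ θ (mq (algebraMap K K') p) =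
      ev (algebraMap K Ω) ξ θ p := fun θ p => by
    rw [ev_mq, ← IsScalarTower.algebraMap_eq]
  refine hm.irreducible_iff_natDegree.2 ⟨fun e => ?_, fun f g hf hg e => ?_⟩
  · have h1 : (mq (algebraMap K K') c.χ).natDegree = c.δ := (c.monic.natDegree_map _).trans c.deg
    rw [e, Polynomial.natDegree_one] at h1
    exact c.pos.ne h1
  by_contra hne
  rw [not_or] at hne
  have hi : Function.Injective (eval₂Hom (algebraMap K' Ω) ξ) :=
    algebraicIndependent_iff_injective_aeval.1 hξ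
  have hroot : ∀ p : (MP (Option σ) K')[X], p.natDegree ≠ 0 →
      ∃ θ, ev (algebraMap K' Ω) ξ θ p = 0 := fun p hp =>
    IsAlgClosed.exists_eval₂_eq_zero_of_injective _ hi p fun h =>
      hp (Polynomial.natDegree_eq_of_degree_eq_some h)
  obtain ⟨θ₁, h1⟩ := hroot f hne.1
  obtain ⟨θ₂, h2⟩ := hroot g hne.2
  have c1 : ev (algebraMap K Ω) ξ θ₁ c.χ = 0 := by rw [← hev, ← e, map_mul, h1, zero_mul]
  have c2 : ev (algebraMap K Ω) ξ θ₂ c.χ = 0 := by rw [← hev, ← e, map_mul, h2, mul_zero]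
  obtain ⟨x₁, -, i₁, -, -, a1, a2, a3, -, a5, a6⟩ := c.gen_ptP hσ hξ c1
  obtain ⟨x₂, -, -, -, -, b1, -, -, b4, b5, b6⟩ := c.gen_ptP hσ hξ c2
  obtain ⟨M, P, hP, hcl⟩ := exists_clear (d := c.d) ((optionEquivLeft K' (Option σ)).symm f)
    (e := fun i => i.elim (map (algebraMap K K') c.th) fun j => map (algebraMap K K') (c.f (some j)))
    (s := map (algebraMap K K') (c.f none))
    (fun i => by cases i; exacts [c.hth.map _, (c.hf _).map _]) ((c.hf none).map _)
  have key : ∀ (x : Fin (X.N + 1) → Ω) (θ : Ω),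
      (∀ j, aeval x (c.f (some j)) = ξ j * aeval x (c.f none)) →
      aeval x c.th = θ * aeval x (c.f none) →
      aeval x P = aeval x (c.f none) ^ M * ev (algebraMap K' Ω) ξ θ f := fun x θ e1 e2 => by
    rw [hcl Ω x (fun i => i.elim θ ξ) fun i => by
      cases i <;> simp only [Option.elim, aeval_map_algebraMap]
      exacts [e2, e1 _], aeval_map_algebraMap, aeval_def (fun i : Option (Option σ) => i.elim θ ξ),
      eval₂_tp, tp, AlgEquiv.apply_symm_apply]
    rfl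
  have hs := hX.gen_spanP a1 a2 a3 hP (by rw [key x₁ θ₁ a5 a6, h1, mul_zero])
  have hz : aeval x₂ P = 0 := Zer.span ((Var.zer_IK (algebraMap K' Ω)
    (fun a => (IsScalarTower.algebraMap_apply k K' Ω a).symm)).2 b1.zr) hs
  rw [key x₂ θ₂ b5 b6] at hz
  have h3 := (mul_eq_zero.1 hz).resolve_left (pow_ne_zero _ b4)
  obtain ⟨α, β, hb⟩ := c.bez
  have h4 := congrArg (ev (algebraMap K Ω) ξ θ₂) hb
  have h5 : ev (algebraMap K Ω) ξ θ₂ (Polynomial.derivative c.χ) = 0 := by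
    rw [← hev, Polynomial.coe_mapRingHom, ← Polynomial.derivative_map,
      ← Polynomial.coe_mapRingHom, ← e, Polynomial.derivative_mul, map_add, map_mul, map_mul, h2,
      h3, mul_zero, zero_mul, add_zero]
  rw [chf_ev_C, map_add, map_mul, map_mul, c2, h5, mul_zero, mul_zero, add_zero] at h4
  exact chf_ne hξ (chf_D_ne c.toPChart) h4

theorem Var.Nice.chart_giP (hX : X.Nice n) (hσ : Fintype.card σ + 1 = n) : c.GI :=
  chf_irrP c hX hσ (Ω := AlgebraicClosure (RF (Option σ) (AlgebraicClosure K))) (chf_ind rfl)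

theorem Var.Nice.chart_domP (hX : X.Nice n) (hσ : Fintype.card σ + 1 = n) {F' : Type} [Field F']
    [Algebra (RF (Option σ) K) F'] [Algebra k F'] {θ : F'}
    (hθ : Polynomial.eval₂ (toE (MP (Option σ) K) F') θ c.χ = 0)
    (ha : ∀ a : k, algebraMap k F' a = toE (MP (Option σ) K) F' (C (algebraMap k K a))) :
    ∃ γ : X.F →+* F', X.Dom γ (c.pv ((toE (MP (Option σ) K) F').comp C)
      (fun i => toE (MP (Option σ) K) F' (MvPolynomial.X i)) θ) := by
  let : Algebra K F' := ((toE (MP (Option σ) K) F').comp C).toAlgebra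
  have : IsScalarTower k K F' := IsScalarTower.of_algebraMap_eq ha
  have hθ' : ev (algebraMap K F') (fun i => toE (MP (Option σ) K) F' (MvPolynomial.X i)) θ c.χ =
      0 := by
    rw [ev_def, ← hθ]
    exact congrArg (fun φ => Polynomial.eval₂ φ θ c.χ) chf_toE
  obtain ⟨x, u, i, hu, e, a1, a2, a3, -⟩ := c.gen_ptP hσ (K' := K) (chf_ind rfl) hθ'
  obtain ⟨γ, hγ⟩ := a1.exists_dom hX.dim a2 (a3.trans (rk_le_of_tower _))
  refine ⟨γ, ?_⟩
  have := hγ.smul hu
  rwa [← e] at this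

end

theorem chfp_thm : CHFp := fun _ _ _ _ hX _ _ _ _ _ c hσ =>
  ⟨hX.chart_giP c hσ, fun _ _ _ _ _ hF ha =>
    (hX.chart_domP c hσ hF.1 ha).imp fun _ h => ⟨hF, ha, h⟩⟩

end Pool.Agent.ZCy
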