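import Pool.Agent.Lib.MP_751085_ag.ZF.C.Defs
import Pool.Agent.Lib.MP_751085_ag.ZF.C.SDefs

/-! Generic choices with local conditions. -/

namespace Pool.Agent.ZCy

open scoped Classical Polynomial Topology
open MvPolynomial Filter

variable {k : Type} [Field k]

/-- a nonzero coefficient of `r` as a polynomial in the variables `κ` -/
theorem Gn.fubini {ι κ : Type} {S : (ι ⊕ κ → k) → Prop} (h : Gn k S) :
    Gn k fun a : ι → k => Gn k fun b : κ → k => S (Sum.elim a b) := by
  obtain ⟨r, h0, hr⟩ := h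
  have h1 : sumAlgEquiv k κ ι (rename Sum.swap r) ≠ 0 := by
    rw [map_ne_zero_iff _ (sumAlgEquiv k κ ι).injective,
      map_ne_zero_iff _ (rename_injective _ Sum.swap_leftInverse.injective)]
    exact h0
  obtain ⟨m, hm⟩ := ne_zero_iff.1 h1
  refine ⟨_, hm, fun a ha => ⟨map (eval a) (sumAlgEquiv k κ ι (rename Sum.swap r)),
    ne_zero_iff.2 ⟨m, by rwa [coeff_map]⟩, fun b hb => hr _ ?_⟩⟩
  have e : ∀ q : MP (ι ⊕ κ) k, eval b (map (eval a) (sumAlgEquiv k κ ι (rename Sum.swap q))) =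
      eval (Sum.elim a b) q := by
    intro q
    induction q using MvPolynomial.induction_on with
    | C c => simp
    | add p q hp hq => simp only [map_add, hp, hq]
    | mul_X p i hp =>
      simp only [map_mul, hp]
      rcases i with i | i <;> simp
  rwa [e] at hb

/-- reindexing: `rename` along an injective map -/
theorem Gn.compP {ι κ : Type} {S : (ι → k) → Prop} (h : Gn k S) {e : ι → κ}
    (he : Function.Injective e) : Gn k fun a : κ → k => S (a ∘ e) := by
  obtain ⟨r, h0, hr⟩ := h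
  exact ⟨rename e r, (map_ne_zero_iff _ (rename_injective _ he)).2 h0,
    fun a ha => hr _ (by rwa [eval_rename] at ha)⟩

theorem Gn.opt {σ μ : Type} {S : (Option σ × μ → k) → Prop} (h : Gn k S) :
    Gn k fun a : μ → k => Gn k fun b : σ × μ → k =>
      S fun p => p.1.elim (a p.2) fun i => b (i, p.2) := by
  have he : Function.Injective fun p : Option σ × μ =>
      (p.1.elim (Sum.inl p.2) fun i => Sum.inr (i, p.2) : μ ⊕ σ × μ) := by
    rintro ⟨_ | i, m⟩ ⟨_ | j, m'⟩ e <;> simp_all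
  refine (h.compP he).fubini.mono fun a ha => ha.mono fun b hb => ?_
  have e : (Sum.elim a b ∘ fun p : Option σ × μ =>
      (p.1.elim (Sum.inl p.2) fun i => Sum.inr (i, p.2) : μ ⊕ σ × μ)) =
      fun p => p.1.elim (a p.2) fun i => b (i, p.2) := by
    funext p
    rcases p with ⟨_ | i, m⟩ <;> rfl
  rwa [e] at hb

/-- pull-back along a polynomial map -/
theorem Gn.pull {ι κ : Type} {r : MP ι k} (s : ι → MP κ k) {b : κ → k}
    (hb : eval (fun i => eval b (s i)) r ≠ 0) :
    Gn k fun a : κ → k => eval (fun i => eval a (s i)) r ≠ 0 := by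
  have e : ∀ a : κ → k, eval a (bind₁ s r) = eval (fun i => eval a (s i)) r := fun a =>
    aeval_bind₁ (R := k) a s r
  refine ⟨bind₁ s r, fun h0 => hb ?_, fun a ha => by rwa [e] at ha⟩
  rw [← e, h0, map_zero]

/-- a polynomial that does not vanish at `a` vanishes at finitely many points of a line through `a` -/
theorem ev_line {ι : Type} {r : MP ι k} {a : ι → k} (ha : eval a r ≠ 0) (b : ι → k) :
    ∀ᶠ ε : k in cofinite, eval (a + ε • b) r ≠ 0 := by
  have e : ∀ (ε : k) (q : MP ι k), Polynomial.eval ε (aeval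
      (fun i => Polynomial.C (a i) + Polynomial.X * Polynomial.C (b i)) q) =
      eval (a + ε • b) q := by
    intro ε q
    induction q using MvPolynomial.induction_on with
    | C c => simp
    | add p q hp hq => simp only [map_add, Polynomial.eval_add, hp, hq]
    | mul_X p i hp =>
      simp only [map_mul, Polynomial.eval_mul, hp]
      simp [mul_comm (b i) ε]
  have h0 : aeval (fun i => Polynomial.C (a i) + Polynomial.X * Polynomial.C (b i)) r ≠ 0 :=
    fun h0 => ha (by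
      have := e 0 r
      rwa [h0, zero_smul, add_zero, Polynomial.eval_zero, eq_comm] at this)
  refine (Polynomial.finite_setOfPred_isRoot h0).subset fun ε hε => ?_
  rw [Set.mem_ofPred_eq, Polynomial.IsRoot, e]
  exact not_not.1 hε

/-- a nonzero vector is the first row of an invertible matrix -/
theorem exists_row {σ : Type} [Fintype σ] {a : Option σ → k} (ha : a ≠ 0) :
    ∃ L L' : Matrix (Option σ) (Option σ) k, L * L' = 1 ∧ L' none = a := by
  obtain ⟨i, hi⟩ := Function.ne_iff.1 ha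
  have h1 : ((1 : Matrix (Option σ) (Option σ) k).updateRow i a).det = a i := by
    rw [← Matrix.cramer_transpose_apply, Matrix.transpose_one, Matrix.cramer_one]
    rfl
  refine ⟨_, ((1 : Matrix (Option σ) (Option σ) k).updateRow i a).submatrix (Equiv.swap none i) id,
    Matrix.nonsing_inv_mul _ ?_, ?_⟩
  · rw [Matrix.det_permute, h1]
    exact (IsUnit.map (Int.castRingHom k) (Units.isUnit _)).mul (Ne.isUnit hi)
  · funext j
    simp

variable {V : Type} {R : V → ValuationSubring k} {K : V → Type} [∀ v, Field (K v)]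
  [∀ v, Algebra k (K v)] [∀ v, TopologicalSpace (K v)]

/-- generic points with local conditions -/
theorem WApx.gn (h : WApx R K) {ι : Type} [Fintype ι] {P : (ι → k) → Prop} (hP : Gn k P)
    {S T : Finset V} (hST : Disjoint S T) (t : ∀ v, ι → K v) (U : ∀ v, ι → Set (K v))
    (hU : ∀ v ∈ S, ∀ i, U v i ∈ 𝓝 (t v i)) (s : V → ι → k) (r : V → k) (hr : ∀ v, r v ≠ 0) :
    ∃ a, P a ∧ (∀ v ∈ S, ∀ i, algebraMap k _ (a i) ∈ U v i) ∧
      ∀ v ∈ T, ∀ i, (a i - s v i) / r v ∈ R v := by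
  obtain ⟨ρ, h0, hρ⟩ := hP
  by_contra hn
  refine h0 (MvPolynomial.funext_set _ (fun i => h S T hST (fun v => t v i) (fun v => U v i)
    (fun v hv => hU v hv i) (fun v => s v i) r hr) fun a ha => ?_)
  by_contra h1
  exact hn ⟨a, hρ a h1, fun v hv i => (ha i trivial).1 v hv, fun v hv i => (ha i trivial).2 v hv⟩

theorem apxp_den (O : ValuationSubring k) (s : Finset k) :
    ∃ r : k, r ≠ 0 ∧ r ∈ O ∧ ∀ z ∈ s, r * z ∈ O := by
  induction s using Finset.induction_on with
  | empty => exact ⟨1, one_ne_zero, O.one_mem, fun _ h => absurd h (Finset.notMem_empty _)⟩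
  | insert z s _ ih =>
    obtain ⟨r, h0, h1, h2⟩ := ih
    by_cases hz : z ∈ O
    · exact ⟨r, h0, h1, Finset.forall_mem_insert _ _ _ |>.2 ⟨O.mul_mem _ _ h1 hz, h2⟩⟩
    · have hz0 : z ≠ 0 := fun e => hz (e ▸ O.zero_mem)
      have hi := (O.mem_or_inv_mem z).resolve_left hz
      refine ⟨z⁻¹ * r, mul_ne_zero (inv_ne_zero hz0) h0, O.mul_mem _ _ hi h1,
        Finset.forall_mem_insert _ _ _ |>.2 ⟨?_, fun y hy => ?_⟩⟩
      · rwa [mul_right_comm, inv_mul_cancel₀ hz0, one_mul]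
      · rw [mul_assoc]
        exact O.mul_mem _ _ hi (h2 y hy)

/-- a common small multiplier for the coefficients of finitely many forms -/
theorem exists_small {O : ValuationSubring k} (hO : O ≠ ⊤) {N : ℕ} {μ : Type} [Fintype μ]
    (E : μ → Fm N k) : ∃ r : k, r ≠ 0 ∧ ∀ c : μ → k, (∀ m, c m / r ∈ O) →
      ∀ e, O.valuation (coeff e (∑ m, C (c m) * E m)) < 1 := by
  obtain ⟨x, hx⟩ : ∃ x, x ∉ O := by
    by_contra hn
    exact hO (eq_top_iff.2 fun x _ => not_not.1 fun h => hn ⟨x, h⟩)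
  have hx0 : x ≠ 0 := fun e => hx (e ▸ O.zero_mem)
  have hx1 : O.valuation x⁻¹ < 1 := by
    rw [map_inv₀]
    exact inv_lt_one_of_one_lt₀ (not_le.1 fun h => hx ((O.valuation_le_one_iff x).1 h))
  obtain ⟨r, h0, -, h2⟩ := apxp_den O (Finset.univ.biUnion fun m => (E m).coeffs)
  refine ⟨x⁻¹ * r, mul_ne_zero (inv_ne_zero hx0) h0, fun c hc e => ?_⟩
  rw [coeff_sum]
  refine Valuation.map_sum_lt _ one_ne_zero fun m _ => ?_
  rw [coeff_C_mul]
  by_cases he : coeff e (E m) = 0
  · rw [he, mul_zero, map_zero]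
    exact zero_lt_one
  have h3 := h2 _ (Finset.mem_biUnion.2 ⟨m, Finset.mem_univ _, coeff_mem_coeffs e he⟩)
  have e1 : c m * coeff e (E m) = c m / (x⁻¹ * r) * (r * coeff e (E m)) * x⁻¹ := by
    field_simp
  rw [e1, map_mul]
  exact mul_lt_one_of_nonneg_of_lt_one_right
    ((O.valuation_le_one_iff _).2 (O.mul_mem _ _ (hc m) h3)) zero_le hx1

/-- generic members of a linear system with local conditions -/
theorem WApx.sys [∀ v, IsTopologicalRing (K v)] (h : WApx R K) (hR : ∀ v, R v ≠ ⊤) {N : ℕ}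
    {ι μ : Type} [Fintype ι] [Fintype μ] (E : μ → Fm N k) {P : (ι × μ → k) → Prop} (hP : Gn k P)
    {S T : Finset V} (hST : Disjoint S T) (fv : ∀ v, ι → Fm N (K v))
    (W : ∀ v, ι → Set ((Fin (N + 1) →₀ ℕ) → K v))
    (hS : ∀ v ∈ S, ∀ i, fv v i ∈ Submodule.span (K v)
      (Set.range fun m => map (algebraMap k (K v)) (E m)) ∧ W v i ∈ 𝓝 (cf (fv v i)))
    (g : V → ι → Fm N k) (hT : ∀ v ∈ T, ∀ i, g v i ∈ Submodule.span k (Set.range E)) :
    ∃ a, P a ∧ (∀ v ∈ S, ∀ i, cf (map (algebraMap k (K v)) (sys (fun _ => E) a i)) ∈ W v i) ∧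
      ∀ v ∈ T, ∀ i e, (R v).valuation (coeff e (sys (fun _ => E) a i - g v i)) < 1 := by
  have h1 : ∀ v ∈ S, ∀ i, ∃ (t : μ → K v) (U : μ → Set (K v)), (∀ m, U m ∈ 𝓝 (t m)) ∧
      ∀ a : μ → K v, (∀ m, a m ∈ U m) →
        cf (∑ m, C (a m) * map (algebraMap k (K v)) (E m)) ∈ W v i := fun v hv i => by
    obtain ⟨t, ht⟩ := (Submodule.mem_span_range_iff_exists_fun _).1 (hS v hv i).1
    have hc : Continuous fun a : μ → K v => cf (∑ m, C (a m) * map (algebraMap k (K v)) (E m)) :=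
      continuous_pi fun m => by
        simp only [cf, coeff_sum, coeff_C_mul]
        fun_prop
    have e := hc.continuousAt (x := t)
    simp only [ContinuousAt, C_mul', ht, nhds_pi (A := fun _ : μ => K v)] at e
    obtain ⟨I, -, U, hU, hI⟩ := Filter.mem_pi.1 (e (hS v hv i).2)
    exact ⟨t, U, hU, fun a ha => by simpa only [C_mul', Set.mem_preimage] using hI fun m _ => ha m⟩
  choose! t U hU hW using h1
  choose! s hs using fun v hv i => (Submodule.mem_span_range_iff_exists_fun _).1 (hT v hv i)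
  choose r hr hr' using fun v => exists_small (hR v) E
  obtain ⟨a, h1, h2, h3⟩ := h.gn hP hST (fun v p => t v p.1 p.2) (fun v p => U v p.1 p.2)
    (fun v hv p => hU v hv p.1 p.2) (fun v p => s v p.1 p.2) r hr
  refine ⟨a, h1, fun v hv i => ?_, fun v hv i e => ?_⟩
  · simpa only [sys_self, map_sum, map_mul, map_C] using hW v hv i _ fun m => h2 v hv (i, m)
  · simpa only [sys_self, ← hs v hv i, C_mul', sub_smul, Finset.sum_sub_distrib] using
      hr' v _ (fun m => h3 v hv (i, m)) e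

/-- The choice of the hyperplane. -/
theorem WApx.pen [Infinite k] (h : WApx R K) {σ : Type} [Fintype σ] (hσ : 3 ≤ Fintype.card σ)
    {P : (σ → k) → Prop} (hP : Pen P) {ρ : MP σ k} (hρ : ρ ≠ 0) (T : Finset V) (s : V → σ → k)
    (r : V → k) (hr : ∀ v, r v ≠ 0) :
    ∃ a, P a ∧ a ≠ 0 ∧ eval a ρ ≠ 0 ∧ ∀ v ∈ T, ∀ i, (a i - s v i) / r v ∈ R v := by
  obtain ⟨δ, hδ, hP⟩ := hP
  obtain ⟨i₁, i₂, i₃, h12, h13, h23⟩ := Fintype.two_lt_card_iff.1 hσ
  obtain ⟨b, hb⟩ := Gn.exists (S := fun b => eval b (δ * X i₂) ≠ 0)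
    ⟨_, mul_ne_zero hδ (X_ne_zero i₂), fun _ => id⟩
  have hb2 : b i₂ ≠ 0 := by simpa using right_ne_zero_of_mul ((map_mul (eval b) _ _).symm.trans_ne hb)
  obtain ⟨q, hq⟩ : ∃ q : σ → MP σ k, ∀ a, (fun j => eval a (q j)) =
      a i₁ • b - (a ⬝ᵥ b) • Pi.single i₁ 1 :=
    ⟨fun j => X i₁ * C (b j) - (∑ i, X i * C (b i)) * C (Pi.single (M := fun _ => k) i₁ 1 j),
      fun a => funext fun j => by simp [dotProduct]⟩
  have hG := Gn.pull (r := δ * X i₂) q (b := Pi.single i₁ 1 - Pi.single i₂ (b i₁ / b i₂)) (by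
    simpa [hq, h12, hb2] using hb)
  obtain ⟨a, ⟨h1, h2⟩, -, h3⟩ := h.gn (hG.and ⟨ρ, hρ, fun _ => id⟩) (Finset.disjoint_empty_left T)
    (fun _ _ => 0) (fun _ _ => Set.univ) (fun _ _ _ => univ_mem) s r hr
  rw [hq, map_mul, eval_X] at h1
  generalize ha' : a i₁ • b - (a ⬝ᵥ b) • Pi.single i₁ 1 = a' at h1
  have h4 := right_ne_zero_of_mul h1
  have h5 : a i₁ ≠ 0 := fun e => h4 (by simp [← ha', e, h12.symm])
  obtain ⟨w, w1, w3, hw⟩ : ∃ w : σ → k, w i₁ = 0 ∧ w i₃ ≠ 0 ∧ w ⬝ᵥ a' = 0 :=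
    ⟨Pi.single i₃ (a' i₂) - Pi.single i₂ (a' i₃), by simp [h12, h13], by simpa [h23.symm] using h4,
      by simp [mul_comm]⟩
  have h6 := hP a' (left_ne_zero_of_mul h1) a w (by simp [← ha', mul_comm]) hw
    (LinearIndependent.pair_iff.2 fun x y e => by
      have e1 : x = 0 := by simpa [w1, h5] using congrFun e i₁
      exact ⟨e1, by simpa [e1, w3] using congrFun e i₃⟩)
  choose c hc using fun v => IsLocalization.exist_integer_multiples_of_finite (S := k)
    (nonZeroDivisors (R v)) fun i => w i / r v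
  have c0 : ∀ v, ((c v : R v) : k) ≠ 0 := fun v => by simpa using nonZeroDivisors.coe_ne_zero (c v)
  obtain ⟨ε, ⟨-, e1⟩, e2, e3⟩ := ((frequently_cofinite_iff_infinite.2 (h ∅ T
    (Finset.disjoint_empty_left T) (fun _ => 0) (fun _ => Set.univ) (fun _ _ => univ_mem)
    (fun _ => 0) _ c0)).and_eventually (h6.and (ev_line h2 w))).exists
  refine ⟨_, e2, fun e => h5 (by simpa [w1] using congrFun e i₁), e3, fun v hv i => ?_⟩
  obtain ⟨y, hy⟩ := hc v i
  have := add_mem (h3 v hv i) (mul_mem (e1 v hv) y.2)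
  rw [show (y : k) = c v * (w i / r v) from hy, sub_zero, div_mul_eq_mul_div, mul_left_comm,
    mul_div_cancel_left₀ _ (c0 v), ← mul_div_assoc, ← add_div, sub_add_eq_add_sub] at this
  exact this

end Pool.Agent.ZCy
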