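import Pool.Agent.Lib.MP_751085_ag.ZF.C.Cnt1

/-! Bertini for linear systems through jets. -/

namespace Pool.Agent.ZCy

open scoped Classical Polynomial
open MvPolynomial Set

variable {k : Type} [Field k] {n d : ℕ} {σ μ : Type} [Fintype σ] [Fintype μ] {X : Var k}
  {E : σ → μ → Fm X.N k}

theorem cnt2p_dot {Ω τ : Type} [Field Ω] [Fintype τ] [DecidableEq τ] (l : σ → Ω) (g : σ → τ → Ω)
    (e : τ) :
    ∑ i, g i ⬝ᵥ (l i • Pi.single e 1) = (∑ i, l i • g i) e := by
  simp [Finset.sum_apply]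

theorem cnt2p_ite {Ω τ : Type} [Field Ω] [Fintype τ] (g : σ → τ → Ω) (x : τ → Ω) (t : σ) :
    (∑ i, g i ⬝ᵥ if i = t then x else 0) = g t ⬝ᵥ x := by
  rw [Finset.sum_eq_single t (fun i _ h => by rw [if_neg h, dotProduct_zero]) (by simp), if_pos rfl]

theorem cnt2p_norm (hX : X.Nice n) (hσ : Fintype.card σ + 1 ≤ n)
    (hE : ∀ i m, (E i m).IsHomogeneous d) (hb : ∀ i, Big (E i)) {Ω : Type} [Field Ω] [Algebra k Ω]
    {a : σ × μ → Ω} (ha : AlgebraicIndependent k a) {x : Fin (X.N + 1) → Ω} (hx : X.On x)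
    {j : Fin (X.N + 1)} (hj : x j = 1) {l : σ → Ω} {i₀ : σ} (h0 : l i₀ = 1)
    (h1 : ∀ i, l i ≠ 0 → eval x (sys E a i) = 0)
    (h2 : ∑ i, l i • grad x (sys E a i) ∈ X.jac x) : False := by
  obtain ⟨r, G, hr, -, -, hsp⟩ := hX.exists_basis_jac hx
  rw [← hsp, Submodule.mem_span_range_iff_exists_fun] at h2
  obtain ⟨c, hc⟩ := h2
  set T : Finset σ := (Finset.univ.erase i₀).filter fun i => l i ≠ 0 with hT
  set s : Set Ω := (range x ∪ range c) ∪ l '' T with hs
  have hxs : ∀ i, x i ∈ acl k s := fun i => mem_acl_of_mem (Or.inl (Or.inl ⟨i, rfl⟩))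
  have hls : ∀ i, l i ∈ acl k s := fun i => by
    by_cases e1 : i = i₀
    · rw [e1, h0]
      exact one_mem _
    by_cases e2 : l i = 0
    · rw [e2]
      exact zero_mem _
    · exact mem_acl_of_mem (Or.inr ⟨i, by simp [hT, e1, e2], rfl⟩)
  have hu : ∀ (e : Fin (X.N + 1)) i j', (l i • (Pi.single e 1 : Fin (X.N + 1) → Ω)) j' ∈ acl k s :=
    fun e i j' => by
      rw [Pi.smul_apply, smul_eq_mul, Pi.single_apply]
      split_ifs
      exacts [mul_mem (hls i) (one_mem _), mul_mem (hls i) (zero_mem _)]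
  have hv : ∀ e : Fin (X.N + 1), ∑ i, grad x (sys E a i) ⬝ᵥ (l i • Pi.single e 1) ∈ acl k s :=
    fun e => by
      rw [cnt2p_dot, ← hc, Finset.sum_apply]
      exact sum_mem fun t _ => mul_mem (mem_acl_of_mem (Or.inl (Or.inr ⟨t, rfl⟩)))
        (aeval_mem_acl hxs _)
  have hrk : ∀ m : ℕ, rk k (range x) ≤ m → rk k s ≤ (m + r + T.card : ℕ) := fun m hm => by
    refine (rk_union_le _ _).trans ?_
    rw [Nat.cast_add, Nat.cast_add]
    refine add_le_add ((rk_union_le _ _).trans (add_le_add hm ((rk_range_le c).trans ?_)))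
      (rk_image_le l T)
    rw [Fintype.card_fin]
  by_cases hall : ∀ i, gsp (E i) x = ⊤
  · have h3 := sys_count (Λ := k) (ε := Fin (X.N + 1) ⊕ T) E ha s hxs
      (Sum.elim (fun e i => l i • Pi.single e 1) fun t i => if i = t then x else 0) ?_ ?_
      (fun β => ?_) (hrk n (hx.rk_le hX.dim hj))
    · rw [Fintype.card_sum, Fintype.card_fin, Fintype.card_coe] at h3
      omega
    · rintro (e | t) i j'
      · exact hu e i j'
      · rw [Sum.elim_inr]
        split_ifs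
        exacts [hxs j', zero_mem _]
    · rintro (e | t)
      · exact hv e
      · simp only [Sum.elim_inr, cnt2p_ite]
        rw [grad_dot_self (sys_hom (hE t) a), aeval_eq_eval, h1 t (Finset.mem_filter.1 t.2).2,
          mul_zero]
        exact zero_mem _
    · obtain ⟨g, hg⟩ : ∃ g : σ → Fin (X.N + 1) → Ω, ∀ t : T, g t ⬝ᵥ x = β (Sum.inr t) :=
        ⟨fun i => if h : i ∈ T then Pi.single j (β (Sum.inr ⟨i, h⟩)) else 0, fun t => by
          simp [hj]⟩
      refine ⟨fun i => g i + if i = i₀ then (fun e => β (Sum.inl e)) - ∑ i, l i • g i else 0,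
        fun i => hall i ▸ Submodule.mem_top, ?_⟩
      rintro (e | t)
      · simp only [Sum.elim_inl, cnt2p_dot, smul_add, Finset.sum_add_distrib, smul_ite, smul_zero,
          Finset.sum_ite_eq', Finset.mem_univ, if_true, h0, one_smul, add_sub_cancel]
      · simp only [Sum.elim_inr, cnt2p_ite]
        rw [if_neg (Finset.ne_of_mem_erase (Finset.mem_filter.1 t.2).1), add_zero, hg]
  · obtain ⟨i₁, h3⟩ := not_forall.1 hall
    have h4 : rk k (range x) = 0 := rk_eq_zero (by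
      rintro _ ⟨i, rfl⟩
      simpa [hj] using ((hb i₁ Ω x hx.1).resolve_left h3).1 i j)
    have h5 : X.N - 1 ≤ Module.finrank Ω (gsp (E i₀) x) := by
      rcases hb i₀ Ω x hx.1 with h | h
      · rw [h, finrank_top, Module.finrank_fintype_fun_eq_card, Fintype.card_fin]
        omega
      · have := h.2
        omega
    obtain ⟨p, hp⟩ := exists_coords h5
    have h6 := sys_count (Λ := k) E ha s hxs (fun e i => l i • Pi.single (p e) 1)
      (fun e => hu (p e)) (fun e => hv (p e)) (fun β => ?_) (hrk 0 h4.le)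
    · have h7 : T.card ≤ Fintype.card σ - 1 := by
        refine (Finset.card_filter_le _ _).trans ?_
        rw [Finset.card_erase_of_mem (Finset.mem_univ _), Finset.card_univ]
      have h8 : 0 < Fintype.card σ := Fintype.card_pos_iff.2 ⟨i₀⟩
      rw [Fintype.card_fin] at h6
      omega
    · obtain ⟨u, h7, h8⟩ := hp β
      refine ⟨fun i => if i = i₀ then u else 0, fun i => ?_, fun e => ?_⟩
      · dsimp only
        split_ifs with h
        exacts [h ▸ h7, zero_mem _]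
      · simp only [cnt2p_dot, smul_ite, smul_zero, Finset.sum_ite_eq', Finset.mem_univ, if_true, h0,
          one_smul, h8]

/-- Independent coefficients give smooth sections. -/
theorem smAll_indep (hX : X.Nice n) (hσ : Fintype.card σ + 1 ≤ n) (_hd : (d : k) ≠ 0)
    (hE : ∀ i m, (E i m).IsHomogeneous d) (hb : ∀ i, Big (E i)) {Ω : Type} [Field Ω] [Algebra k Ω]
    {a : σ × μ → Ω} (ha : AlgebraicIndependent k a) {x : Fin (X.N + 1) → Ω} (hx : X.On x)
    {l : σ → Ω} (h1 : ∀ i, l i ≠ 0 → eval x (sys E a i) = 0)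
    (h2 : ∑ i, l i • grad x (sys E a i) ∈ X.jac x) : l = 0 := by
  by_contra h
  obtain ⟨i₀, h0⟩ := Function.ne_iff.1 h
  obtain ⟨j, hj⟩ := Function.ne_iff.1 hx.1
  have hj' : x j ≠ 0 := hj
  refine cnt2p_norm hX hσ hE hb ha (hx.smul (inv_ne_zero hj')) (j := j) (inv_mul_cancel₀ hj')
    (l := (l i₀)⁻¹ • l) (i₀ := i₀) (inv_mul_cancel₀ h0) (fun i hi => ?_) ?_
  · have h3 := h1 i (right_ne_zero_of_mul hi)
    rw [← aeval_eq_eval] at h3 ⊢
    rw [aeval_smul_hom (sys_hom (hE i) a), h3, mul_zero]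
  · rw [Var.jac_smul (inv_ne_zero hj')]
    simp only [grad_smul_hom (sys_hom (hE _) a), Pi.smul_apply, smul_assoc, smul_comm (l _),
      ← Finset.smul_sum]
    exact Submodule.smul_mem _ _ (Submodule.smul_mem _ _ h2)

/-- the equations of a singular point of a section -/
noncomputable def cnt2p_eqs (E : σ → μ → Fm X.N k) (GG : Finset (Fm X.N k)) :
    Set (MP ((σ × μ) ⊕ (Fin (X.N + 1) ⊕ (σ ⊕ GG))) k) :=
  (range fun G : GG => rename (Sum.inr ∘ Sum.inl) G.1) ∪
    (range fun i : σ => MvPolynomial.X (Sum.inr (Sum.inr (Sum.inl i))) *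
      ∑ m, MvPolynomial.X (Sum.inl (i, m)) * rename (Sum.inr ∘ Sum.inl) (E i m)) ∪
    range fun e : Fin (X.N + 1) => ∑ G : GG, MvPolynomial.X (Sum.inr (Sum.inr (Sum.inr G))) *
        rename (Sum.inr ∘ Sum.inl) (pderiv e G.1) -
      ∑ i, MvPolynomial.X (Sum.inr (Sum.inr (Sum.inl i))) *
        ∑ m, MvPolynomial.X (Sum.inl (i, m)) * rename (Sum.inr ∘ Sum.inl) (pderiv e (E i m))

theorem cnt2p_iff (GG : Finset (Fm X.N k)) {Ω : Type} [Field Ω] [Algebra k Ω] (a : σ × μ → Ω)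
    (x : Fin (X.N + 1) → Ω) (l : σ → Ω) (c : GG → Ω) :
    (∀ P ∈ cnt2p_eqs E GG, aeval (Sum.elim a (Sum.elim x (Sum.elim l c))) P = 0) ↔
      ((∀ G ∈ (GG : Set (Fm X.N k)), aeval x G = 0) ∧ ∀ i, l i * aeval x (sys E a i) = 0) ∧
        ∑ G : GG, c G • grad x G.1 = ∑ i, l i • grad x (sys E a i) := by
  have e : (Sum.elim a (Sum.elim x (Sum.elim l c))) ∘ (Sum.inr ∘ Sum.inl) = x := rfl
  simp only [cnt2p_eqs, mem_union, or_imp, forall_and, forall_mem_range, map_sub, map_sum, map_mul,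
    aeval_X, aeval_rename, e, Sum.elim_inl, Sum.elim_inr, sub_eq_zero, Subtype.forall,
    Finset.mem_coe, funext_iff, Finset.sum_apply, Pi.smul_apply, smul_eq_mul, aeval_sys, grad_sys,
    Algebra.algebraMap_self, RingHom.id_apply]
  rfl

theorem cnt2p_span (GG : Finset (Fm X.N k)) {Ω : Type} [Field Ω] [Algebra k Ω]
    (x w : Fin (X.N + 1) → Ω) : w ∈ Submodule.span Ω (grad x '' (GG : Set (Fm X.N k))) ↔
      ∃ c : GG → Ω, ∑ G : GG, c G • grad x G.1 = w := by
  rw [image_eq_range]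
  exact Submodule.mem_span_range_iff_exists_fun Ω

/-- Bertini for all subfamilies. -/
theorem Var.Nice.gn_smAll (hX : X.Nice n) (hσ : Fintype.card σ + 1 ≤ n) (hd : (d : k) ≠ 0)
    (hE : ∀ i m, (E i m).IsHomogeneous d) (hb : ∀ i, Big (E i)) :
    Gn k fun a : σ × μ → k => X.SmAll (sys E a) := by
  obtain ⟨GG, h1, h2⟩ := X.exists_GG
  have key : ∀ p : Fin (X.N + 1) × σ, Gn k fun a : σ × μ → k => ∀ (Ω : Type) [Field Ω] [Algebra k Ω]
      (x : Fin (X.N + 1) → Ω), X.On x → ∀ l : σ → Ω, (∀ i, l i ≠ 0 → aeval x (sys E a i) = 0) →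
      ∑ i, l i • grad x (sys E a i) ∈ X.jac x → x p.1 * l p.2 = 0 := by
    rintro ⟨j, i⟩
    obtain ⟨r, h0, hr⟩ := generic (cnt2p_eqs E GG) (MvPolynomial.X (Sum.inr (Sum.inl j)) *
      MvPolynomial.X (Sum.inr (Sum.inr (Sum.inl i)))) fun Ω _ _ a z ha hz => by
        rw [← Sum.elim_comp_inl_inr z, ← Sum.elim_comp_inl_inr (z ∘ Sum.inr)] at hz
        obtain ⟨⟨h3, h4⟩, h5⟩ := (cnt2p_iff GG a _ _ _).1 hz
        rw [map_mul, aeval_X, aeval_X, Sum.elim_inr, Sum.elim_inr, mul_eq_zero, or_iff_not_imp_left]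
        intro hj
        refine congrFun (smAll_indep hX hσ hd hE hb ha (x := z ∘ Sum.inl)
          (l := (z ∘ Sum.inr) ∘ Sum.inl) ⟨fun e => hj (congrFun e j), fun G hG =>
            (grad_mem_span h3 (h2 G hG)).1⟩
          (fun i hi => (mul_eq_zero.1 (h4 i)).resolve_left hi) ?_) i
        rw [Var.jac_eq_span h1 h2 h3, cnt2p_span]
        exact ⟨_, h5⟩
    refine ⟨r, h0, fun a ha Ω _ _ x hx l hl h => ?_⟩
    have h3 : ∀ G ∈ (GG : Set (Fm X.N k)), aeval x G = 0 := fun G hG => hx.2 G (h1 hG)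
    rw [Var.jac_eq_span h1 h2 h3, cnt2p_span] at h
    obtain ⟨c, hc⟩ := h
    have h4 := hr Ω (algebraMap k Ω ∘ a) (Sum.elim x (Sum.elim l c)) ?_
      ((cnt2p_iff GG _ x l c).2 ⟨⟨h3, fun i => ?_⟩, hc.trans ?_⟩)
    · simpa using h4
    · rw [aeval_algebraMap_apply, aeval_eq_eval]
      exact (map_ne_zero _).2 ha
    · refine mul_eq_zero.2 (or_iff_not_imp_left.2 fun h => (hl i h) ▸ ?_)
      rw [aeval_sys, aeval_sys]
      rfl
    · simp only [grad_sys]
      rfl
  refine (Gn.all key).mono fun a ha Ω _ _ x hx l h3 h4 => funext fun i => ?_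
  obtain ⟨j, hj⟩ := Function.ne_iff.1 hx.1
  exact (mul_eq_zero.1 (ha (j, i) Ω x hx l h3 h4)).resolve_left hj

end Pool.Agent.ZCy
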