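import Pool.Agent.Lib.MP_751085_ag.ZC.CJet
import Pool.Agent.Lib.MP_751085_ag.ZF.C.SDefs

/-! Forms with prescribed jets in any characteristic. -/

namespace Pool.Agent.ZCy

open scoped Classical Polynomial
open MvPolynomial

variable {Ω : Type} [Field Ω] {N d : ℕ}

/-- A value and a gradient that satisfy the Euler relation. -/
theorem jet1 {x u : Fin (N + 1) → Ω} (hx : x ≠ 0) (hd : 0 < d) {c : Ω} (h : u ⬝ᵥ x = d * c) :
    ∃ f : Fm N Ω, f.IsHomogeneous d ∧ eval x f = c ∧ grad x f = u := by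
  obtain ⟨l, hl⟩ := jet_one hx
  obtain ⟨e, rfl⟩ : ∃ e, d = e + 1 := ⟨d - 1, by omega⟩
  have h1 : (u - ((e : Ω) * c) • l) ⬝ᵥ x = c := by
    rw [sub_dotProduct, smul_dotProduct, hl, h]
    push_cast
    simp only [smul_eq_mul]
    ring
  refine ⟨jet_L l ^ e * jet_L (u - ((e : Ω) * c) • l), ?_, ?_, ?_⟩
  · simpa using ((jet_L_hom l).pow e).mul (jet_L_hom _)
  · rw [map_mul, map_pow, jet_L_eval, jet_L_eval, hl, h1, one_pow, one_mul]
  · funext i
    rw [jet_grad_apply, Derivation.leibniz, Derivation.leibniz_pow]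
    simp only [jet_L_der, smul_eq_mul, nsmul_eq_mul, map_add, map_mul, map_pow, map_natCast,
      jet_L_eval, hl, h1, eval_C, one_pow, Pi.sub_apply, Pi.smul_apply]
    ring

/-- A gradient. -/
theorem jet_gradP {x : Fin (N + 1) → Ω} (hx : x ≠ 0) (hd : (d : Ω) ≠ 0) (w : Fin (N + 1) → Ω) :
    ∃ f : Fm N Ω, f.IsHomogeneous d ∧ grad x f = w := by
  obtain ⟨f, h1, -, h2⟩ := jet1 (u := w) (c := w ⬝ᵥ x / d) hx
    (Nat.pos_of_ne_zero fun h => hd (by rw [h, Nat.cast_zero])) (mul_div_cancel₀ _ hd).symm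
  exact ⟨f, h1, h2⟩

/-- A gradient at `x'` and a value at `x`. -/
theorem jet_grad_valP {x x' : Fin (N + 1) → Ω} (hx' : x' ≠ 0) (h : ∀ ζ : Ω, x ≠ ζ • x')
    (hd : 2 ≤ d) (hp : (d : Ω) ≠ 0) (w : Fin (N + 1) → Ω) (c : Ω) :
    ∃ f : Fm N Ω, f.IsHomogeneous d ∧ grad x' f = w ∧ eval x f = c := by
  obtain ⟨f, hf, hg⟩ := jet_gradP hx' hp w
  obtain ⟨m, hm, h0, h1⟩ := jet_lin h
  obtain ⟨e, rfl⟩ : ∃ e, d = e + 2 := ⟨d - 2, by omega⟩
  refine ⟨f + C (c - eval x f) * m ^ (e + 2), ?_, ?_, ?_⟩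
  · refine hf.add ?_
    simpa using (isHomogeneous_C _ (c - eval x f)).mul (hm.pow (e + 2))
  · funext i
    rw [← hg, jet_grad_apply, jet_grad_apply, map_add, map_add, pderiv_C_mul,
      Derivation.leibniz_pow]
    simp [h0]
  · rw [map_add, map_mul, map_pow, h1, eval_C]
    ring

theorem jetp_grad_mul (x : Fin (N + 1) → Ω) (f g : Fm N Ω) :
    grad x (f * g) = eval x f • grad x g + eval x g • grad x f := by
  funext i
  simp only [jet_grad_apply, Derivation.leibniz, smul_eq_mul, map_add, map_mul, Pi.add_apply,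
    Pi.smul_apply]

/-- Vanishing to second order at finitely many other points. -/
theorem jet_off {J : Type} [Fintype J] {Q : J → Fin (N + 1) → Ω} {x u : Fin (N + 1) → Ω}
    (hx : x ≠ 0) (hQ : ∀ j (ζ : Ω), x ≠ ζ • Q j) (hd : 2 * Fintype.card J < d) {c : Ω}
    (h : u ⬝ᵥ x = d * c) : ∃ f : Fm N Ω, f.IsHomogeneous d ∧ eval x f = c ∧ grad x f = u ∧
      ∀ j, eval (Q j) f = 0 ∧ grad (Q j) f = 0 := by
  choose l hl h0 h1 using fun j => jet_lin (hQ j)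
  obtain ⟨m, hm, m0, m1⟩ : ∃ m : Fm N Ω, m.IsHomogeneous (Fintype.card J) ∧
      (∀ j, eval (Q j) m = 0) ∧ eval x m = 1 :=
    ⟨∏ j, l j, by simpa using IsHomogeneous.prod Finset.univ l (fun _ => 1) fun j _ => hl j,
      fun j => by rw [map_prod]; exact Finset.prod_eq_zero (Finset.mem_univ j) (h0 j),
      by simp [h1]⟩
  obtain ⟨e, rfl⟩ : ∃ e, d = Fintype.card J + Fintype.card J + e := ⟨d - 2 * Fintype.card J, by omega⟩
  have h2 := grad_dot_self (hm.mul hm) x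
  rw [aeval_eq_eval, map_mul, m1] at h2
  obtain ⟨g, g1, g2, g3⟩ := jet1 (u := u - c • grad x (m * m)) (d := e) (c := c) hx (by omega) (by
    rw [sub_dotProduct, smul_dotProduct, h, h2]
    push_cast
    simp only [smul_eq_mul]
    ring)
  refine ⟨m * m * g, (hm.mul hm).mul g1, by simp [m1, g2], ?_, fun j => ⟨by simp [m0], ?_⟩⟩
  · rw [jetp_grad_mul, g2, g3]
    simp [m1]
  · simp [jetp_grad_mul, m0]

/-- A gradient at one of the points of a family of jets. -/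
theorem jet_at {J : Type} [Fintype J] {Q w : J → Fin (N + 1) → Ω} (hQ : ∀ j, Q j ≠ 0)
    (hc : ∀ j j' (ζ : Ω), Q j' = ζ • Q j → ∃ α β : Ω, w j' = α • w j + β • Q j)
    (hd : 2 * Fintype.card J < d) (j₀ : J) {u : Fin (N + 1) → Ω} (h1 : u ⬝ᵥ Q j₀ = 0)
    (h2 : u ⬝ᵥ w j₀ = 0) : ∃ f : Fm N Ω, f.IsHomogeneous d ∧ grad (Q j₀) f = u ∧
      ∀ j, eval (Q j) f = 0 ∧ grad (Q j) f ⬝ᵥ w j = 0 := by
  obtain ⟨f, f1, f2, f3, f4⟩ := jet_off (J := {j // ∀ ζ : Ω, Q j₀ ≠ ζ • Q j})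
    (Q := fun j => Q j.1) (u := u) (c := 0) (d := d) (hQ j₀) (fun j => j.2)
    (lt_of_le_of_lt (Nat.mul_le_mul_left 2 (Fintype.card_subtype_le _)) hd) (by rw [h1, mul_zero])
  refine ⟨f, f1, f3, fun j => ?_⟩
  by_cases hj : ∀ ζ : Ω, Q j₀ ≠ ζ • Q j
  · exact ⟨(f4 ⟨j, hj⟩).1, by rw [(f4 ⟨j, hj⟩).2, zero_dotProduct]⟩
  · obtain ⟨ζ, hζ⟩ := not_forall.1 hj
    rw [not_not] at hζ
    have hz : ζ ≠ 0 := fun h => hQ j₀ (by rw [hζ, h, zero_smul])
    have e : Q j = ζ⁻¹ • Q j₀ := by rw [hζ, inv_smul_smul₀ hz]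
    obtain ⟨α, β, e'⟩ := hc j₀ j _ e
    have a1 := aeval_smul_hom f1 ζ⁻¹ (Q j₀)
    rw [aeval_eq_eval, aeval_eq_eval, f2, mul_zero] at a1
    refine ⟨e ▸ a1, ?_⟩
    rw [e, grad_smul_hom f1, f3, e', smul_dotProduct, dotProduct_add, dotProduct_smul,
      dotProduct_smul, h1, h2]
    simp

/-- The complete linear system has all gradients. -/
theorem ful_mons {k : Type} [Field k] (N : ℕ) (hd : (d : k) ≠ 0) : Ful (mons k N d) := by
  intro Ω _ _ x hx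
  refine eq_top_iff.2 fun w _ => mem_gsp.2 ?_
  obtain ⟨f, h1, h2⟩ := jet_gradP (d := d) hx
    (by rw [← map_natCast (algebraMap k Ω)]; exact (map_ne_zero _).2 hd) w
  have h3 := grad_sys (T := Ω) (fun _ : Unit => mons k N d) (fun p => coeff p.2.1 f) () x
  rw [sys_mons, forms, form_coeff h1, h2] at h3
  exact ⟨_, h3.symm⟩

end Pool.Agent.ZCy
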