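import Pool.Agent.Lib.MP_751085_ag.ZC.CEth
import Pool.Agent.Lib.MP_751085_ag.ZF.C.Jet

/-! Generic projections are unramified along the fibre through a given point. -/

namespace Pool.Agent.ZCy

open scoped Classical Polynomial
open MvPolynomial Set

variable {k : Type} [Field k] {X : Var k} {n d : ℕ} {ι : Type} [Fintype ι]
  {Λ : Type} [Field Λ] [Algebra k Λ]

theorem eth_indepP (hX : X.Nice n) (hι : Fintype.card ι = n + 1) (hd : 2 ≤ d) (hp : (d : k) ≠ 0) {Ω : Type} [Field Ω]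
    [Algebra Λ Ω] [Algebra k Ω] [IsScalarTower k Λ Ω] {x₀ x' v : Fin (X.N + 1) → Ω}
    (hx : X.On x₀) (hx₀ : ∀ s i, x₀ i ∈ acl Λ s) (hx' : X.On x') {a : ι × Mon X.N d → Ω}
    (ha : AlgebraicIndependent Λ a) (h1 : ∀ G ∈ X.I, grad x' G ⬝ᵥ v = 0)
    (h2 : ∀ i, eval x' (forms a i) - eval x₀ (forms a i) = 0)
    (h3 : ∀ i, grad x' (forms a i) ⬝ᵥ v = 0) {j : Fin (X.N + 1)} (hj : v j = 1) : False := by
  have h6 : (d : Ω) ≠ 0 := by
    rw [← map_natCast (algebraMap k Ω)]
    exact (map_ne_zero _).2 hp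
  by_cases h : ∃ ζ : Ω, x₀ = ζ • x'
  · obtain ⟨ζ, rfl⟩ := h
    have hr := hX.rk_tan (K := Λ) (s := ∅) (r := 0) hx (hx₀ _) (fun G hG => by
      obtain ⟨m, hm⟩ := hG.1
      rw [grad_smul_hom hm, smul_dotProduct, h1 G hG, smul_zero]) hj (by simp [rk_empty])
    have h4 := eth_count (fun (_ : Unit) f => grad (ζ • x') f ⬝ᵥ v) _ (fun _ => eth_der _ _)
      (fun _ m => eth_der_mem (hx₀ _) (fun i => mem_acl_of_mem (Or.inr ⟨i, rfl⟩)) _) ha
      (fun _ i => by rw [grad_smul_hom (forms_hom a i), smul_dotProduct, h3, smul_zero])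
      (fun w => by
        obtain ⟨f, hf, hf'⟩ := jet_gradP hx.1 h6 (Pi.single j (w ()))
        exact ⟨f, hf, fun _ => by rw [hf', single_dotProduct, hj, mul_one]⟩) hr
    rw [hι, Fintype.card_unit] at h4
    omega
  · push Not at h
    have hr := hX.rk_tan (K := Λ) (s := range x') (r := n + 1) hx'
      (fun i => mem_acl_of_mem ⟨i, rfl⟩) h1 hj
      ((rk_le_of_tower _).trans (by exact_mod_cast hx'.rk_le' hX.dim))
    have m1 : ∀ i, x' i ∈ acl Λ (range x' ∪ range v) := fun i => mem_acl_of_mem (Or.inl ⟨i, rfl⟩)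
    have m2 : ∀ i, v i ∈ acl Λ (range x' ∪ range v) := fun i => mem_acl_of_mem (Or.inr ⟨i, rfl⟩)
    have h4 := eth_count (d := d) (fun (t : Bool) f =>
      bif t then grad x' f ⬝ᵥ v else eval x' f - eval x₀ f) _
      (fun t c => by
        cases t
        · simp only [cond_false, eth_val, mul_sub, Finset.sum_sub_distrib]
        · exact eth_der _ _ _)
      (fun t m => by
        cases t
        · exact sub_mem (eth_mon_mem m1 _) (eth_mon_mem (hx₀ _) _)
        · exact eth_der_mem m1 m2 _) ha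
      (fun t i => by
        cases t
        · exact h2 i
        · exact h3 i)
      (fun w => by
        obtain ⟨f, hf, hf', hf''⟩ := jet_grad_valP hx'.1 h hd h6 (Pi.single j (w true))
          (w true * x' j / d - w false)
        refine ⟨f, hf, fun t => ?_⟩
        cases t
        · have h5 := grad_dot_self hf x'
          rw [hf', single_dotProduct, aeval_eq_eval] at h5
          rw [cond_false, hf'', h5, mul_div_cancel_left₀ _ h6, sub_sub_cancel]
        · rw [cond_true, hf', single_dotProduct, hj, mul_one]) hr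
    rw [hι, Fintype.card_bool] at h4
    omega

omit [Fintype ι] in
theorem ethEq_mapP {S T : Type} [CommRing S] [Algebra k S] [CommRing T] [Algebra k T]
    (ψ : S →ₐ[k] T) (x₀ : Fin (X.N + 1) → S) (a : ι × Mon X.N d → S) (x' v : Fin (X.N + 1) → S)
    (t : (X.I ⊕ X.I) ⊕ ι ⊕ ι) : ψ (ethEq X x₀ a x' v t) =
      ethEq X (fun i => ψ (x₀ i)) (fun i => ψ (a i)) (fun i => ψ (x' i)) (fun i => ψ (v i)) t := by
  have h1 : ∀ (y : Fin (X.N + 1) → S) (P : Fm X.N S), ψ (eval y P) =
      eval (fun i => ψ (y i)) (map (ψ : S →+* T) P) := fun y P => map_eval (ψ : S →+* T) y P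
  rcases t with (G | G) | (i | i)
  · exact comp_aeval_apply x' ψ G.1
  · simp only [ethEq, dotProduct, grad, map_sum, map_mul, comp_aeval_apply]
  · simp only [ethEq, map_sub, h1, map_forms, RingHom.coe_coe]
  · simp only [ethEq, dotProduct, grad, map_sum, map_mul, aeval_eq_eval, h1, ← pderiv_map,
      map_forms, RingHom.coe_coe]

omit [Fintype ι] in
theorem ethSet_iffP (x : Fin (X.N + 1) → Λ) {Ω : Type} [Field Ω] [Algebra Λ Ω] [Algebra k Ω]
    [IsScalarTower k Λ Ω] (a : ι × Mon X.N d → Ω) (z : Fin (X.N + 1) ⊕ Fin (X.N + 1) → Ω) :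
    (∀ P ∈ ethSet X d ι x, aeval (Sum.elim a z) P = 0) ↔ ∀ t, ethEq X
      (fun i => algebraMap Λ Ω (x i)) a (fun i => z (.inl i)) (fun i => z (.inr i)) t = 0 := by
  refine forall_mem_range.trans (forall_congr' fun t => Eq.congr_left ?_)
  refine (ethEq_mapP ((aeval (R := Λ) (Sum.elim a z)).restrictScalars k) _ _ _ _ t).trans ?_
  simp only [AlgHom.coe_restrictScalars', aeval_C, aeval_X, Sum.elim_inl, Sum.elim_inr]

theorem eth_genP (hX : X.Nice n) (hι : Fintype.card ι = n + 1) (hd : 2 ≤ d) (hp : (d : k) ≠ 0)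
    {x : Fin (X.N + 1) → Λ} (hx : X.On x) (j j' : Fin (X.N + 1)) :
    ∃ r : MP (ι × Mon X.N d) Λ, r ≠ 0 ∧ ∀ (a : ι × Mon X.N d → Λ) (x' v : Fin (X.N + 1) → Λ),
      eval a r ≠ 0 → (∀ t, ethEq X x a x' v t = 0) → x' j * v j' = 0 := by
  obtain ⟨r, hr, hr'⟩ := generic (ethSet X d ι x)
    (MvPolynomial.X (.inr (.inl j)) * MvPolynomial.X (.inr (.inr j'))) (by
      intro Ω _ _ a z ha h
      let : Algebra k Ω := ((algebraMap Λ Ω).comp (algebraMap k Λ)).toAlgebra
      have : IsScalarTower k Λ Ω := .of_algebraMap_eq fun _ => rfl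
      rw [ethSet_iffP] at h
      by_contra hne
      rw [map_mul, aeval_X, aeval_X] at hne
      have h2 : z (.inr j') ≠ 0 := right_ne_zero_of_mul hne
      refine eth_indepP hX hι hd hp (x' := fun i => z (.inl i))
        (v := (z (.inr j'))⁻¹ • fun i => z (.inr i)) (hx.map (IsScalarTower.toAlgHom k Λ Ω))
        (fun s i => (acl Λ s).algebraMap_mem _)
        ⟨fun e => left_ne_zero_of_mul hne (congrFun e j), fun G hG => h (.inl (.inl ⟨G, hG⟩))⟩
        ha (fun G hG => ?_) (fun i => h (.inr (.inl i))) (fun i => ?_) (inv_mul_cancel₀ h2)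
      · rw [dotProduct_smul]
        exact smul_eq_zero_of_right _ (h (.inl (.inr ⟨G, hG⟩)))
      · rw [dotProduct_smul]
        exact smul_eq_zero_of_right _ (h (.inr (.inr i))))
  refine ⟨r, hr, fun a x' v ha h => ?_⟩
  have h4 := hr' Λ a (Sum.elim x' v) (by rwa [aeval_eq_eval]) ((ethSet_iffP x _ _).2 h)
  rwa [map_mul, aeval_X, aeval_X] at h4

theorem Var.Nice.gn_etP (hX : X.Nice n) (hι : Fintype.card ι = n + 1) (hd : 2 ≤ d) (hp : (d : k) ≠ 0)
    {x : Fin (X.N + 1) → Λ} (hx : X.On x) :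
    Gn k fun a : ι × Mon X.N d → k => X.Et (forms a) fun i => aeval x (forms a i) := by
  choose r hr hr' using fun p : Fin (X.N + 1) × Fin (X.N + 1) => eth_genP hX hι hd hp hx p.1 p.2
  refine (Gn.all fun p => Gn.of_ext (k := k) (hr p)).mono fun a ha x' hx' v h2 h3 => ?_
  by_contra hv
  obtain ⟨j', hj'⟩ := Function.ne_iff.1 hv
  obtain ⟨j, hj⟩ := Function.ne_iff.1 hx'.1.1
  refine mul_ne_zero hj hj' (hr' (j, j') (fun i => algebraMap k Λ (a i)) x' v (ha _) ?_)
  rintro ((G | G) | (i | i))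
  · exact hx'.1.2 G.1 G.2
  · exact h2 G.1 G.2
  · simp only [ethEq, ← map_forms, eval_map, ← aeval_def]
    exact sub_eq_zero.2 (hx'.2 i)
  · simp only [ethEq, ← map_forms]
    refine Eq.trans (congrArg (· ⬝ᵥ v) (funext fun l => ?_)) (h3 i)
    rw [grad, grad, pderiv_map, aeval_map_algebraMap]

end Pool.Agent.ZCy
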