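import Pool.Agent.Lib.MP_751085_ag.ZF.C.Defs
import Pool.Agent.Lib.MP_751085_ag.ZC.CJac
import Pool.Agent.Lib.MP_751085_ag.ZC.CJet

/-! Linear algebra for smooth sections. -/

namespace Pool.Agent.ZCy

open scoped Classical Polynomial
open MvPolynomial Module

section

variable {Ω : Type} [Field Ω] {N : ℕ}

/-- the orthogonal complement for the dot product -/
def orth {τ : Type} [Fintype τ] (W : Submodule Ω (τ → Ω)) : Submodule Ω (τ → Ω) where
  carrier := {v | ∀ u ∈ W, u ⬝ᵥ v = 0}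
  add_mem' := fun ha hb u hu => by rw [dotProduct_add, ha u hu, hb u hu, add_zero]
  zero_mem' := fun u _ => dotProduct_zero u
  smul_mem' := fun c _ ha u hu => by rw [dotProduct_smul, ha u hu, smul_zero]

theorem finrank_orth {τ : Type} [Fintype τ] (W : Submodule Ω (τ → Ω)) :
    finrank Ω W + finrank Ω (orth W) = Fintype.card τ := by
  have e : orth W = (W.map (dotProductEquiv Ω τ).toLinearMap).dualCoannihilator := by
    ext v
    rw [Submodule.mem_dualCoannihilator]
    exact ⟨fun h _ ⟨u, hu, e⟩ => e ▸ h u hu, fun h u hu => h _ ⟨u, hu, rfl⟩⟩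
  rw [e, ← (dotProductEquiv Ω τ).finrank_map_eq W,
    Subspace.finrank_add_finrank_dualCoannihilator_eq, finrank_fintype_fun_eq_card]

theorem orth_orth {τ : Type} [Fintype τ] (W : Submodule Ω (τ → Ω)) : orth (orth W) = W := by
  refine (Submodule.eq_of_le_of_finrank_eq (fun u hu v hv => ?_) ?_).symm
  · rw [dotProduct_comm]
    exact hv u hu
  · have h1 := finrank_orth W
    have h2 := finrank_orth (orth W)
    omega

theorem linp_two {V : Type} [AddCommGroup V] [Module Ω V] (x w : V) :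
    finrank Ω (Submodule.span Ω (Set.range ![x, w])) ≤ 2 := by
  exact (finrank_range_le_card (R := Ω) ![x, w]).trans (Fintype.card_fin 2).le

/-- a space that contains everything orthogonal to two vectors has codimension at most two -/
theorem rank_of_orth {W : Submodule Ω (Fin (N + 1) → Ω)} {x w : Fin (N + 1) → Ω}
    (h : ∀ u, u ⬝ᵥ x = 0 → u ⬝ᵥ w = 0 → u ∈ W) : N ≤ finrank Ω W + 1 := by
  have h1 := finrank_orth (Submodule.span Ω (Set.range ![x, w]))
  have h2 := linp_two (Ω := Ω) x w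
  have h3 : finrank Ω (orth (Submodule.span Ω (Set.range ![x, w]))) ≤ finrank Ω W :=
    Submodule.finrank_mono fun u hu => h u
      ((dotProduct_comm _ _).trans (hu x (Submodule.subset_span ⟨0, rfl⟩)))
      ((dotProduct_comm _ _).trans (hu w (Submodule.subset_span ⟨1, rfl⟩)))
  rw [Fintype.card_fin] at h1
  omega

/-- the same if the orthogonal complement lies in a plane -/
theorem rank_of_smf {W : Submodule Ω (Fin (N + 1) → Ω)} {x w : Fin (N + 1) → Ω}
    (h : ∀ v, (∀ u ∈ W, u ⬝ᵥ v = 0) → ∃ α β : Ω, v = α • x + β • w) : N ≤ finrank Ω W + 1 := by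
  have h1 := finrank_orth W
  have h2 := linp_two (Ω := Ω) x w
  have h3 : finrank Ω (orth W) ≤ finrank Ω (Submodule.span Ω (Set.range ![x, w])) :=
    Submodule.finrank_mono fun v hv => by
      obtain ⟨α, β, rfl⟩ := h v hv
      exact add_mem (Submodule.smul_mem _ _ (Submodule.subset_span ⟨0, rfl⟩))
        (Submodule.smul_mem _ _ (Submodule.subset_span ⟨1, rfl⟩))
  rw [Fintype.card_fin] at h1
  omega

/-- the converse -/
theorem smf_of_rank {W : Submodule Ω (Fin (N + 1) → Ω)} {x : Fin (N + 1) → Ω} (hx : x ≠ 0)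
    (h0 : ∀ u ∈ W, u ⬝ᵥ x = 0) (h : N ≤ finrank Ω W + 1) :
    ∃ w, ∀ v, (∀ u ∈ W, u ⬝ᵥ v = 0) → ∃ α β : Ω, v = α • x + β • w := by
  by_cases h1 : ∀ w ∈ orth W, ∃ a : Ω, a • x = w
  · refine ⟨0, fun v hv => ?_⟩
    obtain ⟨a, ha⟩ := h1 v hv
    exact ⟨a, 0, by rw [ha, zero_smul, add_zero]⟩
  push Not at h1
  obtain ⟨w, hw, h2⟩ := h1
  have h3 := finrank_span_eq_card ((LinearIndependent.pair_iff' hx).2 h2)
  have h4 := finrank_orth W
  rw [Fintype.card_fin] at h3 h4
  have h5 : Submodule.span Ω (Set.range ![x, w]) = orth W := by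
    refine Submodule.eq_of_le_of_finrank_le (Submodule.span_le.2 ?_) (by omega)
    rintro _ ⟨i, rfl⟩
    fin_cases i
    · exact h0
    · exact hw
  refine ⟨w, fun v hv => ?_⟩
  obtain ⟨c, hc⟩ := (Submodule.mem_span_range_iff_exists_fun Ω).1 (h5.ge hv)
  exact ⟨c 0, c 1, by simpa using hc.symm⟩

/-- the rank does not grow in an extension: map a basis of the span -/
theorem finrank_span_map_le {Ω' μ τ : Type} [Field Ω'] [Fintype τ] (φ : Ω →+* Ω')
    (v : μ → τ → Ω) : finrank Ω' (Submodule.span Ω' (Set.range fun m j => φ (v m j))) ≤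
      finrank Ω (Submodule.span Ω (Set.range v)) := by
  let b := finBasis Ω (Submodule.span Ω (Set.range v))
  have h1 := finrank_range_le_card (R := Ω') fun i j => φ ((b i : τ → Ω) j)
  rw [Fintype.card_fin] at h1
  refine le_trans (Submodule.finrank_mono (Submodule.span_le.2 ?_)) h1
  rintro _ ⟨m, rfl⟩
  refine (Submodule.mem_span_range_iff_exists_fun Ω').2
    ⟨fun i => φ (b.repr ⟨v m, Submodule.subset_span ⟨m, rfl⟩⟩ i), funext fun j => ?_⟩
  have h2 := congrArg (fun u : Submodule.span Ω (Set.range v) => φ ((u : τ → Ω) j))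
    (b.sum_repr ⟨v m, Submodule.subset_span ⟨m, rfl⟩⟩)
  simpa only [Submodule.coe_sum, Submodule.coe_smul, Finset.sum_apply, Pi.smul_apply, smul_eq_mul,
    map_sum, map_mul] using h2

/-- a subspace of dimension at least `r` projects onto `r` of the coordinates -/
theorem exists_coords {τ : Type} [Fintype τ] {W : Submodule Ω (τ → Ω)} {r : ℕ}
    (h : r ≤ finrank Ω W) : ∃ s : Fin r → τ, ∀ β : Fin r → Ω, ∃ u ∈ W, ∀ t, u (s t) = β t := by
  obtain ⟨f, hf⟩ := exists_linearIndependent_of_le_finrank h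
  let A : Matrix (Fin r) τ Ω := Matrix.of fun i => (f i : τ → Ω)
  have h0 : LinearIndependent Ω A.row := hf.map' W.subtype W.ker_subtype
  obtain ⟨κ, a, ha, h1, h2⟩ := exists_linearIndependent' Ω A.col
  have := Fintype.ofInjective a ha
  have h3 := h0.rank_matrix
  rw [Matrix.rank_eq_finrank_span_cols, ← h1, finrank_span_eq_card h2] at h3
  let e := Fintype.equivOfCardEq h3
  have h4 : IsUnit (A.submatrix id (a ∘ e.symm)) :=
    Matrix.linearIndependent_cols_iff_isUnit.1 (h2.comp e.symm e.symm.injective)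
  refine ⟨a ∘ e.symm, fun β => ?_⟩
  obtain ⟨c, hc⟩ := Matrix.vecMul_surjective_iff_isUnit.2 h4 β
  refine ⟨∑ i, c i • (f i : τ → Ω), W.sum_mem fun i _ => W.smul_mem _ (f i).2, fun t => ?_⟩
  rw [← hc]
  simp [Matrix.vecMul, dotProduct, A]

/-- prescribed products with two independent vectors -/
theorem exists_dot₂ {x v : Fin (N + 1) → Ω} (hx : x ≠ 0) (hv : ∀ ζ : Ω, v ≠ ζ • x) (α β : Ω) :
    ∃ u : Fin (N + 1) → Ω, u ⬝ᵥ x = α ∧ u ⬝ᵥ v = β := by
  obtain ⟨u, h1, h2⟩ := jet_vec hv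
  obtain ⟨i, hi⟩ := Function.ne_iff.1 hx
  have hi' : x i ≠ 0 := hi
  refine ⟨Pi.single i (α / x i) + (β - α / x i * v i) • u, ?_, ?_⟩
  · simp [add_dotProduct, h1, hi']
  · simp [add_dotProduct, h2]

end

variable {k : Type} [Field k] {X : Var k} {n d : ℕ} {σ Ω : Type} [Fintype σ] [Field Ω]
  [Algebra k Ω]

theorem dr_eq {N : ℕ} (x v : Fin (N + 1) → Ω) (G : Fm N k) :
    dr (algebraMap k Ω) x v G = grad x G ⬝ᵥ v := rfl

/-- Euler -/
theorem Var.Zr.jac_dot {x u : Fin (X.N + 1) → Ω} (hx : X.Zr x) (hu : u ∈ X.jac x) :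
    u ⬝ᵥ x = 0 := by
  have h : X.jac x ≤ orth (Submodule.span Ω {x}) := by
    refine Submodule.span_le.2 ?_
    rintro _ ⟨G, hG, rfl⟩ w hw
    obtain ⟨c, rfl⟩ := Submodule.mem_span_singleton.1 hw
    obtain ⟨m, hm⟩ := hG.1
    rw [smul_dotProduct, dotProduct_comm, grad_dot_self hm, hx G hG, mul_zero, smul_zero]
  rw [dotProduct_comm]
  exact h hu x (Submodule.mem_span_singleton_self x)

/-- `W = X.jac x ⊔ span (range u)` has dimension `(N - n) + (n - 1)`; `smf_of_rank` -/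
theorem Var.Nice.smf_of_indep (hX : X.Nice n) (hσ : Fintype.card σ + 1 = n)
    {x : Fin (X.N + 1) → Ω} (hx : X.On x) {u : σ → Fin (X.N + 1) → Ω} (h0 : ∀ i, u i ⬝ᵥ x = 0)
    (hi : ∀ a : σ → Ω, ∑ i, a i • u i ∈ X.jac x → a = 0) :
    ∃ w, ∀ v, (∀ G ∈ X.I, grad x G ⬝ᵥ v = 0) → (∀ i, u i ⬝ᵥ v = 0) →
      ∃ α β : Ω, v = α • x + β • w := by
  have h1 : LinearIndependent Ω u := Fintype.linearIndependent_iff.2 fun a ha =>
    congrFun (hi a (ha ▸ zero_mem _))
  have h2 : X.jac x ⊓ Submodule.span Ω (Set.range u) = ⊥ := by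
    refine eq_bot_iff.2 fun y hy => ?_
    obtain ⟨a, rfl⟩ := (Submodule.mem_span_range_iff_exists_fun Ω).1 hy.2
    simp [hi a hy.1]
  have h3 := Submodule.finrank_sup_add_finrank_inf_eq (X.jac x) (Submodule.span Ω (Set.range u))
  rw [h2, finrank_bot, finrank_span_eq_card h1] at h3
  have h4 := hX.finrank_jac hx
  have key : ∀ v, (∀ G ∈ X.I, grad x G ⬝ᵥ v = 0) → (∀ i, u i ⬝ᵥ v = 0) →
      ∀ y ∈ X.jac x ⊔ Submodule.span Ω (Set.range u), y ⬝ᵥ v = 0 := by
    intro v h5 h6 y hy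
    have h7 : X.jac x ⊔ Submodule.span Ω (Set.range u) ≤ orth (Submodule.span Ω {v}) := by
      refine sup_le (Submodule.span_le.2 ?_) (Submodule.span_le.2 ?_)
      · rintro _ ⟨G, hG, rfl⟩ w hw
        obtain ⟨c, rfl⟩ := Submodule.mem_span_singleton.1 hw
        rw [smul_dotProduct, dotProduct_comm, h5 G hG, smul_zero]
      · rintro _ ⟨i, rfl⟩ w hw
        obtain ⟨c, rfl⟩ := Submodule.mem_span_singleton.1 hw
        rw [smul_dotProduct, dotProduct_comm, h6 i, smul_zero]
    rw [dotProduct_comm]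
    exact h7 hy v (Submodule.mem_span_singleton_self v)
  obtain ⟨w, hw⟩ := smf_of_rank hx.1
    (key x (fun G hG => Var.Zr.jac_dot hx.2 (Submodule.subset_span ⟨G, hG, rfl⟩)) h0) (by omega)
  exact ⟨w, fun v h5 h6 => hw v (key v h5 h6)⟩

theorem Var.SmAll.smF (hX : X.Nice n) (hσ : Fintype.card σ + 1 = n)
    {f : Option (Option σ) → Fm X.N k} (hf : ∀ i, (f i).IsHomogeneous d)
    (h : X.SmAll fun i => f (some (some i))) : SmF (X.IK k) f (algebraMap k Ω) 0 := by
  intro x hx hz hv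
  have hI : ∀ G ∈ X.I, G ∈ X.IK k := fun G hG => ⟨G, hG, by simp [map_id]⟩
  have hon : X.On x := ⟨hx, fun G hG => hz G (hI G hG)⟩
  have hv' : ∀ i, aeval x (f (some (some i))) = 0 := fun i => by simpa [aeval_def] using hv i
  obtain ⟨w, hw⟩ := hX.smf_of_indep hσ hon (u := fun i => grad x (f (some (some i))))
    (fun i => by rw [grad_dot_self (hf _), hv', mul_zero])
    fun a ha => h Ω x hon a (fun i _ => hv' i) ha
  exact ⟨w, fun v h1 h2 => hw v (fun G hG => h1 G (hI G hG)) fun i => by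
    simpa [dr_eq] using h2 i⟩

/-- if `f i` does not vanish at `x` use Euler, else `h` with `a = Pi.single i 1` -/
theorem Var.SmAll.sm {f : σ → Fm X.N k} (h : X.SmAll f) {i : σ} (hf : (f i).IsHomogeneous d)
    (hd : (d : k) ≠ 0) : X.Sm (f i) := by
  intro Ω _ _ x hx hm
  have h1 := Var.Zr.jac_dot hx.2 hm
  rw [grad_dot_self hf] at h1
  have h2 : (d : Ω) ≠ 0 := by
    rw [← map_natCast (algebraMap k Ω)]
    exact (map_ne_zero _).2 hd
  have h3 := h Ω x hx (Pi.single i 1) (fun j hj => by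
    have : j = i := by
      by_contra h4
      exact hj (Pi.single_eq_of_ne h4 _)
    rw [this]
    exact (mul_eq_zero.1 h1).resolve_left h2) (by simpa [Pi.single_apply, ite_smul] using hm)
  simpa using congrFun h3 i

end Pool.Agent.ZCy
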