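import Pool.Agent.Lib.MP_751085_ag.ZC.CEth
import Pool.Agent.Lib.MP_751085_ag.ZF.C.Jet
import Pool.Agent.Lib.MP_751085_ag.ZF.C.Lin

/-! The fibre curve through a given point is smooth. -/

namespace Pool.Agent.ZCy

open scoped Classical Polynomial
open MvPolynomial Set

variable {k : Type} [Field k] {n d : ℕ} {σ : Type} [Fintype σ] {X : Var k} {Λ : Type} [Field Λ]
  [Algebra k Λ]

/-- the gradient at `x'` of `f₀(x₀) f - f(x₀) f₀` -/
noncomputable def cnt4pW {S : Type} [CommRing S] {N : ℕ} (x₀ x' : Fin (N + 1) → S) (f₀ f : Fm N S) :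
    Fin (N + 1) → S := eval x₀ f₀ • grad x' f - eval x₀ f • grad x' f₀

theorem cnt4p_euler {S : Type} [CommRing S] {N : ℕ} {x₀ x' : Fin (N + 1) → S} {f₀ f : Fm N S}
    (h₀ : f₀.IsHomogeneous d) (h : f.IsHomogeneous d)
    (e : eval x₀ f₀ * eval x' f = eval x₀ f * eval x' f₀) : cnt4pW x₀ x' f₀ f ⬝ᵥ x' = 0 := by
  rw [cnt4pW, sub_dotProduct, smul_dotProduct, smul_dotProduct, grad_dot_self h, grad_dot_self h₀,
    aeval_eq_eval, smul_eq_mul, smul_eq_mul]
  linear_combination (d : S) * e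

theorem cnt4p_count {Ω ε : Type} [Field Ω] [Algebra Λ Ω] [Fintype ε] {N : ℕ} {s : Set Ω}
    {x₀ x' : Fin (N + 1) → Ω} (hx₀ : ∀ s i, x₀ i ∈ acl Λ s) (hx' : ∀ i, x' i ∈ acl Λ s)
    {a : Option σ × Mon N d → Ω} (ha : AlgebraicIndependent Λ a)
    (h0 : eval x₀ (forms a none) ≠ 0) (u : ε → σ → Fin (N + 1) → Ω)
    (hu : ∀ e i j, u e i j ∈ acl Λ s)
    (hb : ∀ e, ∑ i, cnt4pW x₀ x' (forms a none) (forms a (some i)) ⬝ᵥ u e i ∈ acl Λ s)
    (hs : ∀ w : ε → Ω, ∃ g : σ → Fin (N + 1) → Ω, (∀ i, ∃ f : Fm N Ω, f.IsHomogeneous d ∧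
      grad x' f = g i ∧ eval x₀ f = 0) ∧ ∀ e, ∑ i, g i ⬝ᵥ u e i = w e) {r : ℕ}
    (hr : rk Λ s ≤ r) : Fintype.card ε ≤ r := by
  let s' := s ∪ range fun m => a (none, m)
  have hle : acl Λ s ≤ acl Λ s' := acl_mono subset_union_left
  have ma : ∀ m, a (none, m) ∈ acl Λ s' := fun m => mem_acl_of_mem (Or.inr ⟨m, rfl⟩)
  let L : ε → σ → Fm N Ω → Ω := fun e i f => cnt4pW x₀ x' (forms a none) f ⬝ᵥ u e i
  have hL : ∀ e i f, L e i f = eval x₀ (forms a none) * (grad x' f ⬝ᵥ u e i) -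
      eval x₀ f * (grad x' (forms a none) ⬝ᵥ u e i) := fun e i f => by
    simp only [L, cnt4pW, sub_dotProduct, smul_dotProduct, smul_eq_mul]
  have hl : ∀ e i (c : Mon N d → Ω), L e i (form c) = ∑ m, c m * L e i (monomial m.1 1) := by
    intro e i c
    rw [hL, eth_der x' (u e i) c, eth_val x₀ c, Finset.mul_sum, Finset.sum_mul,
      ← Finset.sum_sub_distrib]
    exact Finset.sum_congr rfl fun m _ => by rw [hL]; ring
  let M : ε ⊕ Mon N d → Option σ × Mon N d → Ω := Sum.elim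
    (fun e p => p.1.elim 0 fun i => L e i (monomial p.2.1 1)) fun m p => if p = (none, m) then 1 else 0
  have e1 : ∀ (c : Option σ × Mon N d → Ω) e, ∑ p, c p * M (.inl e) p =
      ∑ i, L e i (forms c (some i)) := fun c e => by
    rw [Fintype.sum_prod_type, Fintype.sum_option]
    simp only [M, Sum.elim_inl, Option.elim_none, Option.elim_some, mul_zero, Finset.sum_const_zero,
      zero_add]
    exact Finset.sum_congr rfl fun i _ => (hl e i _).symm
  have e2 : ∀ (c : Option σ × Mon N d → Ω) m, ∑ p, c p * M (.inr m) p = c (none, m) := fun c m => by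
    simp [M]
  have h := count_indep (K := Λ) s' M a ?_ ?_ ?_ ha (r := r + Fintype.card (Mon N d)) ?_
  · rw [Fintype.card_sum] at h
    omega
  · rintro (e | m) ⟨_ | i, m'⟩
    · exact zero_mem _
    · have hx : ∀ i, x' i ∈ acl Λ s' := fun i => hle (hx' i)
      have hv : ∀ j, u e i j ∈ acl Λ s' := fun j => hle (hu e i j)
      show L e i _ ∈ _
      rw [hL, forms, eth_val, eth_der]
      exact sub_mem (mul_mem (sum_mem fun m _ => mul_mem (ma m) (eth_mon_mem (hx₀ _) _))
        (eth_der_mem hx hv _)) (mul_mem (eth_mon_mem (hx₀ _) _)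
          (sum_mem fun m _ => mul_mem (ma m) (eth_der_mem hx hv _)))
    all_goals
      simp only [M, Sum.elim_inr]
      split_ifs
      exacts [one_mem _, zero_mem _]
  · rintro (e | m)
    · rw [e1]
      exact hle (hb e)
    · rw [e2]
      exact ma m
  · intro w
    obtain ⟨g, h1, h2⟩ := hs fun e => w (.inl e) / eval x₀ (forms a none)
    choose f hf h3 h4 using h1
    refine ⟨fun p => p.1.elim (w (.inr p.2)) fun i => coeff p.2.1 (f i), ?_⟩
    rintro (e | m)
    · rw [e1, ← mul_div_cancel₀ (w (.inl e)) h0, ← h2, Finset.mul_sum]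
      refine Finset.sum_congr rfl fun i _ => ?_
      rw [forms]
      simp only [Option.elim_some]
      rw [form_coeff (hf i), hL, h3, h4, zero_mul, sub_zero]
    · exact e2 _ m
  · refine (rk_union_le _ _).trans ?_
    rw [Nat.cast_add]
    exact add_le_add hr (rk_range_le _)

theorem cnt4p_norm (hX : X.Nice n) (hσ : Fintype.card σ + 1 = n) (hd : 2 ≤ d) (hp : (d : k) ≠ 0)
    {Ω : Type} [Field Ω] [Algebra Λ Ω] [Algebra k Ω] [IsScalarTower k Λ Ω]
    {x₀ x' : Fin (X.N + 1) → Ω} (hx₀ : ∀ s i, x₀ i ∈ acl Λ s) (hx' : X.On x')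
    {a : Option σ × Mon X.N d → Ω} (ha : AlgebraicIndependent Λ a)
    (h0 : eval x₀ (forms a none) ≠ 0)
    (h1 : ∀ i, cnt4pW x₀ x' (forms a none) (forms a (some i)) ⬝ᵥ x' = 0) {l : σ → Ω}
    (h2 : ∑ i, l i • cnt4pW x₀ x' (forms a none) (forms a (some i)) ∈ X.jac x')
    {j : Fin (X.N + 1)} (hj : x' j = 1) {i₀ : σ} (hi : l i₀ = 1) : False := by
  obtain ⟨r, G, hr, -, -, hsp⟩ := hX.exists_basis_jac hx'
  rw [← hsp, Submodule.mem_span_range_iff_exists_fun] at h2
  obtain ⟨c, hc⟩ := h2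
  let s := range x' ∪ (range c ∪ l '' (Finset.univ.erase i₀ : Finset σ))
  have mx : ∀ i, x' i ∈ acl Λ s := fun i => mem_acl_of_mem (Or.inl ⟨i, rfl⟩)
  have ml : ∀ i, l i ∈ acl Λ s := fun i => by
    by_cases h : i = i₀
    · rw [h, hi]
      exact one_mem _
    · exact mem_acl_of_mem (Or.inr (Or.inr ⟨i, by simpa using h, rfl⟩))
  have mu : ∀ (e : Fin (X.N + 1)) i j, (Pi.single e (l i) : Fin (X.N + 1) → Ω) j ∈ acl Λ s := by
    intro e i j
    rw [Pi.single_apply]
    split_ifs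
    exacts [ml i, zero_mem _]
  have eu : ∀ (g : σ → Fin (X.N + 1) → Ω) e, ∑ i, g i ⬝ᵥ Pi.single e (l i) = (∑ i, l i • g i) e :=
    fun g e => by simp [mul_comm]
  have es : ∀ U : Fin (X.N + 1) → Ω,
      ∑ i, l i • (Pi.single i₀ U : σ → Fin (X.N + 1) → Ω) i = U := fun U => by
    rw [Finset.sum_eq_single i₀ (fun i _ hi => by simp [hi]) (by simp)]
    simp [hi]
  have mb : ∀ e : Fin (X.N + 1), ∑ i, cnt4pW x₀ x' (forms a none) (forms a (some i)) ⬝ᵥ
      Pi.single e (l i) ∈ acl Λ s := fun e => by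
    rw [eu, ← hc, Finset.sum_apply]
    refine sum_mem fun t _ => mul_mem (mem_acl_of_mem (Or.inr (Or.inl ⟨t, rfl⟩))) ?_
    rw [grad, ← aeval_map_algebraMap Λ]
    exact aeval_mem_acl mx _
  have hq : (Finset.univ.erase i₀).card + 1 = Fintype.card σ :=
    Finset.card_erase_add_one (Finset.mem_univ _)
  have hs : ∀ q : ℕ, rk Λ (range x') ≤ q →
      rk Λ s ≤ (q + (r + (Finset.univ.erase i₀).card) : ℕ) := fun q h => by
    refine (rk_union_le _ _).trans ?_
    rw [Nat.cast_add, Nat.cast_add]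
    refine add_le_add h ((rk_union_le _ _).trans (add_le_add ((rk_range_le c).trans ?_)
      (rk_image_le _ _)))
    rw [Fintype.card_fin]
  by_cases h : ∃ ζ : Ω, x₀ = ζ • x'
  · obtain ⟨ζ, rfl⟩ := h
    have hv : ∀ f : Fm X.N Ω, f.IsHomogeneous d → eval (ζ • x') f = ζ ^ d * eval x' f :=
      fun f hf => eval₂_smul_hom hf (RingHom.id Ω) ζ x'
    have hζ : ζ ≠ 0 := fun e => h0 (by rw [hv _ (forms_hom a _), e, zero_pow (by omega), zero_mul])
    have h3 := cnt4p_count hx₀ mx ha h0 (fun (e : Fin X.N) i => Pi.single (j.succAbove e) (l i))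
      (fun e => mu _) (fun e => mb _) (fun w => ?_) (hs 0 ((rk_le_of_acl (t := ∅) ?_).trans
        rk_empty.le))
    · rw [Fintype.card_fin] at h3
      omega
    · let U : Fin (X.N + 1) → Ω := j.insertNth (-∑ e, w e * x' (j.succAbove e)) w
      refine ⟨Pi.single i₀ U, fun i => ?_, fun e => ?_⟩
      · have h4 : (Pi.single i₀ U : σ → Fin (X.N + 1) → Ω) i ⬝ᵥ x' = (d : Ω) * 0 := by
          rw [Pi.single_apply, mul_zero]
          split_ifs
          · simp [dotProduct, Fin.sum_univ_succAbove _ j, U, hj]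
          · exact zero_dotProduct _
        obtain ⟨f, hf, h5, h6⟩ := jet1 hx'.1 (by omega) h4
        exact ⟨f, hf, h6, by rw [hv f hf, h5, mul_zero]⟩
      · rw [eu, es]
        simp [U]
    · rintro _ ⟨i, rfl⟩
      have h4 : x' i = (ζ • x') i / (ζ • x') j := by simp [hj, hζ]
      rw [h4]
      exact div_mem (hx₀ _ _) (hx₀ _ _)
  · push Not at h
    have hd' : (d : Ω) ≠ 0 := by
      rw [← map_natCast (algebraMap k Ω)]
      exact (map_ne_zero _).2 hp
    have h3 := cnt4p_count hx₀ mx ha h0 (ε := Fin (X.N + 1) ⊕ (Finset.univ.erase i₀ : Finset σ))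
      (Sum.elim (fun e i => Pi.single e (l i)) fun e => Pi.single e.1 x') ?_ ?_ (fun w => ?_)
      (hs n ((rk_le_of_tower _).trans (hx'.rk_le hX.dim hj)))
    · rw [Fintype.card_sum, Fintype.card_fin, Fintype.card_coe] at h3
      omega
    · rintro (e | e) i j
      · exact mu e i j
      · rw [Sum.elim_inr, Pi.single_apply]
        split_ifs
        exacts [mx j, zero_mem _]
    · rintro (e | e)
      · exact mb e
      · rw [Sum.elim_inr, Finset.sum_eq_single e.1 (fun i _ hi => by simp [hi]) (by simp),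
          Pi.single_eq_same, h1]
        exact zero_mem _
    · let g : σ → Fin (X.N + 1) → Ω := fun i =>
        if h : i ∈ Finset.univ.erase i₀ then Pi.single j (w (.inr ⟨i, h⟩)) else 0
      refine ⟨g + Pi.single i₀ ((fun e => w (.inl e)) - ∑ i, l i • g i),
        fun i => jet_grad_valP hx'.1 h hd hd' _ 0, ?_⟩
      rintro (e | e)
      · rw [Sum.elim_inl, eu]
        simp only [Pi.add_apply g, smul_add, Finset.sum_add_distrib, es, add_sub_cancel]
      · rw [Sum.elim_inr, Finset.sum_eq_single e.1 (fun i _ hi => by simp [hi]) (by simp),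
          Pi.single_eq_same, Pi.add_apply, Pi.single_eq_of_ne (Finset.ne_of_mem_erase e.2), add_zero]
        simp only [g]
        rw [dif_pos e.2, single_dotProduct, hj, mul_one]

/-- the case of independent coefficients -/
theorem smf_indep (hX : X.Nice n) (hσ : Fintype.card σ + 1 = n) (hd : 2 ≤ d) (hp : (d : k) ≠ 0)
    {Ω : Type} [Field Ω] [Algebra Λ Ω] [Algebra k Ω] [IsScalarTower k Λ Ω]
    {x₀ x' : Fin (X.N + 1) → Ω} (hx₀ : ∀ s i, x₀ i ∈ acl Λ s) (hx' : X.On x')
    {a : Option σ × Mon X.N d → Ω} (ha : AlgebraicIndependent Λ a)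
    (h0 : eval x₀ (forms a none) ≠ 0)
    (h1 : ∀ i, eval x₀ (forms a none) * eval x' (forms a (some i)) =
      eval x₀ (forms a (some i)) * eval x' (forms a none)) {l : σ → Ω}
    (h2 : ∑ i, l i • (eval x₀ (forms a none) • grad x' (forms a (some i)) -
      eval x₀ (forms a (some i)) • grad x' (forms a none)) ∈ X.jac x') : l = 0 := by
  by_contra hl
  obtain ⟨i₀, hi⟩ := Function.ne_iff.1 hl
  obtain ⟨j, hj⟩ := Function.ne_iff.1 hx'.1
  have hi' : l i₀ ≠ 0 := hi
  have hj' : x' j ≠ 0 := hj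
  have e : ∀ i, cnt4pW x₀ ((x' j)⁻¹ • x') (forms a none) (forms a (some i)) =
      (x' j)⁻¹ ^ (d - 1) • cnt4pW x₀ x' (forms a none) (forms a (some i)) := fun i => by
    rw [cnt4pW, cnt4pW, grad_smul_hom (forms_hom a _), grad_smul_hom (forms_hom a _), smul_sub,
      smul_comm, smul_comm (eval x₀ (forms a (some i)))]
  refine cnt4p_norm hX hσ hd hp hx₀ (hx'.smul (inv_ne_zero hj')) ha h0 (fun i => ?_)
    (l := (l i₀)⁻¹ • l) ?_ (j := j) (inv_mul_cancel₀ hj') (i₀ := i₀) (inv_mul_cancel₀ hi')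
  · rw [e, dotProduct_smul, smul_dotProduct, cnt4p_euler (forms_hom a _) (forms_hom a _) (h1 i),
      smul_zero, smul_zero]
  · rw [Var.jac_smul (inv_ne_zero hj')]
    have h3 := (X.jac x').smul_mem ((l i₀)⁻¹ * (x' j)⁻¹ ^ (d - 1)) h2
    rw [Finset.smul_sum] at h3
    rw [Finset.sum_congr rfl fun i _ => ?_]
    · exact h3
    · rw [e, smul_smul, smul_smul, Pi.smul_apply, smul_eq_mul, mul_right_comm]
      rfl

variable (X) in
/-- the equations -/
noncomputable def cnt4pEq (GG : Finset (Fm X.N k)) {S : Type} [CommRing S] [Algebra k S]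
    (x₀ : Fin (X.N + 1) → S) (a : Option σ × Mon X.N d → S) (x' : Fin (X.N + 1) → S) (l : σ → S)
    (c : GG → S) : X.I ⊕ σ ⊕ Fin (X.N + 1) → S
  | .inl G => aeval x' G.1
  | .inr (.inl i) => eval x₀ (forms a none) * eval x' (forms a (some i)) -
      eval x₀ (forms a (some i)) * eval x' (forms a none)
  | .inr (.inr j) => (∑ G : GG, c G • grad x' G.1 -
      ∑ i, l i • cnt4pW x₀ x' (forms a none) (forms a (some i))) j

theorem cnt4p_eval {S T : Type} [CommRing S] [Algebra k S] [CommRing T] [Algebra k T] {N : ℕ}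
    (ψ : S →ₐ[k] T) (y : Fin (N + 1) → S) (P : Fm N S) :
    ψ (eval y P) = eval (fun i => ψ (y i)) (map (ψ : S →+* T) P) := map_eval (ψ : S →+* T) y P

theorem cnt4pEq_map (GG : Finset (Fm X.N k)) {S T : Type} [CommRing S] [Algebra k S] [CommRing T]
    [Algebra k T] (ψ : S →ₐ[k] T) (x₀ : Fin (X.N + 1) → S) (a : Option σ × Mon X.N d → S)
    (x' : Fin (X.N + 1) → S) (l : σ → S) (c : GG → S) (t : X.I ⊕ σ ⊕ Fin (X.N + 1)) :
    ψ (cnt4pEq X GG x₀ a x' l c t) = cnt4pEq X GG (fun i => ψ (x₀ i)) (fun i => ψ (a i))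
      (fun i => ψ (x' i)) (fun i => ψ (l i)) (fun i => ψ (c i)) t := by
  rcases t with G | i | j
  · exact comp_aeval_apply x' ψ G.1
  · simp only [cnt4pEq, map_sub, map_mul, cnt4p_eval, map_forms, RingHom.coe_coe]
  · simp only [cnt4pEq, cnt4pW, Pi.sub_apply, Finset.sum_apply, Pi.smul_apply, smul_eq_mul, grad,
      map_sub, map_sum, map_mul, comp_aeval_apply, aeval_eq_eval, cnt4p_eval, ← pderiv_map,
      map_forms, RingHom.coe_coe]

theorem cnt4p_gen (hX : X.Nice n) (hσ : Fintype.card σ + 1 = n) (hd : 2 ≤ d) (hp : (d : k) ≠ 0)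
    {GG : Finset (Fm X.N k)} (hG : (GG : Set (Fm X.N k)) ⊆ X.I) (x : Fin (X.N + 1) → Λ)
    (j : Fin (X.N + 1)) (i : σ) :
    ∃ r : MP (Option σ × Mon X.N d) Λ, r ≠ 0 ∧ ∀ (a : Option σ × Mon X.N d → Λ) x' l c,
      eval a r ≠ 0 → (∀ t, cnt4pEq X GG x a x' l c t = 0) →
        eval x (forms a none) * (x' j * l i) = 0 := by
  let R := MP ((Option σ × Mon X.N d) ⊕ Fin (X.N + 1) ⊕ σ ⊕ GG) Λ
  let E : X.I ⊕ σ ⊕ Fin (X.N + 1) → R := cnt4pEq X GG (fun i => C (x i))
    (fun p => MvPolynomial.X (.inl p)) (fun i => MvPolynomial.X (.inr (.inl i)))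
    (fun i => MvPolynomial.X (.inr (.inr (.inl i)))) fun i => MvPolynomial.X (.inr (.inr (.inr i)))
  let u : R := eval (fun i => C (x i)) (forms (fun p => MvPolynomial.X (.inl p)) none) *
    (MvPolynomial.X (.inr (.inl j)) * MvPolynomial.X (.inr (.inr (.inl i))))
  have key : ∀ (Ω : Type) [Field Ω] [Algebra Λ Ω] [Algebra k Ω] [IsScalarTower k Λ Ω]
      (a : Option σ × Mon X.N d → Ω) (z : Fin (X.N + 1) ⊕ σ ⊕ GG → Ω),
      ((∀ P ∈ range E, aeval (Sum.elim a z) P = 0) ↔ ∀ t, cnt4pEq X GG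
        (fun i => algebraMap Λ Ω (x i)) a (fun i => z (.inl i)) (fun i => z (.inr (.inl i)))
        (fun i => z (.inr (.inr i))) t = 0) ∧ aeval (Sum.elim a z) u =
        eval (fun i => algebraMap Λ Ω (x i)) (forms a none) * (z (.inl j) * z (.inr (.inl i))) := by
    intro Ω _ _ _ _ a z
    refine ⟨forall_mem_range.trans (forall_congr' fun t => Eq.congr_left ?_), ?_⟩
    · refine (cnt4pEq_map GG ((aeval (R := Λ) (Sum.elim a z)).restrictScalars k) _ _ _ _ _ t).trans ?_
      simp only [AlgHom.coe_restrictScalars', aeval_C, aeval_X, Sum.elim_inl, Sum.elim_inr]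
    · simp only [u, map_mul, cnt4p_eval, map_forms, RingHom.coe_coe, aeval_C, aeval_X, Sum.elim_inl,
        Sum.elim_inr]
  obtain ⟨r, hr, hr'⟩ := generic (range E) u (by
    intro Ω _ _ a z ha h
    let : Algebra k Ω := ((algebraMap Λ Ω).comp (algebraMap k Λ)).toAlgebra
    have : IsScalarTower k Λ Ω := .of_algebraMap_eq fun _ => rfl
    rw [(key Ω a z).1] at h
    rw [(key Ω a z).2]
    by_contra hne
    have h2 := right_ne_zero_of_mul hne
    refine right_ne_zero_of_mul h2 (congrFun (smf_indep hX hσ hd hp (x' := fun i => z (.inl i))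
      (l := fun i => z (.inr (.inl i))) (fun s i => (acl Λ s).algebraMap_mem _)
      ⟨fun e => left_ne_zero_of_mul h2 (congrFun e j), fun G hG => h (.inl ⟨G, hG⟩)⟩ ha
      (left_ne_zero_of_mul hne) (fun i => sub_eq_zero.1 (h (.inr (.inl i)))) ?_) i)
    exact sub_eq_zero.1 (funext fun j => h (.inr (.inr j))) ▸ sum_mem fun G _ =>
      Submodule.smul_mem _ _ (Submodule.subset_span ⟨G.1, hG G.2, rfl⟩))
  refine ⟨r, hr, fun a x' l c ha h => ?_⟩
  exact (key Λ a _).2.symm.trans (hr' Λ a (Sum.elim x' (Sum.elim l c)) (by rwa [aeval_eq_eval])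
    ((key Λ a _).1.2 h))

theorem cnt4p_comp {ι κ : Type} {S : (ι → k) → Prop} (h : Gn k S) {e : ι → κ}
    (he : Function.Injective e) : Gn k fun a : κ → k => S (a ∘ e) := by
  obtain ⟨r, h0, h⟩ := h
  exact ⟨rename e r, fun h1 => h0 (rename_injective e he (by rw [h1, map_zero])),
    fun a ha => h _ (by rwa [eval_rename] at ha)⟩

/-- the generic fibre curve through `x` is smooth -/
theorem Var.Nice.gn_smf (hX : X.Nice n) (hσ : Fintype.card σ + 1 = n) (hd : 2 ≤ d)
    (hp : (d : k) ≠ 0) (x : Fin (X.N + 1) → Λ) :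
    Gn k fun a : Option (Option σ) × Mon X.N d → k => aeval x (forms a none) ≠ 0 →
      SmF (X.IK k) (forms a) (algebraMap k Λ)
        fun i => aeval x (forms a (some (some i))) / aeval x (forms a none) := by
  obtain ⟨GG, g1, g2⟩ := X.exists_GG
  choose r hr hr' using fun p : Fin (X.N + 1) × σ => cnt4p_gen hX hσ hd hp g1 x p.1 p.2
  refine (cnt4p_comp (Gn.all fun p => Gn.of_ext (k := k) (hr p))
    (e := Prod.map skip (id : Mon X.N d → _)) ((Option.map_injective (Option.some_injective σ)).prodMap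
      Function.injective_id)).mono fun a ha h0 x' hx' hz h1 => ?_
  have hon : X.On x' := ⟨hx', (X.zer_IK _ fun _ => rfl).1 hz⟩
  obtain ⟨a', ha', e⟩ : ∃ a' : Option σ × Mon X.N d → Λ, (∀ p, MvPolynomial.eval a' (r p) ≠ 0) ∧
      ∀ i, forms a' i = map (algebraMap k Λ) (forms a (Option.map some i)) :=
    ⟨_, ha, fun i => (map_forms _ a _).symm⟩
  have e0 : ∀ y z : Λ, aeval x (forms a none) * (y / aeval x (forms a none) * z) = y * z :=
    fun y z => by rw [← mul_assoc, mul_div_cancel₀ _ h0]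
  have e1 : ∀ y (f : Fm X.N k), MvPolynomial.eval y (map (algebraMap k Λ) f) = aeval y f :=
    fun y f => eval_map _ _ _
  have e2 : ∀ f : Fm X.N k, grad x' (map (algebraMap k Λ) f) = grad x' f := fun f =>
    funext fun j => by rw [grad, grad, pderiv_map, aeval_map_algebraMap]
  have e3 : ∀ i, MvPolynomial.eval x (forms a' none) * MvPolynomial.eval x' (forms a' (some i)) =
      MvPolynomial.eval x (forms a' (some i)) * MvPolynomial.eval x' (forms a' none) := fun i => by
    simp only [e, e1, Option.map_some, Option.map_none]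
    rw [aeval_def x', aeval_def x', h1, e0]
  obtain ⟨w, hw⟩ := hX.smf_of_indep hσ hon
    (u := fun i => cnt4pW x x' (forms a' none) (forms a' (some i)))
    (fun i => cnt4p_euler (forms_hom _ _) (forms_hom _ _) (e3 i)) fun l hl => by
      rw [Var.jac_eq_span g1 g2 fun G hG => hon.2 G (g1 hG), image_eq_range,
        Submodule.mem_span_range_iff_exists_fun] at hl
      obtain ⟨c, hc⟩ := hl
      obtain ⟨j, hj⟩ := Function.ne_iff.1 hx'
      funext i
      have h4 := hr' (j, i) a' x' l c (ha' _) (by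
        rintro (G | i | j)
        exacts [hon.2 G.1 G.2, sub_eq_zero.2 (e3 i), congrFun (sub_eq_zero.2 hc) j])
      rw [e, e1] at h4
      exact (mul_eq_zero.1 ((mul_eq_zero.1 h4).resolve_left h0)).resolve_left hj
  refine ⟨w, fun v h2 h3 => hw v (fun G hG => h2 G (X.IK_self ▸ hG)) fun i => ?_⟩
  simp only [cnt4pW, sub_dotProduct, smul_dotProduct, e, e1, e2, Option.map_some, Option.map_none,
    smul_eq_mul, ← dr_eq]
  rw [h3, e0, sub_self]

end Pool.Agent.ZCy
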