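import Pool.Agent.Lib.MP_751085_ag.ZC.CPrim

/-! Primitive elements and the different for separable extensions. -/

namespace Pool.Agent.ZCy

open scoped Classical Polynomial IntermediateField
open Polynomial

variable {L E : Type} [Field L] [Field E] [Algebra L E]

theorem mem_adjoin_of_embP [Algebra.IsSeparable L E] (Ω : Type) [Field Ω] [Algebra L Ω]
    [IsAlgClosed Ω] {z w : E} (h : ∀ j j' : E →ₐ[L] Ω, j z = j' z → j w = j' w) : w ∈ L⟮z⟯ := by
  let j₀ : E →ₐ[L] Ω := IsAlgClosed.lift
  let : Algebra L⟮z⟯ Ω := ((j₀ : E →+* Ω).comp (algebraMap L⟮z⟯ E)).toAlgebra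
  have : IsScalarTower L L⟮z⟯ Ω := .of_algebraMap_eq fun a => (j₀.commutes a).symm
  have : Algebra.IsSeparable L⟮z⟯ E := Algebra.isSeparable_tower_top_of_isSeparable L _ E
  have hi : IsIntegral L⟮z⟯ w := Algebra.IsIntegral.isIntegral w
  have e : ∀ y : (minpoly L⟮z⟯ w).rootSet Ω, (y : Ω) = j₀ w := fun y => by
    obtain ⟨j, hj⟩ := prim_root (aeval_eq_zero_of_mem_rootSet y.2)
    exact hj.symm.trans (h (j.restrictScalars L) j₀
      (j.commutes (IntermediateField.AdjoinSimple.gen L z)))
  have e1 := card_rootSet_eq_natDegree (Algebra.IsSeparable.isSeparable L⟮z⟯ w)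
    (IsAlgClosed.splits ((minpoly L⟮z⟯ w).map (algebraMap _ Ω)))
  have e2 : Fintype.card ((minpoly L⟮z⟯ w).rootSet Ω) ≤ 1 :=
    Fintype.card_le_one_iff.2 fun a b => Subtype.ext ((e a).trans (e b).symm)
  obtain ⟨a, ha⟩ := minpoly.natDegree_eq_one_iff.1
    (le_antisymm (e1 ▸ e2) (minpoly.natDegree_pos hi))
  exact ha ▸ a.2

theorem prim_neP [Algebra.IsSeparable L E] {A : Type} [CommRing A] [IsDomain A]
    [IsIntegrallyClosed A] [Algebra A L] [IsFractionRing A L] [Algebra A E] [IsScalarTower A L E]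
    {z : E} (hz : IsIntegral A z) : aeval z (derivative (minpoly A z)) ≠ 0 := by
  have := (Algebra.IsSeparable.isSeparable L z).aeval_derivative_ne_zero (minpoly.aeval L z)
  rwa [minpoly.isIntegrallyClosed_eq_field_fractions' L hz, derivative_map,
    aeval_map_algebraMap] at this

theorem exists_diffP [Algebra.IsSeparable L E] {A : Type} [CommRing A] [IsDomain A] [IsIntegrallyClosed A]
    [Algebra A L] [IsFractionRing A L] [Algebra A E] [IsScalarTower A L E] {z w : E}
    (hz : IsIntegral A z) (hw : IsIntegral A w) (h : w ∈ L⟮z⟯) :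
    ∃ p : A[X], aeval z p = aeval z (derivative (minpoly A z)) * w := by
  have hL : IsIntegral L z := hz.tower_top
  have := IntermediateField.adjoin.finiteDimensional hL
  have : Algebra.IsSeparable L L⟮z⟯ := Algebra.isSeparable_tower_bot_of_isSeparable L _ E
  let ψ : L⟮z⟯ →ₐ[A] E := L⟮z⟯.val.restrictScalars A
  have hψ : Function.Injective ψ := Subtype.val_injective
  let x := IntermediateField.AdjoinSimple.gen L z
  let w' : L⟮z⟯ := ⟨w, h⟩
  have hx : IsIntegral A x := (isIntegral_algHom_iff ψ hψ).1 hz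
  have hw' : IsIntegral A w' := (isIntegral_algHom_iff ψ hψ).1 hw
  have ht : Algebra.adjoin L {x} = ⊤ := (IntermediateField.adjoin.powerBasis hL).adjoin_gen_eq_top
  have hm : w' ∈ (Algebra.traceForm L L⟮z⟯).dualSubmodule
      (Subalgebra.toSubmodule (Algebra.adjoin A {x})) := fun a ha => by
    have h1 : IsIntegral A a := (adjoin_le_integralClosure hx) ha
    obtain ⟨b, hb⟩ := IsIntegrallyClosed.isIntegral_iff.1
      (Algebra.isIntegral_trace (L := L) (hw'.mul h1))
    exact Submodule.mem_one.2 ⟨b, hb⟩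
  rw [traceForm_dualSubmodule_adjoin A L ht hx] at hm
  obtain ⟨b, hb, e⟩ := Set.mem_smul_set.1 hm
  have hb' : b ∈ Algebra.adjoin A {x} := hb
  rw [Algebra.adjoin_singleton_eq_range_aeval] at hb'
  obtain ⟨p, rfl⟩ := hb'
  have e0 : ψ (aeval x (derivative (minpoly L x))) = aeval z (derivative (minpoly A z)) := by
    rw [IntermediateField.minpoly_gen, minpoly.isIntegrallyClosed_eq_field_fractions' L hz,
      derivative_map, aeval_map_algebraMap, ← aeval_algHom_apply]
    rfl
  have e1 := congrArg ψ e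
  rw [smul_eq_mul, map_mul, map_inv₀, e0] at e1
  refine ⟨p, ?_⟩
  rw [← inv_mul_eq_iff_eq_mul₀ (prim_neP (L := L) hz)]
  refine Eq.trans ?_ e1
  congr 1
  exact aeval_algHom_apply ψ x p

end Pool.Agent.ZCy
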