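import Pool.Agent.Lib.MP_751085_ag.ZC.CRes

/-! Elimination in any characteristic. -/

namespace Pool.Agent.ZCy

open scoped Classical Polynomial
open MvPolynomial

variable {k : Type} [Field k] {ι : Type}

theorem resp_hom {P : MP ι k} {m : ℕ}
    (h : scl k (X : ι → MP ι k) P = Polynomial.X ^ m * Polynomial.C P) : P.IsHomogeneous m := by
  have h1 := congrArg (Polynomial.coeff · m) h
  simp only [coeff_scl, aeval_X_left_apply, Polynomial.coeff_X_pow_mul', le_refl, if_true,
    Nat.sub_self, Polynomial.coeff_C_zero] at h1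
  exact h1 ▸ homogeneousComponent_isHomogeneous m P

theorem resp_map {h : (MP ι k)[X]} {m : ℕ} (wh : WH m h) :
    h.map (scl k (X : ι → MP ι k)).toRingHom = Polynomial.C (Polynomial.X ^ (m - h.natDegree)) *
      (h.map Polynomial.C).scaleRoots Polynomial.X := by
  ext i : 1
  rw [Polynomial.coeff_map, Polynomial.coeff_C_mul, Polynomial.coeff_scaleRoots,
    Polynomial.natDegree_map_eq_of_injective Polynomial.C_injective, Polynomial.coeff_map]
  by_cases hi : i ≤ h.natDegree
  · have h1 := wh.natDegree_le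
    have h2 : m - i = (m - h.natDegree) + (h.natDegree - i) := by omega
    refine (scl_hom (wh.coeff i) X).trans ?_
    rw [aeval_X_left_apply, ← Polynomial.C_mul_X_pow_eq_monomial, h2, pow_add]
    ring
  · rw [Polynomial.coeff_eq_zero_of_natDegree_lt (not_le.1 hi), map_zero, map_zero, zero_mul,
      mul_zero]

/-- `D` is the resultant -/
theorem exists_elimP {χ h : (MP ι k)[X]} {δ m : ℕ} (hm : χ.Monic) (hδ : χ.natDegree = δ)
    (h0 : 0 < δ) (wχ : WH δ χ) (wh : WH m h) : ∃ D : MP ι k, D.IsHomogeneous (m * δ) ∧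
      (∃ β, χ ∣ Polynomial.C D - β * h) ∧ ∀ (Ω : Type) [Field Ω] [Algebra k Ω] [IsAlgClosed Ω]
        (y : ι → Ω), (∀ z, ev (algebraMap k Ω) y z χ = 0 → ev (algebraMap k Ω) y z h ≠ 0) →
          aeval y D ≠ 0 := by
  subst hδ
  refine ⟨Polynomial.resultant χ h, resp_hom ?_, ?_, fun Ω _ _ _ y hy => ?_⟩
  · have h1 := Polynomial.resultant_map_map χ h χ.natDegree h.natDegree
      (scl k (X : ι → MP ι k)).toRingHom
    have h2 := Polynomial.resultant_scaleRoots (χ.map Polynomial.C) (h.map Polynomial.C)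
      (Polynomial.X : (MP ι k)[X])
    simp only [Polynomial.natDegree_scaleRoots,
      Polynomial.natDegree_map_eq_of_injective Polynomial.C_injective] at h2
    rw [resp_map wχ, resp_map wh, Nat.sub_self, pow_zero, map_one, one_mul,
      Polynomial.resultant_C_mul_right, h2, Polynomial.resultant_map_map] at h1
    refine h1.symm.trans ?_
    have h3 := wh.natDegree_le
    have h4 : m * χ.natDegree = (m - h.natDegree) * χ.natDegree + χ.natDegree * h.natDegree := by
      rw [mul_comm χ.natDegree, ← add_mul, Nat.sub_add_cancel h3]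
    rw [h4, pow_add, ← pow_mul, mul_assoc]
  · obtain ⟨p, q, -, -, e⟩ := Polynomial.exists_mul_add_mul_eq_C_resultant χ h le_rfl le_rfl
      (Or.inl h0.ne')
    exact ⟨q, p, by rw [← e]; ring⟩
  · have h1 := Polynomial.resultant_map_map χ h χ.natDegree h.natDegree
      (eval₂Hom (algebraMap k Ω) y)
    have hm' : (χ.map (eval₂Hom (algebraMap k Ω) y)).Monic := hm.map _
    have h2 := Polynomial.resultant_eq_prod_eval (χ.map (eval₂Hom (algebraMap k Ω) y))
      (h.map (eval₂Hom (algebraMap k Ω) y)) h.natDegree Polynomial.natDegree_map_le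
      (IsAlgClosed.splits _)
    rw [hm.natDegree_map, h1, hm'.leadingCoeff, one_pow, one_mul] at h2
    rw [aeval_def, ← coe_eval₂Hom, h2]
    refine Multiset.prod_ne_zero fun hz => ?_
    obtain ⟨z, hz1, hz2⟩ := Multiset.mem_map.1 hz
    refine hy z ?_ ?_
    · rw [ev_eq_eval]
      exact (Polynomial.mem_roots hm'.ne_zero).1 hz1
    · rw [ev_eq_eval]
      exact hz2

end Pool.Agent.ZCy
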