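import Pool.Agent.Lib.MP_751085_ag.ZF.C.Defs

/-! Charts that separate finitely many points. -/

namespace Pool.Agent.ZCy

open scoped Classical Polynomial
open MvPolynomial

/-- `N1p` with separation of the given points -/
def N1s : Prop := ∀ (k : Type) [Field k] [Infinite k] (X : Var k) (n : ℕ), X.Nice n →
  ∀ (σ : Type) [Fintype σ], Fintype.card σ + 1 = n →
  ∀ (M : Type) [Field M] [Algebra k M] (S : Finset (Fin (X.N + 1) → M)), (∀ x ∈ S, X.On x) →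
  ∀ H : Fm X.N k, (∃ m, H.IsHomogeneous m) → H ∉ X.I → ∀ d : ℕ, 2 ≤ d → (d : k) ≠ 0 →
  ∃ (c : Chart k σ X.N (X.IK k)) (Φ : MP σ k), c.d = d ∧ c.SM Φ ∧ Φ ≠ 0 ∧
    (∀ x ∈ S, c.Off (c.brs Φ) (algebraMap k M) x) ∧ (∀ (Ω : Type) [Field Ω] [Algebra k Ω]
      (x : Fin (X.N + 1) → Ω), X.On x → (∀ i, aeval x (c.f (skip i)) = 0) → aeval x H ≠ 0) ∧
    ∀ x ∈ S, ∀ x' ∈ S, c.xi (algebraMap k M) x none = c.xi (algebraMap k M) x' none →
      ∃ u : M, x' = u • x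

theorem N1s.n1p (h : N1s) : N1p := fun k _ _ X n hX σ _ hσ M _ _ S hS H hH hI d hd hp => by
  obtain ⟨c, Φ, h1, h2, h3, h4, h5, -⟩ := h k X n hX σ hσ M S hS H hH hI d hd hp
  exact ⟨c, Φ, h1, h2, h3, h4, h5⟩

end Pool.Agent.ZCy
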