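import Pool.Agent.Lib.MP_751085_ag.ZF.C.Defs
import Pool.Agent.Lib.MP_751085_ag.ZF.C.Jet
import Pool.Agent.Lib.MP_751085_ag.ZF.C.Lin

/-! The linear system of the forms that vanish on the jets. -/

namespace Pool.Agent.ZCy

open scoped Classical Polynomial
open MvPolynomial

variable {k : Type} [Field k]

theorem descp_span {N d : ℕ} {J : Jets k N} {s : Set (Fm N k)} (hs : ∀ g ∈ s, J.Van d g)
    {g : Fm N k} (hg : g ∈ Submodule.span k s) : J.Van d g := by
  induction hg using Submodule.span_induction with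
  | mem g hg => exact hs g hg
  | zero => exact ⟨isHomogeneous_zero _ _ _, fun j => ⟨map_zero _, by simp [grad, dotProduct]⟩⟩
  | add g g' _ _ h h' =>
    refine ⟨h.1.add h'.1, fun j => ⟨by rw [map_add, (h.2 j).1, (h'.2 j).1, add_zero], ?_⟩⟩
    have e : grad (J.Q j) (g + g') = grad (J.Q j) g + grad (J.Q j) g' := by
      funext i
      simp [grad]
    rw [e, add_dotProduct, (h.2 j).2, (h'.2 j).2, add_zero]
  | smul c g _ h =>
    refine ⟨(homogeneousSubmodule _ k d).smul_mem c h.1,
      fun j => ⟨by rw [map_smul, (h.2 j).1, smul_zero], ?_⟩⟩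
    have e : grad (J.Q j) (c • g) = c • grad (J.Q j) g := by
      funext i
      simp only [grad, Derivation.map_smul, map_smul, Pi.smul_apply]
    rw [e, smul_dotProduct, (h.2 j).2, smul_zero]

theorem descp_grad {R S : Type} [CommRing R] [CommRing S] [Algebra R S] {N d : ℕ}
    (x w : Fin (N + 1) → S) (a : Mon N d → R) : grad x (form a) ⬝ᵥ w =
      ∑ m, algebraMap R S (a m) * ∑ i, eval x (pderiv i (monomial m.1 1)) * w i := by
  simp only [dotProduct, grad, aeval_def, eval₂_pderiv_form, Finset.sum_mul, Finset.mul_sum,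
    mul_assoc]
  exact Finset.sum_comm

/-- Galois descent for linear equations, by the trace form. -/
theorem descent {K Ω μ γ : Type} [Field K] [Algebra k K] [FiniteDimensional k K]
    [Algebra.IsSeparable k K] [Field Ω] [Algebra k Ω] [IsAlgClosed Ω] [Fintype μ] (t : γ → μ → K)
    {a : μ → Ω} (h : ∀ (e : K →ₐ[k] Ω) c, ∑ m, a m * e (t c m) = 0) :
    a ∈ Submodule.span Ω ((fun (b : μ → k) m => algebraMap k Ω (b m)) ''
      {b | ∀ c, ∑ m, b m • t c m = 0}) := by
  have key : ∀ (φ : Ω →ₗ[k] k) c, ∑ m, φ (a m) • t c m = 0 := by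
    intro φ c
    refine (traceForm_nondegenerate k K).1 _ fun y => ?_
    have e : ∑ m, Algebra.trace k K (t c m * y) • a m = 0 := by
      simp only [Algebra.smul_def, trace_eq_sum_embeddings Ω, Finset.sum_mul, map_mul]
      rw [Finset.sum_comm]
      refine Finset.sum_eq_zero fun e _ => ?_
      have e' := congrArg (· * e y) (h e c)
      simp only [Finset.sum_mul, zero_mul] at e'
      rw [← e']
      exact Finset.sum_congr rfl fun m _ => by ring
    have e' := congrArg φ e
    simp only [map_sum, map_smul, map_zero, smul_eq_mul] at e'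
    rw [Algebra.traceForm_apply, Finset.sum_mul, map_sum, ← e']
    exact Finset.sum_congr rfl fun m _ => by rw [smul_mul_assoc, map_smul, smul_eq_mul, mul_comm]
  let β := Module.Basis.ofVectorSpace k Ω
  have e : a = ∑ l ∈ Finset.univ.biUnion fun m => (β.repr (a m)).support,
      β l • fun m => algebraMap k Ω (β.coord l (a m)) := by
    funext m
    rw [Finset.sum_apply]
    conv_lhs => rw [← β.linearCombination_repr (a m), Finsupp.linearCombination_apply,
      Finsupp.sum_of_support_subset _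
        (Finset.subset_biUnion_of_mem (fun m => (β.repr (a m)).support) (Finset.mem_univ m))
        (fun i c => c • β i) fun _ _ => zero_smul _ _]
    exact Finset.sum_congr rfl fun l _ => by
      simp only [Pi.smul_apply, smul_eq_mul, Module.Basis.coord_apply, Algebra.smul_def, mul_comm]
  rw [e]
  exact Submodule.sum_mem _ fun l _ => Submodule.smul_mem _ _
    (Submodule.subset_span ⟨fun m => β.coord l (a m), key _, rfl⟩)

/-- `descent` for the coefficients of `f` -/
theorem Jets.vanK_of {N d : ℕ} (J : Jets k N) {Ω : Type} [Field Ω] [Algebra k Ω] [IsAlgClosed Ω]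
    {f : Fm N Ω} (hf : f.IsHomogeneous d) (h : ∀ (e : J.K →ₐ[k] Ω) j,
      eval (fun i => e (J.Q j i)) f = 0 ∧
        grad (fun i => e (J.Q j i)) f ⬝ᵥ (fun i => e (J.w j i)) = 0) : J.VanK d Ω f := by
  have hd := descent (k := k) (Ω := Ω) (γ := Fin J.s ⊕ Fin J.s)
    (fun c (m : Mon N d) => c.elim (fun j => eval (J.Q j) (monomial m.1 1))
      fun j => ∑ i, eval (J.Q j) (pderiv i (monomial m.1 1)) * J.w j i)
    (a := fun m => coeff m.1 f) (fun e c => by
      rcases c with j | j
      · have h1 := (h e j).1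
        rw [← form_coeff hf, ← eval₂_id, eval₂_form] at h1
        rw [← h1]
        exact Finset.sum_congr rfl fun m _ => by simp [eval_monomial, Finsupp.prod]
      · have h1 := (h e j).2
        rw [← form_coeff hf, descp_grad] at h1
        rw [← h1]
        exact Finset.sum_congr rfl fun m _ => by
          simp [pderiv_monomial, eval_monomial, Finsupp.prod])
  rw [← form_coeff hf]
  generalize (fun m : Mon N d => coeff m.1 f) = a at hd
  induction hd using Submodule.span_induction with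
  | mem a ha =>
    obtain ⟨b, hb, rfl⟩ := ha
    refine Submodule.subset_span ⟨form b, ⟨form_hom b, fun j => ⟨?_, ?_⟩⟩, map_form _ b⟩
    · rw [aeval_def, eval₂_form, ← hb (Sum.inl j)]
      exact Finset.sum_congr rfl fun m _ => (Algebra.smul_def _ _).symm
    · rw [descp_grad, ← hb (Sum.inr j)]
      exact Finset.sum_congr rfl fun m _ => (Algebra.smul_def _ _).symm
  | zero =>
    have e : form (0 : Mon N d → Ω) = 0 := by simp [form]
    rw [e]
    exact Submodule.zero_mem _
  | add a a' _ _ h h' =>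
    rw [form_add]
    exact Submodule.add_mem _ h h'
  | smul c a _ h =>
    rw [form_smul, C_mul']
    exact Submodule.smul_mem _ c h

/-- a spanning family indexed by the monomials -/
theorem Jets.exists_span {N : ℕ} (J : Jets k N) (d : ℕ) : ∃ E : Mon N d → Fm N k,
    (∀ m, J.Van d (E m)) ∧ ∀ g, J.Van d g → g ∈ Submodule.span k (Set.range E) := by
  obtain ⟨π, hπ⟩ := (Submodule.span k {g | J.Van d g}).subtype.exists_leftInverse_of_injective
    (Submodule.ker_subtype _)
  refine ⟨fun m => π (monomial m.1 1), fun m => descp_span (fun _ h => h) (π _).2, fun g hg => ?_⟩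
  have e : (π g : Fm N k) = g :=
    congrArg Subtype.val (LinearMap.congr_fun hπ ⟨g, Submodule.subset_span hg⟩)
  have e' : g = ∑ m : Mon N d, coeff m.1 g • monomial m.1 (1 : k) := by
    conv_lhs => rw [← form_coeff hg.1, form]
    exact Finset.sum_congr rfl fun m _ => by rw [smul_monomial, smul_eq_mul, mul_one]
  rw [← e, e', map_sum, Submodule.coe_sum]
  refine Submodule.sum_mem _ fun m _ => ?_
  rw [map_smul, Submodule.coe_smul]
  exact Submodule.smul_mem _ _ (Submodule.subset_span ⟨m, rfl⟩)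

theorem Jets.VanK.mem_span {N d : ℕ} {J : Jets k N} {μ : Type} {E : μ → Fm N k}
    (hE : ∀ g, J.Van d g → g ∈ Submodule.span k (Set.range E)) {K : Type} [Field K] [Algebra k K]
    {f : Fm N K} (hf : J.VanK d K f) :
    f ∈ Submodule.span K (Set.range fun m => map (algebraMap k K) (E m)) := by
  refine Submodule.span_le.2 ?_ hf
  rintro _ ⟨g, hg, rfl⟩
  have h := hE g hg
  clear hg
  induction h using Submodule.span_induction with
  | mem g hg =>
    obtain ⟨m, rfl⟩ := hg
    exact Submodule.subset_span ⟨m, rfl⟩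
  | zero =>
    rw [map_zero]
    exact Submodule.zero_mem _
  | add g g' _ _ h h' =>
    rw [map_add]
    exact Submodule.add_mem _ h h'
  | smul c g _ h =>
    rw [← C_mul', map_mul, map_C, C_mul']
    exact Submodule.smul_mem _ _ h

theorem descp2_closed {X : Var k} {J : Jets k X.N} (h : X.JOk J) {d : ℕ}
    (hd : 2 * (Module.finrank k J.K * J.s) < d) (hp : (d : k) ≠ 0) {μ : Type} [Fintype μ]
    {E : μ → Fm X.N k} (hE : ∀ g, J.Van d g → g ∈ Submodule.span k (Set.range E)) {Ω : Type}
    [Field Ω] [Algebra k Ω] [IsAlgClosed Ω] {x : Fin (X.N + 1) → Ω} (hx : x ≠ 0) :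
    gsp E x = ⊤ ∨ (∀ i j, IsAlgebraic k (x i / x j)) ∧ X.N ≤ Module.finrank Ω (gsp E x) + 1 := by
  have hc : 2 * Fintype.card ((J.K →ₐ[k] Ω) × Fin J.s) < d := by
    rwa [Fintype.card_prod, AlgHom.card, Fintype.card_fin]
  have key : ∀ f : Fm X.N Ω, f.IsHomogeneous d → (∀ p : (J.K →ₐ[k] Ω) × Fin J.s,
      eval (fun i => p.1 (J.Q p.2 i)) f = 0 ∧
        grad (fun i => p.1 (J.Q p.2 i)) f ⬝ᵥ (fun i => p.1 (J.w p.2 i)) = 0) →
      grad x f ∈ gsp E x := fun f hf h0 => by
    obtain ⟨c, rfl⟩ := (Submodule.mem_span_range_iff_exists_fun Ω).1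
      ((J.vanK_of hf fun e j => h0 (e, j)).mem_span hE)
    exact mem_gsp.2 ⟨c, funext fun j => by simp [grad, pderiv_map, aeval_map_algebraMap]⟩
  by_cases hq : ∀ (p : (J.K →ₐ[k] Ω) × Fin J.s) (ζ : Ω), x ≠ ζ • fun i => p.1 (J.Q p.2 i)
  · refine .inl (eq_top_iff.2 fun u _ => ?_)
    have hd' : (d : Ω) ≠ 0 := by
      rw [← map_natCast (algebraMap k Ω)]
      exact (map_ne_zero _).2 hp
    obtain ⟨f, hf, -, rfl, h0⟩ := jet_off (u := u) hx hq hc (mul_div_cancel₀ _ hd').symm
    exact key f hf fun p => ⟨(h0 p).1, by rw [(h0 p).2, zero_dotProduct]⟩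
  push Not at hq
  obtain ⟨p, ζ, rfl⟩ := hq
  have hζ : ζ ≠ 0 := left_ne_zero_of_smul hx
  refine .inr ⟨fun i j => ?_, rank_of_orth (x := fun i => p.1 (J.Q p.2 i))
    (w := fun i => p.1 (J.w p.2 i)) fun u h1 h2 => ?_⟩
  · rw [Pi.smul_apply, Pi.smul_apply, smul_eq_mul, smul_eq_mul, mul_div_mul_left _ _ hζ, ← map_div₀]
    exact (Algebra.IsAlgebraic.isAlgebraic _).algHom p.1
  · obtain ⟨f, hf, rfl, h0⟩ := jet_at (Q := fun (q : (J.K →ₐ[k] Ω) × Fin J.s) i => q.1 (J.Q q.2 i))
      (w := fun q i => q.1 (J.w q.2 i))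
      (fun q e => (h.on q.2).1 (funext fun i => (map_eq_zero q.1).1 (congrFun e i)))
      (fun q q' => h.cmp Ω q.1 q'.1 q.2 q'.2) hc p h1 h2
    have h3 := key f hf h0
    rwa [grad_smul_hom hf, Submodule.smul_mem_iff _ (pow_ne_zero _ hζ)] at h3

theorem descp2_down {N : ℕ} {μ : Type} (E : μ → Fm N k) {Ω : Type} (Ω' : Type) [Field Ω] [Field Ω']
    [Algebra k Ω] [Algebra k Ω'] [Algebra Ω Ω'] [IsScalarTower k Ω Ω'] (x : Fin (N + 1) → Ω) :
    Module.finrank Ω' (gsp E fun i => algebraMap Ω Ω' (x i)) ≤ Module.finrank Ω (gsp E x) := by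
  have : (fun m => grad (fun i => algebraMap Ω Ω' (x i)) (E m)) =
      fun m j => algebraMap Ω Ω' (grad x (E m) j) := by
    funext m j
    simp only [grad, ← aeval_algebraMap_apply, Function.comp_def]
  rw [gsp, this]
  exact finrank_span_map_le _ _

/-- The system of the forms that vanish on the jets is big. -/
theorem Var.JOk.big {X : Var k} {J : Jets k X.N} (h : X.JOk J) : ∃ d₂ : ℕ, ∀ d, d₂ ≤ d →
    (d : k) ≠ 0 → ∀ (μ : Type) [Fintype μ] (E : μ → Fm X.N k), (∀ m, (E m).IsHomogeneous d) →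
      (∀ g, J.Van d g → g ∈ Submodule.span k (Set.range E)) → Big E := by
  refine ⟨2 * (Module.finrank k J.K * J.s) + 1, fun d hd hp μ _ E _ hE Ω _ _ x hx => ?_⟩
  have h1 := descp2_down E (AlgebraicClosure Ω) x
  refine (descp2_closed h hd hp hE (x := fun i => algebraMap Ω (AlgebraicClosure Ω) (x i))
    fun e => hx (funext fun i => (map_eq_zero _).1 (congrFun e i))).imp (fun e => ?_)
    fun e => ⟨fun i j => (isAlgebraic_algebraMap_iff (algebraMap Ω (AlgebraicClosure Ω)).injective).1
      (by rw [map_div₀]; exact e.1 i j), e.2.trans (Nat.succ_le_succ h1)⟩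
  rw [e, finrank_top, Module.finrank_fin_fun] at h1
  exact Submodule.eq_top_of_finrank_eq ((Submodule.finrank_le _).antisymm
    ((Module.finrank_fin_fun Ω).trans_le h1))

/-- the product rule -/
theorem Jets.Van.mul {N d e : ℕ} {J : Jets k N} {g h : Fm N k} (hg : J.Van d g)
    (hh : h.IsHomogeneous e) : J.Van (e + d) (h * g) := by
  refine ⟨hh.mul hg.1, fun j => ⟨by rw [map_mul, (hg.2 j).1, mul_zero], ?_⟩⟩
  have e : grad (J.Q j) (h * g) = aeval (J.Q j) h • grad (J.Q j) g := by
    funext i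
    simp [grad, (hg.2 j).1]
  rw [e, smul_dotProduct, (hg.2 j).2, smul_zero]

theorem Jets.Van.of_span {N d : ℕ} {J : Jets k N} {s : Set (Fm N k)} (hs : ∀ g ∈ s, J.Van d g)
    {g : Fm N k} (hg : g ∈ Submodule.span k s) : J.Van d g := by
  exact descp_span hs hg

end Pool.Agent.ZCy
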