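import Pool.Agent.Lib.MP_751085_ag.ZF.C.Defs
import Pool.Agent.Lib.MP_751085_ag.ZC.CLd2
import Pool.Agent.Lib.MP_751085_ag.ZC.CSp2

/-! The locus of the singular fibre curves is closed; smoothness spreads out. -/

namespace Pool.Agent.ZCy

open scoped Classical Polynomial
open MvPolynomial Filter

section

variable {R : Type} [CommRing R] {σ : Type} {N : ℕ} {GG : Set (Fm N R)}
  {f : Option (Option σ) → Fm N R} {d : ℕ}

/-- a point `x` of the fibre curve over `b` with three tangent vectors -/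
structure Tan3 (GG : Set (Fm N R)) (f : Option (Option σ) → Fm N R) {S : Type} [CommRing S]
    (φ : R →+* S) (b : σ → S) (x : Fin (N + 1) → S) (v : Fin 3 → Fin (N + 1) → S) : Prop where
  zer : Zer GG φ x
  fib : ∀ i, eval₂ φ x (f (some (some i))) = b i * eval₂ φ x (f none)
  tan : ∀ t, ∀ G ∈ GG, dr φ x (v t) G = 0
  tfib : ∀ t i, dr φ x (v t) (f (some (some i))) = b i * dr φ x (v t) (f none)

theorem elimp_map {S T : Type} [CommRing S] [CommRing T] (φ : R →+* S) (x v : Fin (N + 1) → S)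
    (ψ : S →+* T) (G : Fm N R) :
    dr (ψ.comp φ) (fun j => ψ (x j)) (fun j => ψ (v j)) G = ψ (dr φ x v G) := by
  simp only [dr, map_sum, map_mul, eval₂_comp_left]
  rfl

theorem Tan3.map {S T : Type} [CommRing S] [CommRing T] {φ : R →+* S} {b : σ → S}
    {x : Fin (N + 1) → S} {v : Fin 3 → Fin (N + 1) → S} (h : Tan3 GG f φ b x v) (ψ : S →+* T) :
    Tan3 GG f (ψ.comp φ) (fun i => ψ (b i)) (fun j => ψ (x j)) fun t j => ψ (v t j) := by
  refine ⟨h.zer.comp ψ, fun i => ?_, fun t G hG => ?_, fun t i => ?_⟩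
  · have := congrArg ψ (h.fib i)
    rwa [map_mul, eval₂_comp_left, eval₂_comp_left] at this
  · rw [elimp_map, h.tan t G hG, map_zero]
  · rw [elimp_map, elimp_map, h.tfib, map_mul]

theorem elimp_euler {S : Type} [CommRing S] {G : Fm N R} {m : ℕ} (hG : G.IsHomogeneous m)
    (φ : R →+* S) (x : Fin (N + 1) → S) : dr φ x x G = m * eval₂ φ x G := by
  have h := congrArg (eval₂Hom φ x) hG.sum_X_mul_pderiv
  simpa [dr, mul_comm] using h

theorem elimp_smul {S : Type} [CommRing S] {G : Fm N R} {m : ℕ} (hG : G.IsHomogeneous m)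
    (φ : R →+* S) (c : S) (x v : Fin (N + 1) → S) :
    dr φ (c • x) v G = c ^ (m - 1) * dr φ x v G := by
  simp only [dr, eval₂_smul_hom hG.pderiv, Finset.mul_sum, mul_assoc]

theorem elimp_sum {S : Type} [CommRing S] (φ : R →+* S) (x : Fin (N + 1) → S) (c : Fin 3 → S)
    (v : Fin 3 → Fin (N + 1) → S) (G : Fm N R) :
    dr φ x (fun i => ∑ t, c t * v t i) G = ∑ t, c t * dr φ x (v t) G := by
  simp only [dr, Finset.mul_sum]
  rw [Finset.sum_comm]
  exact Finset.sum_congr rfl fun _ _ => Finset.sum_congr rfl fun _ _ => mul_left_comm _ _ _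

theorem elimp_minor {M ι : Type} [Field M] [Fintype ι] {r : ℕ} {A : Matrix (Fin r) ι M}
    (h : LinearIndependent M A.row) : ∃ s : Fin r → ι, (A.submatrix id s).det ≠ 0 := by
  obtain ⟨κ, a, ha, h1, h2⟩ := exists_linearIndependent' M A.col
  have := Fintype.ofInjective a ha
  have h3 := h.rank_matrix
  rw [Matrix.rank_eq_finrank_span_cols, ← h1, finrank_span_eq_card h2] at h3
  let e := Fintype.equivOfCardEq h3
  refine ⟨a ∘ e.symm, (Matrix.isUnit_iff_isUnit_det _).1
    (Matrix.linearIndependent_cols_iff_isUnit.1 ?_) |>.ne_zero⟩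
  exact h2.comp e.symm e.symm.injective

/-- Smoothness as an implication between equations. -/
theorem smF_iff (hG : ∀ G ∈ GG, ∃ m, G.IsHomogeneous m) (hf : ∀ i, (f i).IsHomogeneous d)
    {Ω : Type} [Field Ω] (φ : R →+* Ω) (b : σ → Ω) : SmF GG f φ b ↔
      ∀ x v, Tan3 GG f φ b x v → ∀ (j : Fin (N + 1)) (s : Fin 3 → Fin (N + 1)),
        x j * (Matrix.of fun t t' => v t (s t')).det = 0 := by
  constructor
  · intro H x v h j s
    by_cases hx : x = 0
    · rw [hx, Pi.zero_apply, zero_mul]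
    obtain ⟨w, hw⟩ := H x hx h.zer h.fib
    choose α β hv using fun t => hw (v t) (h.tan t) (h.tfib t)
    rw [Matrix.det_fin_three]
    simp only [Matrix.of_apply, hv, Pi.add_apply, Pi.smul_apply, smul_eq_mul]
    ring
  · intro H x hx hz hb
    by_contra hc
    simp only [not_exists, not_forall] at hc
    obtain ⟨w, w1, w2, w3⟩ := hc 0
    obtain ⟨u, u1, u2, u3⟩ := hc w
    have h1 : LinearIndependent Ω ![x] := LinearIndependent.of_subsingleton 0 hx
    have h2 : LinearIndependent Ω ![w, x] := h1.finCons fun h => by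
      rw [Matrix.range_cons, Matrix.range_empty, Set.union_empty, Submodule.mem_span_singleton] at h
      obtain ⟨a, ha⟩ := h
      exact w3 a 0 (by rw [ha, zero_smul, add_zero])
    have h3 : LinearIndependent Ω ![u, w, x] := h2.finCons fun h => by
      rw [Matrix.range_cons, Matrix.range_cons, Matrix.range_empty, Set.union_empty,
        Set.singleton_union, Submodule.mem_span_pair] at h
      obtain ⟨a, c, ha⟩ := h
      exact u3 c a (ha.symm.trans (add_comm _ _))
    obtain ⟨s, hs⟩ := elimp_minor (A := Matrix.of ![u, w, x]) h3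
    obtain ⟨j, hj⟩ := Function.ne_iff.1 hx
    refine mul_ne_zero hj hs (H x ![u, w, x] ⟨hz, hb, fun t G hG' => ?_, fun t i => ?_⟩ j s)
    · fin_cases t
      · exact u1 G hG'
      · exact w1 G hG'
      · obtain ⟨m, hm⟩ := hG G hG'
        exact (elimp_euler hm φ x).trans (by rw [hz G hG', mul_zero])
    · fin_cases t
      · exact u2 i
      · exact w2 i
      · show dr φ x x _ = b i * dr φ x x _
        rw [elimp_euler (hf _), elimp_euler (hf _), hb, mul_left_comm]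

theorem elimp_max {Ω ι : Type} [Field Ω] [Finite ι] (V : ValuationSubring Ω) {a : ι → Ω} {i : ι}
    (h : a i ≠ 0) : ∃ j, a j ≠ 0 ∧ ∀ l, (a j)⁻¹ * a l ∈ V := by
  have : Nonempty ι := ⟨i⟩
  obtain ⟨j, hj⟩ := Finite.exists_max fun l => V.valuation (a l)
  have h0 : 0 < V.valuation (a j) :=
    lt_of_lt_of_le (zero_lt_iff.2 ((map_ne_zero _).2 h)) (hj i)
  refine ⟨j, (map_ne_zero _).1 h0.ne', fun l => V.mem_of_valuation_le_one _ ?_⟩
  rw [map_mul, map_inv₀]
  exact (inv_mul_le_one₀ h0).2 (hj l)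

/-- Normalisation at a valuation ring. -/
theorem Tan3.norm (hG : ∀ G ∈ GG, ∃ m, G.IsHomogeneous m) (hf : ∀ i, (f i).IsHomogeneous d)
    {Ω : Type} [Field Ω] (V : ValuationSubring Ω) {φ : R →+* Ω} {b : σ → Ω}
    {x : Fin (N + 1) → Ω} {v : Fin 3 → Fin (N + 1) → Ω} (h : Tan3 GG f φ b x v) {j : Fin (N + 1)}
    {s : Fin 3 → Fin (N + 1)} (h0 : x j * (Matrix.of fun t t' => v t (s t')).det ≠ 0) :
    ∃ (x' : Fin (N + 1) → V) (v' : Fin 3 → Fin (N + 1) → V) (j' : Fin (N + 1))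
      (s' : Fin 3 → Fin (N + 1)), Tan3 GG f φ b (fun i => x' i) (fun t i => v' t i) ∧ x' j' = 1 ∧
        (Matrix.of fun t t' => v' t (s' t')) = 1 := by
  obtain ⟨j', j1, j2⟩ := elimp_max V (left_ne_zero_of_mul h0)
  obtain ⟨s', s1, s2⟩ := elimp_max V
    (a := fun s : Fin 3 → Fin (N + 1) => (Matrix.of fun t t' => v t (s t')).det)
    (right_ne_zero_of_mul h0)
  set M : Matrix (Fin 3) (Fin 3) Ω := Matrix.of fun t t' => v t (s' t') with hM
  have hu : IsUnit M.det := isUnit_iff_ne_zero.2 s1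
  have hV : ∀ t i, ∑ t', M⁻¹ t t' * v t' i ∈ V := fun t i => by
    have h1 := congrFun (M.det_smul_inv_mulVec_eq_cramer (fun t' => v t' i) hu) t
    have h2 : M.updateCol t (fun t' => v t' i) =
        Matrix.of fun a c => v a (Function.update s' t i c) := by
      ext a c
      by_cases hc : c = t
      · simp [hc]
      · simp [hc, hM, Matrix.updateCol_ne]
    rw [Matrix.cramer_apply, h2] at h1
    have h3 := s2 (Function.update s' t i)
    rw [← h1, Pi.smul_apply, smul_eq_mul, inv_mul_cancel_left₀ s1] at h3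
    exact h3
  refine ⟨fun i => ⟨_, j2 i⟩, fun t i => ⟨_, hV t i⟩, j', s', ?_, Subtype.ext (inv_mul_cancel₀ j1),
    ?_⟩
  · show Tan3 GG f φ b ((x j')⁻¹ • x) fun t i => ∑ t', M⁻¹ t t' * v t' i
    refine ⟨fun G hG' => ?_, fun i => ?_, fun t G hG' => ?_, fun t i => ?_⟩
    · obtain ⟨m, hm⟩ := hG G hG'
      rw [eval₂_smul_hom hm, h.zer G hG', mul_zero]
    · rw [eval₂_smul_hom (hf _), eval₂_smul_hom (hf _), h.fib, mul_left_comm]
    · obtain ⟨m, hm⟩ := hG G hG'
      rw [elimp_smul hm, elimp_sum, Finset.sum_eq_zero fun t' _ => by rw [h.tan t' G hG', mul_zero],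
        mul_zero]
    · rw [elimp_smul (hf _), elimp_smul (hf _), elimp_sum, elimp_sum, mul_left_comm,
        Finset.mul_sum _ _ (b i)]
      exact congrArg _ (Finset.sum_congr rfl fun t' _ => by rw [h.tfib, mul_left_comm])
  · ext t t'
    have h1 := congrFun (congrFun (M.nonsing_inv_mul hu) t) t'
    refine h1.trans ?_
    rw [Matrix.one_apply, Matrix.one_apply]
    split_ifs <;> rfl

end

variable {k : Type} [Field k] {σ : Type} [Fintype σ] {N d : ℕ} {GG : Set (Fm N k)}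
  {f : Option (Option σ) → Fm N k}

/-- points specialise along a common prime of the base -/
theorem elimp_spec {A κ Λ ζ : Type} [CommRing A] [Field κ] [Field Λ] [IsAlgClosed Λ] [Finite ζ]
    (g : A →+* κ) (a : A →+* Λ) (h : ∀ r, g r = 0 ↔ a r = 0) (z : ζ → κ) :
    ∃ z' : ζ → Λ, ∀ P : MP ζ A, eval₂Hom g z P = 0 → eval₂Hom a z' P = 0 := by
  have := RingHom.ker_isPrime a
  have i1 : Function.Injective (Ideal.Quotient.lift (RingHom.ker a) g fun r hr => (h r).2 hr) :=
    RingHom.lift_injective_of_ker_le_ideal _ _ fun r hr => (h r).1 hr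
  have i2 : Function.Injective (Ideal.Quotient.lift (RingHom.ker a) a fun r hr => hr) :=
    RingHom.lift_injective_of_ker_le_ideal _ _ le_rfl
  let θ : A →+* FractionRing (A ⧸ RingHom.ker a) :=
    (algebraMap (A ⧸ RingHom.ker a) _).comp (Ideal.Quotient.mk _)
  let := (IsFractionRing.lift (K := FractionRing (A ⧸ RingHom.ker a)) i1).toAlgebra
  let := (IsFractionRing.lift (K := FractionRing (A ⧸ RingHom.ker a)) i2).toAlgebra
  have e1 : (algebraMap _ κ).comp θ = g :=
    RingHom.ext fun r => IsFractionRing.lift_algebraMap i1 _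
  have e2 : (algebraMap _ Λ).comp θ = a :=
    RingHom.ext fun r => IsFractionRing.lift_algebraMap i2 _
  obtain ⟨z', hz⟩ := exists_spec (K := FractionRing (A ⧸ RingHom.ker a)) Λ z
  refine ⟨z', fun P hP => ?_⟩
  have h1 := hz (map θ P)
  rw [aeval_def, aeval_def, eval₂_map, eval₂_map, e1, e2] at h1
  exact h1 hP

/-- the universal equations -/
theorem elimp_univ (GG : Set (Fm N k)) (f : Option (Option σ) → Fm N k) :
    ∃ E : Set (MP (Fin (N + 1) ⊕ Fin 3 × Fin (N + 1)) (MP σ k)),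
      ∀ (T : Type) [CommRing T] (g : MP σ k →+* T) (x : Fin (N + 1) → T)
        (v : Fin 3 → Fin (N + 1) → T), Tan3 GG f (g.comp C) (fun i => g (X i)) x v ↔
          ∀ e ∈ E, eval₂Hom g (Sum.elim x fun p => v p.1 p.2) e = 0 := by
  let φ : k →+* MP (Fin (N + 1) ⊕ Fin 3 × Fin (N + 1)) (MP σ k) := C.comp C
  refine ⟨{e | (∃ G ∈ GG, e = eval₂ φ (fun j => X (.inl j)) G) ∨
    (∃ i, e = eval₂ φ (fun j => X (.inl j)) (f (some (some i))) -
      C (X i) * eval₂ φ (fun j => X (.inl j)) (f none)) ∨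
    (∃ t, ∃ G ∈ GG, e = dr φ (fun j => X (.inl j)) (fun j => X (.inr (t, j))) G) ∨
    ∃ t i, e = dr φ (fun j => X (.inl j)) (fun j => X (.inr (t, j))) (f (some (some i))) -
      C (X i) * dr φ (fun j => X (.inl j)) (fun j => X (.inr (t, j))) (f none)},
    fun T _ g x v => ?_⟩
  have h1 : ∀ G, eval₂Hom g (Sum.elim x fun p => v p.1 p.2) (eval₂ φ (fun j => X (.inl j)) G) =
      eval₂ (g.comp C) x G := fun G => by
    rw [hom_eval₂, ← RingHom.comp_assoc, eval₂Hom_comp_C]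
    simp only [eval₂Hom_X', Sum.elim_inl]
  have h2 : ∀ t G, eval₂Hom g (Sum.elim x fun p => v p.1 p.2)
      (dr φ (fun j => X (.inl j)) (fun j => X (.inr (t, j))) G) = dr (g.comp C) x (v t) G :=
    fun t G => by simp only [dr, map_sum, map_mul, h1, eval₂Hom_X', Sum.elim_inr]
  refine ⟨?_, fun h => ⟨fun G hG => ?_, fun i => ?_, fun t G hG => ?_, fun t i => ?_⟩⟩
  · rintro h _ (⟨G, hG, rfl⟩ | ⟨i, rfl⟩ | ⟨t, G, hG, rfl⟩ | ⟨t, i, rfl⟩)
    · exact (h1 G).trans (h.zer G hG)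
    · rw [map_sub, map_mul, h1, h1, eval₂Hom_C, h.fib, sub_self]
    · exact (h2 t G).trans (h.tan t G hG)
    · rw [map_sub, map_mul, h2, h2, eval₂Hom_C, h.tfib, sub_self]
  · exact (h1 G).symm.trans (h _ (.inl ⟨G, hG, rfl⟩))
  · have h3 := h _ (.inr (.inl ⟨i, rfl⟩))
    rwa [map_sub, map_mul, h1, h1, eval₂Hom_C, sub_eq_zero] at h3
  · exact (h2 t G).symm.trans (h _ (.inr (.inr (.inl ⟨t, G, hG, rfl⟩))))
  · have h3 := h _ (.inr (.inr (.inr ⟨t, i, rfl⟩)))
    rwa [map_sub, map_mul, h2, h2, eval₂Hom_C, sub_eq_zero] at h3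

theorem elimp_u {A T : Type} [CommRing A] [CommRing T] (g : A →+* T) (x : Fin (N + 1) → T)
    (v : Fin 3 → Fin (N + 1) → T) (j : Fin (N + 1)) (s : Fin 3 → Fin (N + 1)) :
    eval₂Hom g (Sum.elim x fun p : Fin 3 × Fin (N + 1) => v p.1 p.2)
      (X (.inl j) * (Matrix.of fun t t' => X (.inr (t, s t'))).det) =
      x j * (Matrix.of fun t t' => v t (s t')).det := by
  rw [map_mul, RingHom.map_det, eval₂Hom_X']
  exact congrArg (fun M => x j * Matrix.det M) (Matrix.ext fun t t' => eval₂Hom_X' _ _ _)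

/-- smoothness passes to generisations -/
theorem elimp_gen (hG : ∀ G ∈ GG, ∃ m, G.IsHomogeneous m) (hf : ∀ i, (f i).IsHomogeneous d)
    {Λ : Type} [Field Λ] [IsAlgClosed Λ] {a : MP σ k →+* Λ}
    (h : SmF GG f (a.comp C) fun i => a (X i)) {Ω : Type} [Field Ω] (g : MP σ k →+* Ω)
    (hg : ∀ r, g r = 0 → a r = 0) : SmF GG f (g.comp C) fun i => g (X i) := by
  refine (smF_iff hG hf _ _).2 fun x v hT j s => by_contra fun h0 => ?_
  have := RingHom.ker_isPrime a
  obtain ⟨V, hV, hc⟩ := ld2_place g (RingHom.ker a) hg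
  obtain ⟨x', v', j', s', h1, h2, h3⟩ := hT.norm hG hf V h0
  obtain ⟨E, hE⟩ := elimp_univ GG f
  let g' : MP σ k →+* V := g.codRestrict V.toSubring hV
  have h4 : ∀ e ∈ E, eval₂Hom g' (Sum.elim x' fun p => v' p.1 p.2) e = 0 := fun e he => by
    refine Subtype.ext (Eq.trans ?_ ((hE Ω g _ _).1 h1 e he))
    refine (map_eval₂Hom g' _ V.subtype e).trans (congrArg (fun z => eval₂Hom g z e) ?_)
    exact funext fun i => by cases i <;> rfl
  obtain ⟨z, hz⟩ := elimp_spec ((IsLocalRing.residue V).comp g') a hc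
    fun i => IsLocalRing.residue V (Sum.elim x' (fun p : Fin 3 × Fin (N + 1) => v' p.1 p.2) i)
  have e : z = Sum.elim (fun j => z (.inl j)) fun p => z (.inr (p.1, p.2)) :=
    funext fun i => by cases i <;> rfl
  have h5 : ∀ P, eval₂Hom g' (Sum.elim x' fun p : Fin 3 × Fin (N + 1) => v' p.1 p.2) P = 0 →
      eval₂Hom a (Sum.elim (fun j => z (.inl j))
        fun p : Fin 3 × Fin (N + 1) => z (.inr (p.1, p.2))) P = 0 :=
    fun P hP => e ▸ hz P (by rw [← map_eval₂Hom, hP, map_zero])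
  have h6 := h5 (X (.inl j') * (Matrix.of fun t t' => X (.inr (t, s' t'))).det - 1)
    (by rw [map_sub, elimp_u, h2, h3, Matrix.det_one, map_one, mul_one, sub_self])
  rw [map_sub, elimp_u a (fun j => z (.inl j)) fun t j => z (.inr (t, j)), map_one,
    (smF_iff hG hf _ _).1 h _ _ ((hE Λ a _ fun t j => z (.inr (t, j))).2
      fun e he => h5 e (h4 e he)) j' s', zero_sub] at h6
  exact one_ne_zero (neg_eq_zero.1 h6)

/-- the singular fibres lie in a hypersurface that misses a given smooth fibre -/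
theorem exists_SM_one (hG : ∀ G ∈ GG, ∃ m, G.IsHomogeneous m) (hf : ∀ i, (f i).IsHomogeneous d)
    {Λ : Type} [Field Λ] [IsAlgClosed Λ] [Algebra k Λ] {b₀ : σ → Λ}
    (h : SmF GG f (algebraMap k Λ) b₀) : ∃ Φ : MP σ k, aeval b₀ Φ ≠ 0 ∧
      ∀ (Ω : Type) [Field Ω] (φ : k →+* Ω) (b : σ → Ω), eval₂ φ b Φ ≠ 0 → SmF GG f φ b := by
  obtain ⟨E, hE⟩ := elimp_univ GG f
  have h' : SmF GG f ((eval₂Hom (algebraMap k Λ) b₀).comp C)
      fun i => eval₂Hom (algebraMap k Λ) b₀ (X i) := by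
    simpa only [eval₂Hom_comp_C, eval₂Hom_X'] using h
  have key : ∀ q : Fin (N + 1) × (Fin 3 → Fin (N + 1)), ∃ (r : MP σ k) (m : ℕ), aeval b₀ r ≠ 0 ∧
      C r * (X (.inl q.1) * (Matrix.of fun t t' => X (.inr (t, q.2 t'))).det) ^ m ∈
        Ideal.span E := by
    rintro ⟨j, s⟩
    by_contra hn
    generalize hu : (X (.inl j) * (Matrix.of fun t t' => X (.inr (t, s t'))).det :
      MP (Fin (N + 1) ⊕ Fin 3 × Fin (N + 1)) (MP σ k)) = u at hn
    let W : Submonoid (MP (Fin (N + 1) ⊕ Fin 3 × Fin (N + 1)) (MP σ k)) :=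
      { carrier := {w | ∃ (r : MP σ k) (m : ℕ), aeval b₀ r ≠ 0 ∧ w = C r * u ^ m}
        one_mem' := ⟨1, 0, by simp, by simp⟩
        mul_mem' := by
          rintro _ _ ⟨r, m, h0, rfl⟩ ⟨r', m', h0', rfl⟩
          exact ⟨r * r', m + m', map_mul (aeval b₀) r r' ▸ mul_ne_zero h0 h0',
            by rw [map_mul]; ring⟩ }
    obtain ⟨p, hp, hle, hdis⟩ := Ideal.exists_le_prime_disjoint (Ideal.span E) W
      (Set.disjoint_left.2 fun w hw ⟨r, m, h0, e⟩ => hn ⟨r, m, h0, e ▸ hw⟩)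
    obtain ⟨π, hπ⟩ : ∃ π : _ →+* FractionRing (_ ⧸ p), ∀ P, π P = 0 ↔ P ∈ p :=
      ⟨(algebraMap (_ ⧸ p) _).comp (Ideal.Quotient.mk p), fun P =>
        (map_eq_zero_iff _ (IsFractionRing.injective (_ ⧸ p) _)).trans
          Ideal.Quotient.eq_zero_iff_mem⟩
    have he : eval₂Hom (π.comp C) (Sum.elim (fun j => π (X (.inl j)))
        fun q => π (X (.inr (q.1, q.2)))) = π :=
      ringHom_ext (fun r => eval₂Hom_C _ _ r) fun i => by cases i <;> exact eval₂Hom_X' _ _ _
    have h1 := (smF_iff hG hf _ _).1 (elimp_gen hG hf h' (π.comp C) fun r hr => by_contra fun h0 =>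
      Set.disjoint_left.1 hdis ((hπ _).1 hr) ⟨r, 0, h0, by simp⟩) _ _
      ((hE _ (π.comp C) _ fun t j => π (X (.inr (t, j)))).2 fun e h1 => by
        rw [he, hπ]
        exact hle (Ideal.subset_span h1)) j s
    rw [← elimp_u (π.comp C) (fun j => π (X (.inl j))) fun t j => π (X (.inr (t, j))), he, hu,
      hπ] at h1
    exact Set.disjoint_left.1 hdis h1 ⟨1, 1, by simp, by simp⟩
  choose r m h0 hr using key
  refine ⟨∏ q, r q, map_prod (aeval b₀) r _ ▸ Finset.prod_ne_zero_iff.2 fun q _ => h0 q,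
    fun Ω _ φ b hb => (smF_iff hG hf _ _).2 fun x v hT j s => ?_⟩
  have h1 := (Ideal.span_le (I := RingHom.ker _)).2 ((hE Ω (eval₂Hom φ b) x v).1
    (by simpa only [eval₂Hom_comp_C, eval₂Hom_X'] using hT)) (hr (j, s))
  rw [RingHom.mem_ker, map_mul, map_pow, elimp_u, eval₂Hom_C] at h1
  rw [← coe_eval₂Hom, map_prod] at hb
  exact eq_zero_of_pow_eq_zero ((mul_eq_zero.1 h1).resolve_left
    (Finset.prod_ne_zero_iff.1 hb _ (Finset.mem_univ _)))

/-- the same for finitely many points, by prime avoidance -/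
theorem exists_SM (hG : ∀ G ∈ GG, ∃ m, G.IsHomogeneous m) (hf : ∀ i, (f i).IsHomogeneous d)
    {Λ : Type} [Field Λ] [IsAlgClosed Λ] [Algebra k Λ] {S : Set (σ → Λ)} (hS : S.Finite)
    (h : ∀ b ∈ S, SmF GG f (algebraMap k Λ) b) : ∃ Φ : MP σ k, (∀ b ∈ S, aeval b Φ ≠ 0) ∧
      ∀ (Ω : Type) [Field Ω] (φ : k →+* Ω) (b : σ → Ω), eval₂ φ b Φ ≠ 0 → SmF GG f φ b := by
  let I : Ideal (MP σ k) :=
    { carrier := {Φ | ∀ (Ω : Type) [Field Ω] (φ : k →+* Ω) (b : σ → Ω),
        ¬ SmF GG f φ b → eval₂ φ b Φ = 0}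
      add_mem' := fun h1 h2 Ω _ φ b hb => by rw [eval₂_add, h1 Ω φ b hb, h2 Ω φ b hb, add_zero]
      zero_mem' := fun Ω _ φ b _ => eval₂_zero _ _
      smul_mem' := fun c x h1 Ω _ φ b hb => by rw [smul_eq_mul, eval₂_mul, h1 Ω φ b hb, mul_zero] }
  have h1 : ¬ (I : Set (MP σ k)) ⊆ ⋃ b ∈ S, (RingHom.ker (aeval (R := k) b) : Set (MP σ k)) := by
    rw [Ideal.subset_union_prime_finite hS 0 0 fun b _ _ _ => RingHom.ker_isPrime _]
    rintro ⟨b, hb, hle⟩
    obtain ⟨Φ, h2, h3⟩ := exists_SM_one hG hf (h b hb)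
    exact h2 (hle fun Ω _ φ b' hb' => by_contra fun e => hb' (h3 Ω φ b' e))
  obtain ⟨Φ, h2, h3⟩ := Set.not_subset.1 h1
  exact ⟨Φ, fun b hb e => h3 (Set.mem_biUnion hb e),
    fun Ω _ φ b hb => by_contra fun e => hb (h2 Ω φ b e)⟩

section

variable {R S T J : Type} [CommRing R] [CommRing S] [CommRing T]

/-- the equations of `Tan3` -/
noncomputable def elimp3_e (φ : R →+* S) (b : σ → S) (x : Fin (N + 1) → S)
    (v : Fin 3 → Fin (N + 1) → S) (g : J → Fm N R) (f : Option (Option σ) → Fm N R) :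
    (J ⊕ σ) × Option (Fin 3) → S
  | (.inl G, none) => eval₂ φ x (g G)
  | (.inl G, some t) => dr φ x (v t) (g G)
  | (.inr i, none) => eval₂ φ x (f (some (some i))) - b i * eval₂ φ x (f none)
  | (.inr i, some t) => dr φ x (v t) (f (some (some i))) - b i * dr φ x (v t) (f none)

omit [Fintype σ] in
theorem elimp3_hom (ψ : S →+* T) (φ : R →+* S) (b : σ → S) (x : Fin (N + 1) → S)
    (v : Fin 3 → Fin (N + 1) → S) (g : J → Fm N R) (f : Option (Option σ) → Fm N R) (o) :
    ψ (elimp3_e φ b x v g f o) =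
      elimp3_e (ψ.comp φ) (fun i => ψ (b i)) (fun j => ψ (x j)) (fun t j => ψ (v t j)) g f o := by
  rcases o with ⟨G | i, _ | t⟩ <;>
    simp only [elimp3_e, dr, map_sub, map_mul, map_sum, eval₂_comp_left, Function.comp_def]

omit [Fintype σ] in
theorem elimp3_map (ι : R →+* S) (φ : S →+* T) (b : σ → T) (x : Fin (N + 1) → T)
    (v : Fin 3 → Fin (N + 1) → T) (g : J → Fm N R) (f : Option (Option σ) → Fm N R) (o) :
    elimp3_e φ b x v (fun G => map ι (g G)) (fun i => map ι (f i)) o =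
      elimp3_e (φ.comp ι) b x v g f o := by
  rcases o with ⟨G | i, _ | t⟩ <;> simp only [elimp3_e, dr, pderiv_map, eval₂_map]

end

/-- Smoothness of the fibre curves spreads out. -/
theorem Chart.SM.spread {V : Type} {𝓕 : Filter V} {R : V → Subring k}
    (hR : ∀ t, ∀ᶠ v in 𝓕, t ∈ (R v).subtype.range) (hfin : GG.Finite)
    (hG : ∀ G ∈ GG, ∃ m, G.IsHomogeneous m) {c : Chart k σ N GG} {Φ : MP σ k} (h : c.SM Φ) :
    ∀ᶠ v in 𝓕, ∀ (c' : Chart (R v) σ N (map (R v).subtype ⁻¹' GG)) (Φ' : MP σ (R v)),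
      c'.IsMap (R v).subtype c → map (R v).subtype Φ' = Φ → c'.SM Φ' := by
  have := hfin.to_subtype
  have hi : ∀ v, Function.Injective (R v).subtype := fun v => (R v).subtype_injective
  let τ := σ ⊕ Fin (N + 1) ⊕ Fin 3 × Fin (N + 1)
  have key := fun (j : Fin (N + 1)) (s : Fin 3 → Fin (N + 1)) =>
    spr (fun v => map (σ := τ) (R v).subtype) (csp2_i1 hi _) (lf_mp hR)
      (elimp3_e C (fun i => X (.inl i)) (fun j => X (.inr (.inl j)))
        (fun t j => X (.inr (.inr (t, j)))) (fun G : GG => G.1) c.f)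
      (eval₂ C (fun i => X (.inl i)) Φ * (X (.inr (.inl j)) *
        (Matrix.of fun t t' => (X (.inr (.inr (t, s t'))) : MP τ k)).det)) fun Ω _ ψ hψ => by
      simp only [elimp3_hom] at hψ
      rw [map_mul, map_mul, eval₂_comp_left, RingHom.map_det, mul_eq_zero, or_iff_not_imp_left]
      exact fun h0 => (smF_iff hG c.hf _ _).1 (h Ω _ _ h0) _ _
        ⟨fun G hG => hψ (.inl ⟨G, hG⟩, none), fun i => sub_eq_zero.1 (hψ (.inr i, none)),
          fun t G hG => hψ (.inl ⟨G, hG⟩, some t),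
          fun t i => sub_eq_zero.1 (hψ (.inr i, some t))⟩ j s
  filter_upwards [csp2_lift hR hfin, eventually_all.2 fun j => eventually_all.2 fun s => key j s]
    with v ⟨g, hg⟩ hv c' Φ' hc hΦ Ω _ φ b h0
  have hm : ∀ G, g G ∈ MvPolynomial.map (R v).subtype ⁻¹' GG := fun G => by
    rw [Set.mem_preimage, hg]
    exact G.2
  have hC : (map (σ := τ) (R v).subtype).comp C = C.comp (R v).subtype := by
    ext : 1
    simp
  refine (smF_iff (fun G hG' => (hG (map (R v).subtype G) hG').imp fun m hm =>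
    IsHomogeneous.of_map (hi v) hm)
    c'.hf _ _).2 fun x w ht j s => ?_
  have h1 := hv j s (elimp3_e C (fun i => X (.inl i)) (fun j => X (.inr (.inl j)))
      (fun t j => X (.inr (.inr (t, j)))) g c'.f)
    (eval₂ C (fun i => X (.inl i)) Φ' * (X (.inr (.inl j)) *
      (Matrix.of fun t t' => (X (.inr (.inr (t, s t'))) : MP τ (R v))).det)) (fun o => by
      rw [elimp3_hom, hC, ← elimp3_map, funext hg, ← funext hc.f]
      simp only [map_X])
    (by
      rw [map_mul, map_mul, eval₂_comp_left, RingHom.map_det, hC, ← eval₂_map, hΦ]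
      simp only [map_X, Function.comp_def, RingHom.mapMatrix_apply, Matrix.map, Matrix.of_apply])
    Ω (eval₂Hom φ (Sum.elim b (Sum.elim x fun p => w p.1 p.2))) fun o => by
      rw [elimp3_hom, eval₂Hom_comp_C]
      simp only [eval₂Hom_X', Sum.elim_inl, Sum.elim_inr]
      rcases o with ⟨G | i, _ | t⟩
      exacts [ht.zer _ (hm G), ht.tan t _ (hm G), sub_eq_zero.2 (ht.fib i),
        sub_eq_zero.2 (ht.tfib t i)]
  rw [map_mul, map_mul, eval₂_comp_left, RingHom.map_det, eval₂Hom_comp_C] at h1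
  simp only [eval₂Hom_X', Sum.elim_inl, Sum.elim_inr, Function.comp_def, RingHom.mapMatrix_apply,
    Matrix.map, Matrix.of_apply] at h1
  exact (mul_eq_zero.1 h1).resolve_left h0

end Pool.Agent.ZCy
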