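import Pool.Agent.Lib.MP_751085_ag.ZC.CChart
import Pool.Agent.Lib.MP_751085_ag.ZC.CB1
import Pool.Agent.Lib.MP_751085_ag.ZF.C.Defs2
import Pool.Agent.Lib.MP_751085_ag.ZF.C.Cov
import Pool.Agent.Lib.MP_751085_ag.ZF.C.Cnt2
import Pool.Agent.Lib.MP_751085_ag.ZF.C.Cnt3
import Pool.Agent.Lib.MP_751085_ag.ZF.C.Cnt4
import Pool.Agent.Lib.MP_751085_ag.ZF.C.Desc
import Pool.Agent.Lib.MP_751085_ag.ZF.C.Elim
import Pool.Agent.Lib.MP_751085_ag.ZF.C.Apx

/-! Existence of charts with smooth fibre curves. -/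

namespace Pool.Agent.ZCy

open scoped Classical Polynomial
open MvPolynomial

variable {k : Type} [Field k] {X : Var k} {n d : ℕ} {σ : Type} [Fintype σ]

theorem n1p_gpt (k ι : Type) [Field k] [Nonempty ι] : gpt k ι ≠ 0 := fun h => by
  obtain ⟨i⟩ := ‹Nonempty ι›
  exact (map_ne_zero (algebraMap (RF ι k) _)).2
    ((map_ne_zero_iff _ (IsFractionRing.injective (MP ι k) (RF ι k))).2 (X_ne_zero i))
    (congrFun h i)

theorem n1p_const {Λ ι : Type} [Field Λ] [Algebra k Λ] {P : MP ι k} (h : aeval (0 : ι → Λ) P ≠ 0) :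
    constantCoeff P ≠ 0 := fun e => h (by rw [aeval_zero, e, map_zero])

theorem n1p_single {ι Λ : Type} [DecidableEq ι] [Field Λ] (i : ι) : (Pi.single i 1 : ι → Λ) ≠ 0 := fun h => by
  simpa using congrFun h i

/-- the chart given by forms with the generic properties -/
theorem Var.Nice.chart_of [Infinite k] (hX : X.Nice n) (hσ : Fintype.card σ + 1 = n)
    {f : Option (Option σ) → Fm X.N k} (hd : 0 < d) (hf : ∀ i, (f i).IsHomogeneous d) (hb : X.B1 f)
    (het : X.Et f (gpt k _)) {Λ : Type} [Field Λ] [Algebra k Λ] [IsAlgClosed Λ]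
    (hq : X.Et f (Pi.single (some none) 1 : _ → Λ)) {S : Set (Option (Option σ) → Λ)}
    (hS : S.Finite) (h : ∀ y ∈ S, y none ≠ 0 ∧ X.Et f y ∧
      SmF (X.IK k) f (algebraMap k Λ) fun i => y (some (some i)) / y none)
    {M J : Type} [Field M] [Algebra k M] [Finite J] {Q : J → Fin (X.N + 1) → M}
    (hQ : ∀ j, Q j ≠ 0) : ∃ (c : Chart k σ X.N (X.IK k)) (Φ : MP σ k), c.d = d ∧ c.f = f ∧
      c.SM Φ ∧ (∀ y ∈ S, aeval (fun i => y (some i) / y none) (c.brs Φ) ≠ 0) ∧
      ∀ j, aeval (Q j) c.l0 ≠ 0 := by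
  obtain ⟨c, h1, h2, h3, h4⟩ := Var.cover_of_B1P hX.dim (by simp; omega) hd hf hb het
    (hS.insert (Pi.single (some none) 1)) (by
      rintro y (rfl | hy)
      exacts [⟨n1p_single _, hq⟩, ⟨fun e => (h y hy).1 (congrFun e none), (h y hy).2.1⟩]) hQ
  have h5 : MvPolynomial.eval (Pi.single (some none) 1) c.G ≠ 0 := fun e => h3 _ (Or.inl rfl) (by
    have e1 : (Pi.single (some none) 1 : Option (Option σ) → Λ) =
        algebraMap k Λ ∘ Pi.single (some none) 1 := funext fun i => by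
      simp [Pi.single_apply, apply_ite]
    rw [e1, aeval_algebraMap_apply, aeval_eq_eval, e, map_zero])
  obtain ⟨e, e1, -, e2, -, e3, -, -, e4, -⟩ := c.exists_chart h5
  obtain ⟨Φ, h6, h7⟩ := exists_SM (GG := X.IK k) (fun G hG => (X.IK_self ▸ hG).1) hf
    (hS.image fun y i => y (some (some i)) / y none) (by
      rintro _ ⟨y, hy, rfl⟩
      exact (h y hy).2.2)
  refine ⟨e, Φ, e1.trans h1, e2.trans h2, fun Ω _ φ b hb => by rw [e2, h2]; exact h7 Ω φ b hb,
    fun y hy => ?_, fun j => e3 ▸ h4 j⟩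
  rw [PChart.brs, map_mul, e4, map_mul, aeval_C, aeval_rename]
  refine mul_ne_zero (mul_ne_zero ((map_ne_zero _).2 (inv_ne_zero h5)) fun h8 => ?_)
    (h6 _ ⟨y, hy, rfl⟩)
  refine h3 y (Or.inr hy) ?_
  have e5 : y = y none • fun i => i.elim 1 fun i => y (some i) / y none := funext fun i => by
    cases i
    · simp
    · exact (mul_div_cancel₀ _ (h y hy).1).symm
  rw [aeval_def, eval₂_deh] at h8
  rw [e5, aeval_smul_hom c.hG, aeval_def, h8, mul_zero]

/-- two forms separate two points -/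
theorem gn_sepP {N : ℕ} {ι M : Type} [Fintype ι] [Field M] [Algebra k M] (hd : 0 < d) {i i' : ι}
    (hi : i ≠ i') {x x' : Fin (N + 1) → M} (hx : x' ≠ 0) (h : ∀ u : M, x ≠ u • x') :
    Gn k fun a : ι × Mon N d → k => aeval x (forms a i) * aeval x' (forms a i') ≠
      aeval x' (forms a i) * aeval x (forms a i') := by
  let P : (Fin (N + 1) → M) → ι → MP (ι × Mon N d) M := fun y j =>
    ∑ m, MvPolynomial.X (j, m) * C (eval y (monomial m.1 1))
  have hP : ∀ (a : ι × Mon N d → M) y j, eval a (P y j) = eval y (forms a j) := fun a y j => by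
    simpa [P, forms] using (eval₂_form (RingHom.id M) y fun m => a (j, m)).symm
  obtain ⟨m, h1, h2, h3⟩ := jet_lin h
  obtain ⟨g, h4, h5⟩ := jet_val hx d 1
  have h6 : (m ^ d).IsHomogeneous d := by simpa using h1.pow d
  refine (Gn.of_ext (k := k) (r := P x i * P x' i' - P x' i * P x i') fun e => ?_).mono
    fun a ha e => ha ?_
  · have e1 := congrArg (eval fun p : ι × Mon N d =>
      coeff p.2.1 (if p.1 = i then m ^ d else g)) e
    simp only [map_sub, map_mul, hP, forms, if_true, if_neg hi.symm, form_coeff h6, form_coeff h4,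
      map_pow, h2, h3, h5, zero_pow hd.ne'] at e1
    simp at e1
  · simp only [map_sub, map_mul, hP, ← map_forms, eval_map, ← aeval_def, e, sub_self]

theorem n1s_thm : N1s := fun k _ _ X n hX σ _ hσ M _ _ S hS H ⟨m, hH⟩ hI d hd hp => by
  have hι : Fintype.card (Option (Option σ)) = n + 1 := by simp; omega
  have hd0 : 0 < d := by omega
  let ψ : M →ₐ[k] AlgebraicClosure M := IsScalarTower.toAlgHom k M _
  have hF := ful_mons X.N hp
  have et {Λ : Type} [Field Λ] [Algebra k Λ] {y : Option (Option σ) → Λ} (hy : y ≠ 0) :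
      Gn k fun a : Option (Option σ) × Mon X.N d → k => X.Et (forms a) y :=
    (hX.gn_et0S (E := fun _ => mons k X.N d) hι hp (fun _ => mons_hom) (fun _ => hF.big)
      (i₀ := none) (i₁ := some none) (by simp) hF hF hy).mono fun a ha => by rwa [sys_mons] at ha
  obtain ⟨a, ⟨⟨⟨⟨⟨⟨a1, a2⟩, a3⟩, a4⟩, a5⟩, a6⟩, a7⟩, a8⟩ := ((((((((Var.gn_b1 hX.dim hι d).and
    (et (n1p_gpt k _))).and (et (Λ := AlgebraicClosure M) (n1p_single (some none)))).and
    (et (Λ := AlgebraicClosure M) (n1p_single none))).and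
    ((hX.gn_smAll (E := fun _ => mons k X.N d) hσ.le hp (fun _ => mons_hom)
      fun _ => hF.big).compP (e := fun p => (some (some p.1), p.2)) fun p q h => by
        simpa [Prod.ext_iff] using h)).and
    (Gn.ball S.finite_toSet fun x hx => ((hX.gn_etP hι hd hp ((hS x hx).map ψ)).and
      (gn_ne' (k := k) d ((hS x hx).map ψ).1 none)).and
        (hX.gn_smf hσ hd hp fun j => ψ (x j)))).and
    ((Var.gn_b1_opt hX.dim (ι := Option σ) (by simpa using hσ) hH
      (fun h => hI ⟨⟨m, hH⟩, h⟩) d).compP (e := fun p => (skip p.1, p.2)) fun p q h => by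
        simpa [Prod.ext_iff, skip, (Option.map_injective (Option.some_injective _)).eq_iff]
          using h)).and
    (Gn.ball (s := {p ∈ (S : Set _) ×ˢ (S : Set _) | ∀ u : M, p.2 ≠ u • p.1})
      ((S.finite_toSet.prod S.finite_toSet).subset fun _ h => h.1) fun p hp =>
        gn_sepP (k := k) (i := some none) (i' := none) hd0 (by simp) (hS _ hp.1.1).1
          hp.2)).exists
  rw [sys_mons] at a5
  obtain ⟨c, Φ, h1, h2, h3, h4, -⟩ := hX.chart_of hσ hd0 (forms_hom a) a1 a2 a3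
    ((S.finite_toSet.image fun x i => aeval (fun j => ψ (x j)) (forms a i)).insert
      (Pi.single none 1)) (by
      rintro y (rfl | ⟨x, hx, rfl⟩)
      · refine ⟨by simp, a4, ?_⟩
        simpa [← Pi.zero_def] using Var.SmAll.smF hX hσ (forms_hom a) a5
      · exact ⟨(a6 x hx).1.2, (a6 x hx).1.1, (a6 x hx).2 (a6 x hx).1.2⟩)
    (M := k) (Q := fun j : Empty => j.elim) fun j => j.elim
  have h0 : ∀ x ∈ S, aeval x (forms a none) ≠ 0 := fun x hx e =>
    (a6 x hx).1.2 (by rw [← comp_aeval_apply]; exact (congrArg ψ e).trans (map_zero ψ))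
  refine ⟨c, Φ, h1, h3, fun e => h4 _ (Or.inl rfl) (by simp [PChart.brs, e]), fun x hx =>
    ⟨h2 ▸ h0 x hx, fun e => h4 _ (Or.inr ⟨x, hx, rfl⟩) ?_⟩, fun Ω _ _ x hx h5 h6 => ?_,
    fun x hx x' hx' e => by_contra fun h5 => a8 (x, x') ⟨⟨hx, hx'⟩, not_exists.1 h5⟩ ?_⟩
  · have e1 := congrArg ψ e
    rw [← aeval_def, map_zero, comp_aeval_apply] at e1
    simpa only [Chart.xi, h2, ← aeval_def, map_div₀, comp_aeval_apply] using e1
  · obtain ⟨_ | i, hi⟩ := a7 Ω x hx
    · exact hi h6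
    · exact hi (by have h7 := h5 i; rwa [h2] at h7)
  · simp only [Chart.xi, h2, ← aeval_def] at e
    exact ((div_eq_div_iff (h0 x hx) (h0 x' hx')).1 e).symm

theorem n1p_thm : N1p := n1s_thm.n1p

theorem Gn.opt2 [Infinite k] {σ μ : Type} {S : (Option (Option σ) × μ → k) → Prop} (h : Gn k S) :
    Gn k fun a : σ × μ → k => ∃ b, S b ∧ ∀ i m, b (some (some i), m) = a (i, m) := by
  obtain ⟨a₀, h3⟩ := h.opt.exists
  obtain ⟨a₁, h4⟩ := h3.opt.exists
  exact h4.mono fun a ha => ⟨_, ha, fun _ _ => rfl⟩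

/-- generic members of the system of the jets are the fibre forms of a chart -/
theorem Var.Nice.gn_zch [Infinite k] (hX : X.Nice n) (hσ : Fintype.card σ + 1 = n)
    {J : Jets k X.N} (hJ : X.JOk J) (hp : (d : k) ≠ 0) {E : Mon X.N d → Fm X.N k}
    (hE : ∀ m, J.Van d (E m)) (hb : Big E) : Gn k fun a : σ × Mon X.N d → k =>
      ∃ (c : Chart k σ X.N (X.IK k)) (Φ : MP σ k), X.ZCh J c Φ ∧ c.d = d ∧
        ∀ i, c.f (some (some i)) = sys (fun _ => E) a i := by
  have hι : Fintype.card (Option (Option σ)) = n + 1 := by simp; omega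
  have hd0 : 0 < d := Nat.pos_of_ne_zero fun e => hp (by rw [e, Nat.cast_zero])
  have hF := ful_mons X.N hp
  let E' : Option (Option σ) → Mon X.N d → Fm X.N k := fun i =>
    i.elim (mons k X.N d) fun i => i.elim (mons k X.N d) fun _ => E
  have h1 : ∀ i m, (E' i m).IsHomogeneous d := by
    rintro (_ | _ | i) m
    exacts [mons_hom m, mons_hom m, (hE m).1]
  have h2 : ∀ i, Big (E' i) := by
    rintro (_ | _ | i)
    exacts [hF.big, hF.big, hb]
  have et {Λ : Type} [Field Λ] [Algebra k Λ] {y : Option (Option σ) → Λ} (hy : y ≠ 0) :=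
    hX.gn_et0S hι hp h1 h2 (i₀ := none) (i₁ := some none) (by simp) hF hF hy
  refine (((((Var.gn_b1S hX.dim hι hp h1 h2 (i₀ := none) hF).and (et (n1p_gpt k _))).and
    (et (Λ := AlgebraicClosure k) (n1p_single (some none)))).and
    (et (Λ := AlgebraicClosure k) (n1p_single none))).opt2.and (hX.gn_smAll (E := fun _ => E)
      hσ.le hp (fun _ m => (hE m).1) fun _ => hb)).mono fun a ha => ?_
  obtain ⟨b, ⟨⟨⟨a1, a2⟩, a3⟩, a4⟩, hb⟩ := ha.1
  have e0 : ∀ i, sys E' b (some (some i)) = sys (fun _ => E) a i := fun i => by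
    simp only [sys, hb, E', Option.elim_some]
  have a5 : X.SmAll fun i => sys E' b (some (some i)) := by simpa only [e0] using ha.2
  obtain ⟨c, Φ, h5, h6, h7, h8, h9⟩ := hX.chart_of hσ hd0 (f := sys E' b)
    (fun i => sys_hom (h1 i) _) a1 a2 a3
    (Set.finite_singleton (Pi.single none (1 : AlgebraicClosure k))) (by
      rintro y rfl
      refine ⟨by simp, a4, ?_⟩
      simpa [← Pi.zero_def] using Var.SmAll.smF hX hσ (fun i => sys_hom (h1 i) _) a5)
    fun j => (hJ.on j).1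
  have h10 := h8 _ rfl
  have e : (fun i : Option σ => (Pi.single none 1 : Option (Option σ) → AlgebraicClosure k) (some i) /
      (Pi.single none 1 : Option (Option σ) → AlgebraicClosure k) none) = 0 := by
    funext i; simp
  rw [e, PChart.brs, map_mul, aeval_rename] at h10
  have e1 : ∀ i, c.f (some (some i)) = sys (fun _ => E) a i := fun i => by rw [h6, e0]
  refine ⟨c, Φ, ⟨h7, n1p_const (right_ne_zero_of_mul h10), n1p_const (left_ne_zero_of_mul h10),
    h5 ▸ hp, fun i => ?_, by rw [h6]; exact a5, h9⟩, h5, e1⟩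
  rw [e1, h5, sys_self]
  refine Jets.Van.of_span (s := Set.range E) (by rintro _ ⟨m, rfl⟩; exact hE m) ?_
  exact sum_mem fun m _ => by
    rw [← smul_eq_C_mul]
    exact Submodule.smul_mem _ _ (Submodule.subset_span ⟨m, rfl⟩)

theorem zex_thm : ZEX := fun k _ _ X n hX σ _ hσ J hJ => by
  obtain ⟨d₂, h⟩ := hJ.big
  refine ⟨d₂, fun d hd hp => ?_⟩
  obtain ⟨E, h1, h2⟩ := J.exists_span d
  obtain ⟨a, c, Φ, h3, h4, -⟩ :=
    (hX.gn_zch hσ hJ hp h1 (h d hd hp _ E (fun m => (h1 m).1) h2)).exists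
  exact ⟨c, Φ, h3, h4⟩

end Pool.Agent.ZCy
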