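import Pool.Agent.Lib.MP_751085_ag.ZF.C.Defs

/-! Transport of charts with smooth fibre curves. -/

namespace Pool.Agent.ZCy

open scoped Classical Polynomial
open MvPolynomial

variable {R S : Type} [CommRing R] [CommRing S] {σ : Type} {N : ℕ} {GG : Set (Fm N R)}

theorem dr_map {T : Type} [CommRing T] (φ : R →+* S) (ψ : S →+* T) (x v : Fin (N + 1) → T)
    (G : Fm N R) : dr ψ x v (map φ G) = dr (ψ.comp φ) x v G := by
  simp only [dr, pderiv_map, eval₂_map]

theorem transp_add (φ : R →+* S) (x v : Fin (N + 1) → S) (G H : Fm N R) :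
    dr φ x v (G + H) = dr φ x v G + dr φ x v H := by
  simp only [dr, map_add, eval₂_add, add_mul, Finset.sum_add_distrib]

theorem transp_mul (φ : R →+* S) (x v : Fin (N + 1) → S) (G H : Fm N R) :
    dr φ x v (G * H) = eval₂ φ x G * dr φ x v H + eval₂ φ x H * dr φ x v G := by
  simp only [dr, Derivation.leibniz, smul_eq_mul, eval₂_add, eval₂_mul, add_mul,
    Finset.sum_add_distrib, Finset.mul_sum, mul_assoc]

theorem dr_sum {ι : Type} (φ : R →+* S) (x v : Fin (N + 1) → S) (s : Finset ι) (a : ι → R)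
    (G : ι → Fm N R) : dr φ x v (∑ i ∈ s, C (a i) * G i) = ∑ i ∈ s, φ (a i) * dr φ x v (G i) := by
  simp only [dr, map_sum, pderiv_C_mul, eval₂_sum, eval₂_mul, eval₂_C, Finset.sum_mul,
    Finset.mul_sum, mul_assoc]
  exact Finset.sum_comm

theorem dr_span {φ : R →+* S} {x v : Fin (N + 1) → S} (h : Zer GG φ x)
    (h' : ∀ G ∈ GG, dr φ x v G = 0) {G : Fm N R} (hG : G ∈ Ideal.span GG) : dr φ x v G = 0 := by
  induction hG using Submodule.span_induction with
  | mem G hG => exact h' G hG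
  | zero => simp [dr]
  | add G H _ _ h1 h2 => rw [transp_add, h1, h2, add_zero]
  | smul a G hG h1 => rw [smul_eq_mul, transp_mul, h1, h.span hG, mul_zero, zero_mul, add_zero]

theorem Chart.SM.map {GG' : Set (Fm N S)} {c : Chart R σ N GG} {c' : Chart S σ N GG'}
    {φ : R →+* S} {Φ : MP σ R} (h : c.SM Φ) (hc : c.IsMap φ c')
    (hG : ∀ G ∈ GG, MvPolynomial.map φ G ∈ Ideal.span GG') : c'.SM (MvPolynomial.map φ Φ) := by
  intro Ω _ ψ b hb x h0 hx hf
  rw [eval₂_map] at hb
  obtain ⟨w, hw⟩ := h Ω (ψ.comp φ) b hb x h0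
    (fun G h1 => by rw [← eval₂_map]; exact hx.span (hG G h1))
    (fun i => by simpa only [hc.f, eval₂_map] using hf i)
  refine ⟨w, fun v h1 h2 => hw v (fun G h3 => ?_) fun i => ?_⟩
  · rw [← dr_map]
    exact dr_span hx h1 (hG G h3)
  · simpa only [hc.f, dr_map] using h2 i

theorem Chart.SM.hyp {GG' : Set (Fm N R)} {c : Chart R (Option σ) N GG} {c' : Chart R σ N GG'}
    {Φ : MP (Option σ) R} (h : c.SM Φ) (hc : c.IsHyp c')
    (hG : ∀ G ∈ insert (c.f (some (some none))) GG, G ∈ Ideal.span GG') : c'.SM (hyp0 Φ) := by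
  intro Ω _ ψ b hb x h0 hx hf
  rw [eval₂_hyp0] at hb
  have e0 : c'.f none = c.f none := hc.f none
  have e1 : ∀ i, c'.f (some (some i)) = c.f (some (some (some i))) := fun i => hc.f _
  obtain ⟨w, hw⟩ := h Ω ψ _ hb x h0 (fun G h1 => hx.span (hG G (Set.mem_insert_of_mem _ h1)))
    (fun i => by
      cases i with
      | none => simpa using hx.span (hG _ (Set.mem_insert _ _))
      | some i => simpa only [e0, e1, Option.elim_some] using hf i)
  refine ⟨w, fun v h1 h2 => hw v (fun G h3 => dr_span hx h1 (hG G (Set.mem_insert_of_mem _ h3)))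
    fun i => ?_⟩
  cases i with
  | none => simpa using dr_span hx h1 (hG _ (Set.mem_insert _ _))
  | some i => simpa only [e0, e1, Option.elim_some] using h2 i

theorem Chart.SM.mul {c : Chart R σ N GG} {Φ : MP σ R} (h : c.SM Φ) (Φ' : MP σ R) :
    c.SM (Φ * Φ') := fun Ω _ φ b hb => h Ω φ b (left_ne_zero_of_mul (by rwa [eval₂_mul] at hb))

theorem PChart.IsMap.brs {c : PChart R σ} {φ : R →+* S} {c' : PChart S σ} (h : c.IsMap φ c')
    (Φ : MP σ R) : c'.brs (map φ Φ) = map φ (c.brs Φ) := by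
  rw [PChart.brs, PChart.brs, h.Ψ, map_mul, map_up]

theorem PChart.IsHyp.brs {c : PChart R (Option σ)} {c' : PChart R σ} (h : c.IsHyp c')
    (Φ : MP (Option σ) R) : c'.brs (hyp0 Φ) = hyp (c.brs Φ) := by
  rw [PChart.brs, PChart.brs, h.Ψ, map_mul, hyp_up]

theorem CHvS.map (h : CHvS σ GG) (ρ : R →+* S) : CHvS σ (map ρ '' GG) := fun Ω _ φ x h0 hx => by
  have := φ.domain_nontrivial
  obtain ⟨c, Φ, h1, h2, h3⟩ := h Ω (φ.comp ρ) x h0 (Zer.map_image.1 hx)
  obtain ⟨c', hc⟩ := c.exists_map_image ρ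
  refine ⟨c', MvPolynomial.map ρ Φ, by simpa [hc.d] using h1.map ρ,
    h2.map hc fun G hG => Ideal.subset_span ⟨G, hG, rfl⟩, ?_⟩
  rw [hc.p.brs, hc.off]
  exact h3

theorem transp_cancel {T : Type} [CommRing T] {GG' : Set (Fm N S)} {GG'' : Set (Fm N T)}
    {c : Chart R σ N GG} {c' : Chart S σ N GG'} {c'' : Chart T σ N GG''} {φ : R →+* S}
    {ψ : S →+* T} (h : c.IsMap φ c') (h' : c.IsMap (ψ.comp φ) c'') : c'.IsMap ψ c'' := by
  have e : ∀ p : (MP (Option σ) R)[X], mq (ψ.comp φ) p = mq ψ (mq φ p) := fun p => by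
    simp only [Polynomial.coe_mapRingHom, Polynomial.map_map]
    congr 1
    exact RingHom.ext fun p => (map_map _ _ _).symm
  exact ⟨⟨h'.p.δ.trans h.p.δ.symm, by rw [h'.p.χ, h.p.χ, e], by rw [h'.p.D, h.p.D, map_map],
    by rw [h'.p.Ψ, h.p.Ψ, map_map], by rw [h'.p.Φ, h.p.Φ, map_map]⟩, h'.d.trans h.d.symm,
    fun i => by rw [h'.f, h.f, map_map], by rw [h'.th, h.th, map_map],
    by rw [h'.l0, h.l0, map_map], fun j => by rw [h'.pp, h.pp, e]⟩

variable [Fintype σ]

theorem Chart.SM.lin {c c' : Chart R σ N GG} {L L' : Matrix σ σ R} {Φ : MP σ R} (h : c.SM Φ)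
    (hc : c.IsLin c' L L') : c'.SM (aff 0 L Φ) := by
  intro Ω _ φ b hb x h0 hx hf
  rw [eval₂_aff] at hb
  have key : ∀ (y : σ → Ω) (t : Ω), (∀ i, ∑ j, φ (L' i j) * y j = b i * t) →
      ∀ i, y i = (φ ((0 : σ → R) i) + ∑ j, φ (L i j) * b j) * t := fun y t h1 i => by
    rw [← caff_inv hc.inv φ y i, Pi.zero_apply, map_zero, zero_add, Finset.sum_mul]
    simp only [h1, mul_assoc]
  obtain ⟨w, hw⟩ := h Ω φ _ hb x h0 hx (key _ _ fun i => by
    simpa only [hc.f, hc.f0, eval₂_sum, eval₂_mul, eval₂_C] using hf i)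
  exact ⟨w, fun v h1 h2 => hw v h1 (key _ _ fun i => by
    simpa only [hc.f, hc.f0, dr_sum] using h2 i)⟩

theorem Chart.exists_isLin [Nontrivial R] (c : Chart R σ N GG) {L L' : Matrix σ σ R}
    (h : L * L' = 1) : ∃ c', c.IsLin c' L L' := by
  obtain ⟨q, hδ, hχ, hD, hΨ, hΦ⟩ := c.toPChart.exists_aff 0 L
  have h1 : extM L * extM L' = 1 := by rw [extM_mul, h, extM_one]
  have h2 : extM L' * extM L = 1 := mul_eq_one_comm.1 h1
  let A : MP (Option σ) R →+* MP (Option σ) R := aff 0 (extM L)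
  have e : ∀ G, sb (fun j => (c.pp j).map A) G = (sb c.pp G).map A := fun G => by
    rw [map_sb (RingHom.id R) A (fun a => by simp [A, aff]) c.pp G, map_id]
  let f' : Option (Option σ) → Fm N R := fun i => i.elim (c.f none) fun i =>
    ∑ j, C (extM L' i j) * c.f (some j)
  have hf' : ∀ (Ω : Type) [Field Ω] (φ : R →+* Ω) (x : Fin (N + 1) → Ω) (i : Option σ),
      ∑ j, φ (extM L i j) * eval₂ φ x (f' (some j)) = eval₂ φ x (c.f (some i)) :=
    fun Ω _ φ x i => by
      simp only [f', Option.elim_some, eval₂_sum, eval₂_mul, eval₂_C]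
      exact caff_inv h1 φ (fun j => eval₂ φ x (c.f (some j))) i
  refine ⟨⟨q, c.d, f', c.th, c.l0, fun j => (c.pp j).map A, c.dpos, fun i => ?_, c.hth, c.hl,
    fun G hG => ?_, fun i => ?_, ?_, fun Ω _ φ ξ θ => ?_, fun Ω _ φ x ξ θ hx h3 h4 h5 => ?_,
    fun j => ?_⟩, h, hδ, hχ, hD, hΨ, rfl, rfl, rfl, fun _ => rfl, rfl, ?_, fun i => ?_⟩
  · cases i with
    | none => exact c.hf none
    | some i => exact IsHomogeneous.sum _ _ _ fun j _ => (c.hf _).C_mul _
  · rw [e, hχ]
    exact Polynomial.map_dvd A (c.dv_on G hG)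
  · have h3 : ∀ j, q.χ ∣ sb (fun j => (c.pp j).map A) (c.f (some j)) -
        Polynomial.C (∑ l, C (extM L j l) * X l) *
          sb (fun j => (c.pp j).map A) (c.f none) := fun j => by
      have h4 := Polynomial.map_dvd A (c.dv_f j)
      rw [Polynomial.map_sub, Polynomial.map_mul, ← e, ← e, ← hχ, Polynomial.map_C] at h4
      simpa only [A, aff, RingHom.coe_coe, aeval_X, Pi.zero_apply, map_zero, zero_add] using h4
    have h5 := Finset.dvd_sum fun j (_ : j ∈ Finset.univ) =>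
      (h3 j).mul_left (Polynomial.C (C (extM L' i j)))
    have h6 := congrArg Polynomial.C (caff_inv h2 (C : R →+* MP (Option σ) R) X i)
    refine h5.trans (dvd_of_eq ?_)
    have h7 : ∀ a : R, sb (fun j => (c.pp j).map A) (C a) = Polynomial.C (C a) := fun a => by
      simp [sb]
    simp only [f', Option.elim_some, Option.elim_none, map_sum (sb _), map_mul (sb _), h7]
    rw [← h6, map_sum, Finset.sum_mul, ← Finset.sum_sub_distrib]
    refine Finset.sum_congr rfl fun j _ => ?_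
    rw [map_mul]
    ring
  · have h3 := Polynomial.map_dvd A c.dv_th
    rwa [Polynomial.map_sub, Polynomial.map_mul, ← e, ← e, ← hχ, Polynomial.map_X] at h3
  · change _ → _ → ev φ ξ θ (sb _ (c.f none)) ≠ 0 ∧ _
    rw [e, e, hχ, hD, caff_ev, caff_ev, caff_ev, eval₂_aff]
    exact c.ne Ω _ _ θ
  · simp only [hχ, hD, A, caff_ev, eval₂_aff]
    refine c.fro Ω φ x _ θ hx h3 (fun i => ?_) h5
    have h6 := hf' Ω φ x i
    simp only [h4] at h6
    rw [Pi.zero_apply, map_zero, zero_add, Finset.sum_mul]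
    simp only [mul_assoc]
    exact h6.symm
  · obtain ⟨m, H, h3, h4, h5, h6⟩ := c.int j
    let s : Option (Option σ) → MP (Option (Option σ)) R := fun i =>
      i.elim (X none) fun i => ∑ l, C (extM L i l) * X (some l)
    refine ⟨m, H.map (eval₂Hom C s), h3.map _, by rw [h3.natDegree_map, h4],
      fun i => ?_, fun Ω _ φ x hx => ?_⟩
    · rw [Polynomial.coeff_map]
      have h7 := (h5 i).eval₂ (n := 1) C s (fun r => isHomogeneous_C _ r) fun i => by
        cases i with
        | none => exact isHomogeneous_X _ _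
        | some i => exact IsHomogeneous.sum _ _ _ fun l _ => isHomogeneous_C_mul_X _ _
      rwa [one_mul] at h7
    · rw [ev_map, ← h6 Ω φ x hx]
      congr 2
      · ext; simp
      · funext i
        cases i with
        | none => simp [s, f']
        | some i =>
          simp only [s, coe_eval₂Hom, eval₂_X, Option.elim_some, eval₂_mul, eval₂_C,
            eval₂_sum, hf']
  · simp [f', extM, Fintype.sum_option]
  · simp [f', extM, Fintype.sum_option]

theorem Chart.IsLin.brs {c c' : Chart R σ N GG} {L L' : Matrix σ σ R} (hc : c.IsLin c' L L')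
    (Φ : MP σ R) : c'.brs (aff 0 L Φ) = aff 0 (extM L) (c.brs Φ) := by
  rw [PChart.brs, PChart.brs, hc.Ψ, map_mul, aff_up]
  rfl

theorem constantCoeff_aff (L : Matrix σ σ R) (Φ : MP σ R) :
    constantCoeff (aff 0 L Φ) = constantCoeff Φ := by
  have := eval₂_aff (RingHom.id R) 0 L 0 Φ
  simpa using this

omit [Fintype σ] in
/-- Good reduction after a base change `ρ` from the subring `O₀` of `k` to a ring `O`. -/
theorem Var.GoodV.base {k : Type} [Field k] {X : Var k} {c : Chart k σ X.N (X.IK k)} {Φ : MP σ k}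
    {O₀ : Subring k} (h : X.GoodV c Φ O₀) {O K : Type} [CommRing O] [Nontrivial O] [Field K]
    [Algebra k K] [Algebra O K] (ρ : O₀ →+* O) (hρ : ∀ a, algebraMap O K (ρ a) = algebraMap k K a) :
    ∃ (GG : Set (Fm X.N O)) (c' : Chart O σ X.N GG) (Φ' : MP σ O) (c'' : Chart K σ X.N (X.IK K)),
      GG.Finite ∧ X.Model (K := K) GG ∧ CHvS σ GG ∧ c.IsMap (algebraMap k K) c'' ∧
      c'.IsMap (algebraMap O K) c'' ∧ map (algebraMap O K) Φ' = map (algebraMap k K) Φ ∧
      c'.SM Φ' ∧ IsUnit (constantCoeff Φ') ∧ IsUnit (constantCoeff c'.Ψ) ∧ IsUnit (c'.d : O) := by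
  obtain ⟨G₀, c₀, Φ₀, h1, h2, h3, h4, h5, h6, h7, h8, h9⟩ := h
  have e : (algebraMap O K).comp ρ = (algebraMap k K).comp O₀.subtype := RingHom.ext hρ
  obtain ⟨c', hc'⟩ := c₀.exists_map_image ρ
  obtain ⟨c'', hc''⟩ := c.exists_map (algebraMap k K) (GG' := X.IK K)
    (fun G hG => Ideal.subset_span (by rwa [X.IK_self]))
    (fun _ _ _ _ hx => by rw [X.IK_self]; exact Zer.map_image.1 hx)
  refine ⟨_, c', MvPolynomial.map ρ Φ₀, c'', h1.image _, ⟨?_, ?_⟩, h3.map ρ, hc'',
    transp_cancel hc' (e ▸ h4.trans hc''), by rw [← h5, map_map, map_map, e],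
    h6.map hc' fun G hG => Ideal.subset_span ⟨G, hG, rfl⟩,
    by simpa only [constantCoeff_map] using h7.map ρ,
    by simpa only [hc'.p.Ψ, constantCoeff_map] using h8.map ρ, by simpa [hc'.d] using h9.map ρ⟩
  · rintro _ ⟨G, hG, rfl⟩
    obtain ⟨m, hm⟩ := h2.1 G hG
    exact ⟨m, hm.map ρ⟩
  · have e2 : MvPolynomial.map (algebraMap O K) '' (MvPolynomial.map ρ '' G₀) =
        MvPolynomial.map (algebraMap k K) '' (MvPolynomial.map O₀.subtype '' G₀) := by
      rw [Set.image_image, Set.image_image]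
      exact Set.image_congr fun G _ => by rw [map_map, map_map, e]
    have e3 : Ideal.span (MvPolynomial.map O₀.subtype '' G₀) = Ideal.span X.I :=
      X.IK_self ▸ h2.2
    rw [e2, Var.IK, ← Ideal.map_span, e3, Ideal.map_span]

end Pool.Agent.ZCy
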