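import Pool.Agent.Lib.MP_751085_ag.ZF.C.Defs

/-! The main statement of the geometric block. -/

namespace Pool.Agent.ZCy

open scoped Classical Polynomial Topology
open MvPolynomial

/-- The choice of the section `Y` and of the curves on it. `Gd` is any notion of good reduction of
a chart, `Lf` any property of hyperplanes that holds for almost all members of general pencils. -/
def CMainS : Prop := ∀ (k : Type) [Field k] [Infinite k] (V : Type) (R : V → ValuationSubring k)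
  (K : V → Type) [∀ v, Field (K v)] [∀ v, Algebra k (K v)] [∀ v, TopologicalSpace (K v)]
  [∀ v, IsTopologicalRing (K v)], (∀ v, R v ≠ ⊤) → WApx R K →
  ∀ (X : Var k) (n : ℕ), X.Nice n → 4 ≤ n → ∀ (σ : Type) [Fintype σ], Fintype.card σ + 2 = n →
  ∀ J : Jets k X.N, X.JOk J → ∃ d₂ : ℕ,
  ∀ Gd : Chart k (Option σ) X.N (X.IK k) → MP (Option σ) k → V → Prop,
    (∀ c Φ, X.ZCh J c Φ → ∀ᶠ v in Filter.cofinite, Gd c Φ v) →
  ∀ Lf : Chart k (Option σ) X.N (X.IK k) → MP (Option σ) k → (Option σ → k) → Prop,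
    (∀ c Φ, X.ZCh J c Φ → Pen (Lf c Φ)) →
  ∀ c₀ Φ₀, X.ZCh J c₀ Φ₀ → ∀ S : Finset V, (∀ v ∉ S, Gd c₀ Φ₀ v) →
  ∀ d, d₂ ≤ d → c₀.d ≤ d → (d : k) ≠ 0 → ∀ (fv : ∀ v, Option σ → Fm X.N (K v))
    (W : ∀ v, Option σ → Set ((Fin (X.N + 1) →₀ ℕ) → K v)),
    (∀ v ∈ S, ∀ i, J.VanK d (K v) (fv v i) ∧ W v i ∈ 𝓝 (cf (fv v i))) →
  ∃ (c c' : Chart k (Option σ) X.N (X.IK k)) (Φ : MP (Option σ) k)
    (L L' : Matrix (Option σ) (Option σ) k) (Y : Gen k X.N) (c'' : Chart k σ X.N (Y.var.IK k)),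
    X.ZCh J c Φ ∧ c.d = d ∧ Lf c Φ (L' none) ∧ c.IsLin c' L L' ∧ c'.SM (aff 0 L Φ) ∧
    Y.var.Nice (n - 1) ∧ X.Sec Y (c'.f (some (some none))) ∧ X.Sm (c'.f (some (some none))) ∧
    c'.IsHyp c'' ∧
    c''.SM (hyp0 (aff 0 L Φ)) ∧ ∀ v, ∃ (C : Gen k X.N) (g : Option σ → Fm X.N k),
      C.var.Nice 1 ∧ X.Cut C g ∧ (∀ i, J.Van d (g i)) ∧
      (∀ (M : Type) [Field M] [Algebra k M] (x : Fin (X.N + 1) → M), C.var.On x → Y.var.On x) ∧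
      (v ∈ S → ∀ i, cf (map (algebraMap k (K v)) (g i)) ∈ W v i) ∧
      (v ∉ S → ∃ cb Φb, X.ZCh J cb Φb ∧ c₀.d ≤ cb.d ∧ Gd cb Φb v ∧ ∃ e : ℕ, ∀ i m,
        (R v).valuation (coeff m (g i - cb.l0 ^ e * cb.f (some (some i)))) < 1)

end Pool.Agent.ZCy
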