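import Pool.Agent.Lib.MP_751085_ag.ZF.C.Lin
import Pool.Agent.Lib.MP_751085_ag.ZC.CY5

/-! The fibre curve as a nice variety. -/

namespace Pool.Agent.ZCy

open scoped Classical Polynomial
open MvPolynomial

section

variable {R : Type} [CommRing R] {σ : Type} {N : ℕ}

/-- restriction to the line `ξ_1 = … = ξ_(n-1) = 0` -/
noncomputable def rl : MP (Option σ) R →+* MP (Option Empty) R :=
  subO (RingHom.id R) fun _ => 0

theorem fibp_eval₂ {S : Type} [CommRing S] (φ : R →+* S) (ξ : Option Empty → S)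
    (p : MP (Option σ) R) :
    eval₂ φ ξ (rl p) = eval₂ φ (fun i => i.elim (ξ none) fun _ => 0) p := by
  have : (eval₂Hom φ ξ).comp (rl (σ := σ)) = eval₂Hom φ fun i => i.elim (ξ none) fun _ => 0 := by
    ext : 1
    · ext : 1; simp [rl, subO]
    · rename_i i
      cases i <;> simp [rl, subO]
  exact DFunLike.congr_fun this p

theorem fibp_ev {S : Type} [CommRing S] (φ : R →+* S) (ξ : Option Empty → S) (θ : S)
    (p : (MP (Option σ) R)[X]) :
    ev φ ξ θ (p.map rl) = ev φ (fun i => i.elim (ξ none) fun _ => 0) θ p := by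
  rw [ev_def, ev_def, Polynomial.eval₂_map]
  congr 1
  exact RingHom.ext fun q => fibp_eval₂ φ ξ q

/-- The restriction of a chart to the fibre curve over the origin. -/
theorem Chart.exists_rl [Nontrivial R] {GG : Set (Fm N R)} (c : Chart R σ N GG) :
    ∃ c' : Chart R Empty N (GG ∪ Set.range fun i => c.f (some (some i))),
      c'.χ = c.χ.map rl ∧ c'.D = rl c.D ∧ c'.pp = fun j => (c.pp j).map rl := by
  have e : ∀ G, sb (fun j => (c.pp j).map rl) G = (sb c.pp G).map rl := fun G => by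
    rw [map_sb (RingHom.id R) rl (fun a => by simp [rl, subO]) c.pp G, map_id]
  have hz : ∀ (Ω : Type) [Field Ω] (ψ : R →+* Ω) (x : Fin (N + 1) → Ω),
      Zer (GG ∪ Set.range fun i => c.f (some (some i))) ψ x →
      Zer GG ψ x ∧ ∀ i, eval₂ ψ x (c.f (some (some i))) = 0 := fun _ _ _ _ hx =>
    ⟨fun G hG => hx G (Or.inl hG), fun i => hx _ (Or.inr ⟨i, rfl⟩)⟩
  obtain ⟨p, hχ, hD⟩ : ∃ p : PChart R Empty, p.χ = c.χ.map rl ∧ p.D = rl c.D :=
    ⟨c.toPChart.sub (RingHom.id R) (fun _ => 0) (fun _ => by simp) fun _ => map_zero _, rfl, rfl⟩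
  refine ⟨⟨p, c.d, fun i => c.f (i.map (Option.map Empty.elim)), c.th, c.l0,
    fun j => (c.pp j).map rl, c.dpos, fun i => c.hf _, c.hth, c.hl, fun G hG => ?_, fun i => ?_, ?_,
    fun Ω _ ψ ξ θ => ?_, fun Ω _ ψ x ξ θ hx h3 h4 h5 => ?_, fun j => ?_⟩, hχ, hD, rfl⟩
  · rw [e, hχ]
    rcases hG with hG | ⟨i, rfl⟩
    · exact Polynomial.map_dvd rl (c.dv_on G hG)
    · have h := Polynomial.map_dvd rl (c.dv_f (some i))
      rw [Polynomial.map_sub, Polynomial.map_mul, Polynomial.map_C] at h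
      simpa [rl, subO] using h
  · rcases i with _ | i
    · have h := Polynomial.map_dvd rl (c.dv_f none)
      rw [Polynomial.map_sub, Polynomial.map_mul, ← e, ← e, ← hχ, Polynomial.map_C] at h
      have e1 : (rl (X (none : Option σ)) : MP (Option Empty) R) = X none := by simp [rl, subO]
      rwa [e1] at h
    · exact i.elim
  · have h := Polynomial.map_dvd rl c.dv_th
    rwa [Polynomial.map_sub, Polynomial.map_mul, ← e, ← e, ← hχ, Polynomial.map_X] at h
  · rw [e, e, hχ, hD, fibp_ev, fibp_ev, fibp_ev, fibp_eval₂]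
    exact c.ne Ω _ _ θ
  · simp only [hχ, hD, fibp_ev, fibp_eval₂]
    refine c.fro Ω ψ x _ θ (hz Ω ψ x hx).1 h3 (fun i => ?_) h5
    rcases i with _ | i
    · exact h4 none
    · exact ((hz Ω ψ x hx).2 i).trans (zero_mul _).symm
  · obtain ⟨m, H, h3, h4, h5, h6⟩ := c.int j
    let s : Option (Option σ) → MP (Option (Option Empty)) R := fun i =>
      i.elim (X none) fun j => j.elim (X (some none)) fun _ => 0
    refine ⟨m, H.map (eval₂Hom C s), h3.map _, by rw [h3.natDegree_map, h4],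
      fun i => ?_, fun Ω _ ψ x hx => ?_⟩
    · rw [Polynomial.coeff_map]
      have h := (h5 i).eval₂ (n := 1) C s (fun r => isHomogeneous_C _ r) fun i => by
        rcases i with _ | _ | i
        exacts [isHomogeneous_X _ _, isHomogeneous_X _ _, isHomogeneous_zero _ _ _]
      rwa [one_mul] at h
    · rw [ev_map, ← h6 Ω ψ x (hz Ω ψ x hx).1]
      congr 2
      · ext; simp
      · funext i
        rcases i with _ | _ | i <;> simp [s, (hz Ω ψ x hx).2]

end

variable {k : Type} [Field k] {σ : Type}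

/-- A monic polynomial with an irreducible image is irreducible. -/
theorem gi_of_line {σ' : Type} {c : PChart k σ} {c' : PChart k σ'} {s : σ → MP σ' k}
    (h0 : ∀ i, constantCoeff (s i) = 0) (_h1 : ∀ i, (s i).totalDegree ≤ 1)
    (hc : c'.χ = c.χ.map (subO (RingHom.id k) s))
    (h : Irreducible (c.χ.map
      (line (algebraMap k (AlgebraicClosure k)) 0 (Pi.single none 1)))) : c'.GI := by
  refine Polynomial.Monic.irreducible_of_irreducible_map
    (line (RingHom.id (AlgebraicClosure k)) 0 (Pi.single none 1)) _ (c'.monic.map _) ?_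
  have e1 : ((line (RingHom.id (AlgebraicClosure k)) 0 (Pi.single (none : Option σ') 1)).comp
      (map (algebraMap k (AlgebraicClosure k)))).comp
        (rename some : MP σ' k →ₐ[k] MP (Option σ') k).toRingHom = (Polynomial.C.comp
          (algebraMap k (AlgebraicClosure k))).comp constantCoeff := by
    ext : 1
    · ext : 1; simp [line]
    · simp [line]
  have e2 : ((line (RingHom.id (AlgebraicClosure k)) 0 (Pi.single (none : Option σ') 1)).comp
      (map (algebraMap k (AlgebraicClosure k)))).comp (subO (RingHom.id k) s) =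
      line (algebraMap k (AlgebraicClosure k)) 0 (Pi.single none 1) := by
    ext : 1
    · ext : 1; simp [line, subO]
    · rename_i i
      cases i with
      | none => simp [line, subO]
      | some j =>
        refine Eq.trans ?_ ((DFunLike.congr_fun e1 (s j)).trans ?_)
        · simp [subO]
        · simp [line, h0]
  rwa [hc, Polynomial.coe_mapRingHom, Polynomial.map_map, Polynomial.map_map, e2]

/-- going down -/
theorem gd_prime {A ι : Type} [CommRing A] [IsDomain A] [IsIntegrallyClosed A] [Algebra k A]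
    (f : A →ₐ[k] MP ι k) (p₀ p : Ideal (MP ι k)) [p₀.IsPrime] [p.IsPrime]
    (hi : ∀ a, f a ∈ p₀ → a = 0) {d : ℕ} (hd : 0 < d)
    (hint : ∀ j, ∃ H : A[X], H.Monic ∧ H.eval₂ f.toRingHom (MvPolynomial.X j ^ d) ∈ p₀)
    (h : p₀ ≤ p) (𝔮 : Ideal A) [𝔮.IsPrime] (hp : ∀ a ∈ 𝔮, f a ∈ p) :
    ∃ q : Ideal (MP ι k), q.IsPrime ∧ p₀ ≤ q ∧ q ≤ p ∧ ∀ a, f a ∈ q ↔ a ∈ 𝔮 := by
  let _ : Algebra A (MP ι k ⧸ p₀) := ((Ideal.Quotient.mk p₀).comp f.toRingHom).toAlgebra
  have ea : ∀ a, algebraMap A (MP ι k ⧸ p₀) a = Ideal.Quotient.mk p₀ (f a) := fun _ => rfl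
  have : FaithfulSMul A (MP ι k ⧸ p₀) := (faithfulSMul_iff_algebraMap_injective _ _).2
    ((injective_iff_map_eq_zero _).2 fun a ha => hi a (Ideal.Quotient.eq_zero_iff_mem.1 ha))
  have : Algebra.IsIntegral A (MP ι k ⧸ p₀) := ⟨fun b => by
    obtain ⟨G, rfl⟩ := Ideal.Quotient.mk_surjective b
    induction G using MvPolynomial.induction_on with
    | C a =>
      rw [← algebraMap_eq, ← f.commutes, ← ea]
      exact isIntegral_algebraMap
    | add p q hp hq => exact (map_add (Ideal.Quotient.mk p₀) p q).symm ▸ hp.add hq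
    | mul_X p j hp =>
      rw [map_mul]
      obtain ⟨H, hm, hH⟩ := hint j
      refine hp.mul (IsIntegral.of_pow hd ⟨H, hm, ?_⟩)
      rw [← map_pow]
      exact (Polynomial.hom_eval₂ H f.toRingHom (Ideal.Quotient.mk p₀) _).symm.trans
        (Ideal.Quotient.eq_zero_iff_mem.2 hH)⟩
  have q1 : (p.map (Ideal.Quotient.mk p₀)).IsPrime :=
    Ideal.map_isPrime_of_surjective Ideal.Quotient.mk_surjective (by rwa [Ideal.mk_ker])
  obtain ⟨q, h1, h2, h3⟩ := Ideal.exists_ideal_le_liesOver_of_le (p := 𝔮)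
    (q := (p.map (Ideal.Quotient.mk p₀)).under A) (p.map (Ideal.Quotient.mk p₀))
    fun a ha => Ideal.mem_map_of_mem _ (hp a ha)
  refine ⟨q.comap (Ideal.Quotient.mk p₀), inferInstance, fun G hG => ?_, fun G hG => ?_,
    fun a => ?_⟩
  · rw [Ideal.mem_comap, Ideal.Quotient.eq_zero_iff_mem.2 hG]
    exact q.zero_mem
  · exact (Ideal.mem_quotient_iff_mem h).1 (h1 hG)
  · rw [h3.over]
    rfl

variable [Fintype σ] {X : Var k}

theorem fibp_gen (c : Chart k σ X.N (X.IK k)) (𝔮 : Ideal (MP (Option (Option σ)) k)) [𝔮.IsPrime]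
    {M : Type} [Field M] [Algebra k M] {x : Fin (X.N + 1) → M} (hx : X.Zr x)
    (hf : ∀ a ∈ 𝔮, aeval (fun i => aeval x (c.f i)) a = 0) :
    ∃ (M' : Type) (_ : Field M') (_ : Algebra k M') (z : Fin (X.N + 1) → M'), X.Zr z ∧
      (∀ P, aeval (fun i => aeval z (c.f i)) P = 0 ↔ P ∈ 𝔮) ∧
      ∀ G : Fm X.N k, aeval z G = 0 → aeval x G = 0 := by
  have p1 : (RingHom.ker (scl k X.g)).IsPrime := RingHom.ker_isPrime _
  have p2 : (RingHom.ker (aeval x : Fm X.N k →ₐ[k] M)).IsPrime := RingHom.ker_isPrime _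
  have hI : ∀ G ∈ X.I, G ∈ RingHom.ker (scl k X.g) := by
    rintro G ⟨⟨m, hm⟩, hG⟩
    rw [RingHom.mem_ker, scl_hom hm, hG, map_zero]
  obtain ⟨Ω, _, _, w, hw⟩ := cy3_gen (RingHom.ker (scl k X.g))
  have hz : Zer (X.IK k) (algebraMap k Ω) w :=
    (Var.zer_IK _ fun _ => rfl).2 fun G hG => (hw G).2 (hI G hG)
  obtain ⟨q, _, h1, h2, h3⟩ := gd_prime (aeval c.f) (RingHom.ker (scl k X.g))
    (RingHom.ker (aeval x : Fm X.N k →ₐ[k] M)) (fun a ha => c.indep X a ha) c.dpos (fun j => by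
      obtain ⟨m, H, hm, -, -, hH⟩ := c.int j
      refine ⟨H, hm, (hw _).1 ?_⟩
      rw [← hH Ω _ w hz, ev_def]
      refine (Polynomial.hom_eval₂ H _ (aeval w : Fm X.N k →ₐ[k] Ω).toRingHom _).trans ?_
      congr 1
      · ext <;> simp [aeval_def]
      · simp) (fun G hG => hx.aeval_eq_zero hG) 𝔮
    fun a ha => by rw [RingHom.mem_ker, comp_aeval_apply, hf a ha]
  obtain ⟨M', _, _, z, hq⟩ := cy3_gen q
  refine ⟨M', inferInstance, inferInstance, z, fun G hG => (hq G).2 (h1 (hI G hG)), fun P => ?_,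
    fun G hG => h2 ((hq G).1 hG)⟩
  rw [← h3, ← hq, comp_aeval_apply]

/-- Every point of the fibre curve lies in the closure of the restricted chart. -/
theorem Chart.sec_rl (c : Chart k σ X.N (X.IK k)) (hD : rl c.D ≠ 0) {G : Fm X.N k}
    (hG : G ∈ chJ (c.χ.map rl) fun j => (c.pp j).map rl) {M : Type} [Field M] [Algebra k M]
    {x : Fin (X.N + 1) → M} (hx : X.Zr x) (hf : ∀ i, aeval x (c.f (some (some i))) = 0) :
    aeval x G = 0 := by
  let τ : MP (Option (Option σ)) k →ₐ[k] MP (Option (Option σ)) k := aeval fun i =>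
    i.elim (MvPolynomial.X none) fun j => j.elim (MvPolynomial.X (some none)) fun _ => 0
  have p1 : (RingHom.ker τ).IsPrime := RingHom.ker_isPrime _
  obtain ⟨M', _, _, z, hz, h1, h2⟩ := fibp_gen c (RingHom.ker τ) hx fun a ha => by
    have e := congrArg (aeval fun i => aeval x (c.f i)) (RingHom.mem_ker.1 ha)
    rw [map_zero, comp_aeval_apply] at e
    refine Eq.trans (congrArg (fun t => aeval t a) (funext fun i => ?_)) e
    rcases i with _ | _ | i <;> simp [hf]
  obtain ⟨⟨m, hm⟩, hG⟩ := hG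
  have h0 : eval₂ (algebraMap k M') z (c.f none) ≠ 0 := fun e => by
    have := (h1 (MvPolynomial.X none)).1 (by rw [aeval_X]; exact e)
    simp [τ] at this
  have hξ : (fun i : Option σ => i.elim (c.xi (algebraMap k M') z none) fun _ => 0) =
      c.xi (algebraMap k M') z := by
    funext i
    rcases i with _ | i
    · rfl
    · have := (h1 (MvPolynomial.X (some (some i)))).2 (by simp [τ])
      rw [aeval_X, aeval_def] at this
      rw [Option.elim_some, Chart.xi, this, zero_div]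
  have hD' : eval₂ (algebraMap k M') (c.xi (algebraMap k M') z) c.D ≠ 0 := fun e => by
    obtain ⟨E, P, e1, e2⟩ := cy3_hmg c.D
    have e3 := e2 M' (fun i => aeval z (c.f i)) h0
    have e4 : τ P = 0 := (h1 P).1 (e3.trans (mul_eq_zero_of_right _ e))
    have e5 : (rl.comp (deh.comp τ).toRingHom : MP (Option (Option σ)) k →+* _) =
        rl.comp (deh : MP (Option (Option σ)) k →ₐ[k] _).toRingHom := by
      ext : 1
      · ext : 1; simp [τ, deh]
      · rename_i i
        rcases i with _ | _ | i <;> simp [τ, deh, rl, subO]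
    have e6 : rl (deh (τ P)) = rl (deh P) := DFunLike.congr_fun e5 P
    exact hD (by rw [← e1, ← e6, e4, map_zero, map_zero])
  obtain ⟨r, hu⟩ := c.fro M' (algebraMap k M') z (c.xi _ z) (c.tht _ z)
    ((Var.zer_IK _ fun _ => rfl).2 hz) h0 (fun i => (div_mul_cancel₀ _ h0).symm)
    (div_mul_cancel₀ _ h0).symm
  obtain ⟨u, hu⟩ := hu hD'
  have hu' : (fun j => ev (algebraMap k M') (c.xi (algebraMap k M') z)
      (c.tht (algebraMap k M') z) (c.pp j)) = u • z := funext hu
  have u0 : u ≠ 0 := fun e => by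
    have := (c.ne M' _ _ _ r hD').1
    rw [ev_sb, hu', eval₂_smul_hom (c.hf none), e, zero_pow c.dpos.ne', zero_mul] at this
    exact this rfl
  have e := map_dvd (ev (algebraMap k M') (fun _ => c.xi (algebraMap k M') z none)
    (c.tht (algebraMap k M') z)) hG
  rw [fibp_ev, hξ, r, zero_dvd_iff, ev_sb] at e
  simp only [fibp_ev, hξ] at e
  rw [hu', eval₂_smul_hom hm] at e
  exact h2 G ((mul_eq_zero.1 e).resolve_left (pow_ne_zero _ u0))

theorem fib_of (hC : CHFp) (hI : IRRp) : FIB := by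
  intro k _ X n hX σ _ hσ c Φ hsm h0
  obtain ⟨c₁, e1, e2, e3⟩ := c.exists_rl
  have hgi : c₁.GI := gi_of_line (c := c.toPChart) (s := fun _ => 0) (fun _ => map_zero _)
    (fun _ => by simp) e1 (hI k σ X.N (X.IK k) c Φ (fun G hG => (X.IK_self ▸ hG : G ∈ X.I).1)
      (hC k X n hX k σ c hσ).1 hsm h0)
  obtain ⟨Y, g1, g2, g3⟩ := c₁.exists_gen hgi
  have hsub : X.I ⊆ chJ c₁.χ c₁.pp := fun G hG => ⟨hG.1, c₁.dv_on G (Or.inl (X.IK_self ▸ hG))⟩
  have hf : ∀ i, c.f (some (some i)) ∈ chJ c₁.χ c₁.pp := fun i =>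
    ⟨⟨_, c.hf _⟩, c₁.dv_on _ (Or.inr ⟨i, rfl⟩)⟩
  have hcut : X.Cut Y fun i => c.f (some (some i)) := fun M _ _ x =>
    ⟨fun hx => ⟨⟨hx.1, fun G hG => hx.2 G (g3 ▸ hsub hG)⟩, fun i => hx.2 _ (g3 ▸ hf i)⟩, fun hx =>
      ⟨hx.1.1, fun G hG => c.sec_rl (e2 ▸ c₁.D_ne_zero) (by rwa [← e1, ← e3, ← g3])
        hx.1.2 hx.2⟩⟩
  refine ⟨Y, ⟨g1, by rw [g2]; simp, fun x => ?_⟩, hcut⟩
  obtain ⟨x, ⟨i, hi⟩, hx⟩ := x
  obtain ⟨hX', h4⟩ := (hcut _ x).1 ⟨fun e => by simp [e] at hi, hx⟩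
  have h1 := c₁.jac_le hgi.irreducible (x := x) (g3 ▸ hx)
  obtain ⟨w, hw⟩ := hsm _ (algebraMap k (AlgebraicClosure k)) 0
    (fun e => h0 ((map_eq_zero _).1 ((eval₂_zero'_apply _ Φ).symm.trans e))) x hX'.1
    ((Var.zer_IK _ fun _ => rfl).2 hX'.2) fun i => (h4 i).trans (zero_mul _).symm
  have h2 := rank_of_smf (W := Submodule.span _ (grad x '' chJ c₁.χ c₁.pp)) (x := x) (w := w)
    fun v hv => hw v (fun G hG => hv _ (Submodule.subset_span ⟨G, hsub (X.IK_self ▸ hG), rfl⟩))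
      fun i => (hv _ (Submodule.subset_span ⟨_, hf i, rfl⟩)).trans (zero_mul _).symm
  rw [← g3] at h1 h2
  rw [Fintype.card_eq_zero, zero_add] at h1
  exact le_antisymm h1 h2

theorem Var.Nice.sec_chartP (hC : CHFp) (hI : IRRp) {n : ℕ} (hX : X.Nice n)
    (hσ : Fintype.card σ + 2 = n) (c : Chart k (Option σ) X.N (X.IK k)) {Φ : MP (Option σ) k}
    (h : c.SM Φ) (h0 : constantCoeff Φ ≠ 0) (hsm : X.Sm (c.f (some (some none)))) :
    ∃ Y : Gen k X.N, Y.var.Nice (n - 1) ∧ X.Sec Y (c.f (some (some none))) ∧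
      ∃ c' : Chart k σ X.N (Y.var.IK k), c.IsHyp c' :=
  hX.sec_chart hσ c (fun _ hc' => gi_of_line (c := c.toPChart) (s := fun i => i.elim 0 MvPolynomial.X)
    (fun i => by cases i <;> simp) (fun i => by cases i; exacts [by simp, totalDegree_X_le _])
    (by rw [subO_hyp]; exact hc'.χ)
    (hI k (Option σ) X.N (X.IK k) c Φ (fun G hG => (X.IK_self ▸ hG : G ∈ X.I).1)
      (hC k X n hX k (Option σ) c (by rw [Fintype.card_option, ← hσ])).1 h h0)) hsm

end Pool.Agent.ZCy
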