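import Pool.Agent.Lib.MP_751085_ag.ZF.C.Elim
import Pool.Agent.Lib.MP_751085_ag.ZF.C.Trans
import Pool.Agent.Lib.MP_751085_ag.ZC.CSp2
import Pool.Agent.Lib.MP_751085_ag.ZC.CJac

/-! Good reduction almost everywhere. -/

namespace Pool.Agent.ZCy

open scoped Classical Polynomial
open MvPolynomial Filter

section

variable {R S : Type} [CommRing R] [CommRing S] {σ : Type} {N : ℕ} {GG : Set (Fm N R)}

/-- the form that defines the complement of `f_0 Θ ≠ 0` -/
noncomputable def Chart.ufS (c : Chart R σ N GG) (Θ : MP (Option σ) R) : Fm N R :=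
  c.f none * ∑ r ∈ Finset.range (Θ.totalDegree + 1),
    eval₂ C (fun i => c.f (some i)) (homogeneousComponent r Θ) * c.f none ^ (Θ.totalDegree - r)

theorem Chart.off_iff (c : Chart R σ N GG) (Θ : MP (Option σ) R) {Ω : Type} [Field Ω] (φ : R →+* Ω)
    (x : Fin (N + 1) → Ω) : c.Off Θ φ x ↔ eval₂ φ x (c.ufS Θ) ≠ 0 := by
  rw [Chart.Off, Chart.ufS, eval₂_mul, mul_ne_zero_iff, and_congr_right_iff]
  intro h
  have e : eval₂ φ x (∑ r ∈ Finset.range (Θ.totalDegree + 1),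
      eval₂ C (fun i => c.f (some i)) (homogeneousComponent r Θ) *
        c.f none ^ (Θ.totalDegree - r)) =
      eval₂ φ x (c.f none) ^ Θ.totalDegree * eval₂ φ (c.xi φ x) Θ := by
    conv_rhs => rw [← sum_homogeneousComponent Θ]
    rw [eval₂_sum, eval₂_sum, sum_homogeneousComponent, Finset.mul_sum]
    refine Finset.sum_congr rfl fun r hr => ?_
    have e1 : (fun i => eval₂Hom φ x (c.f (some i))) = eval₂ φ x (c.f none) • c.xi φ x :=
      funext fun i => (mul_div_cancel₀ _ h).symm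
    rw [eval₂_mul, eval₂_pow, ← coe_eval₂Hom φ x, ← coe_eval₂Hom C, map_eval₂Hom,
      show (eval₂Hom φ x).comp C = φ from RingHom.ext fun a => eval₂Hom_C _ _ a, e1, coe_eval₂Hom,
      coe_eval₂Hom, eval₂_smul_hom (homogeneousComponent_isHomogeneous r _), mul_right_comm,
      ← pow_add, Nat.add_sub_cancel' (Nat.lt_succ_iff.1 (Finset.mem_range.1 hr))]
  rw [e, mul_ne_zero_iff, and_iff_right (pow_ne_zero _ h)]

theorem Chart.IsMap.ufS {GG' : Set (Fm N S)} {c : Chart R σ N GG} {c' : Chart S σ N GG'}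
    {φ : R →+* S} (h : c.IsMap φ c') (hφ : Function.Injective φ) (Θ : MP (Option σ) R) :
    c'.ufS (map φ Θ) = map φ (c.ufS Θ) := by
  rw [Chart.ufS, Chart.ufS, totalDegree_map_inj hφ, map_mul, map_sum, h.f]
  congr 1
  refine Finset.sum_congr rfl fun r _ => ?_
  have e : homogeneousComponent r (map φ Θ) = map φ (homogeneousComponent r Θ) := by
    ext m
    rw [coeff_map, coeff_homogeneousComponent, coeff_homogeneousComponent, coeff_map]
    split_ifs <;> simp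
  rw [map_mul, map_pow, e, eval₂_map, eval₂_comp_left]
  congr 2
  · exact RingHom.ext fun a => (map_C φ a).symm
  · exact funext fun i => h.f _

theorem gdvp_symm {GG' : Set (Fm N R)} {c : Chart R σ N GG} {c' : Chart R σ N GG'}
    (h : c.IsMap (RingHom.id R) c') : c'.IsMap (RingHom.id R) c := by
  have e : ∀ p : (MP (Option σ) R)[X], mq (RingHom.id R) p = p := fun p => by
    rw [Polynomial.coe_mapRingHom, show map (σ := Option σ) (RingHom.id R) = RingHom.id _ from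
      RingHom.ext MvPolynomial.map_id, Polynomial.map_id]
  have f : ∀ {τ : Type} {p q : MP τ R}, q = map (RingHom.id R) p → p = map (RingHom.id R) q :=
    fun h => by rw [h, MvPolynomial.map_id, MvPolynomial.map_id]
  exact ⟨⟨h.p.δ.symm, by rw [h.p.χ, e, e], f h.p.D, f h.p.Ψ, f h.p.Φ⟩, h.d.symm, fun i => f (h.f i),
    f h.th, f h.l0, fun j => by rw [h.pp, e, e]⟩

end

variable {k : Type} [Field k] {X : Var k} {n : ℕ} {σ : Type} [Fintype σ]

/-- a degree `d ≥ 2` that is prime to the characteristic: `2` or `3` -/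
theorem exists_deg (k : Type) [Field k] : ∃ d : ℕ, 2 ≤ d ∧ (d : k) ≠ 0 := by
  by_cases h : ((2 : ℕ) : k) = 0
  · refine ⟨3, by norm_num, fun h3 => one_ne_zero (α := k) ?_⟩
    have e : ((3 : ℕ) : k) = ((2 : ℕ) : k) + 1 := Nat.cast_succ 2
    rw [h3, h, zero_add] at e
    exact e.symm
  · exact ⟨2, le_rfl, h⟩

omit [Fintype σ] in
theorem gdvp_transfer {GG : Set (Fm X.N k)} (h1 : GG ⊆ X.I) (h2 : ∀ G ∈ X.I, G ∈ Ideal.span GG)
    {c : Chart k σ X.N (X.IK k)} {Φ : MP σ k} (h : c.SM Φ) :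
    ∃ c' : Chart k σ X.N GG, c.IsMap (RingHom.id k) c' ∧ c'.SM Φ := by
  obtain ⟨c', hc'⟩ := c.exists_transfer (GG' := GG)
    (fun G hG => Ideal.subset_span (X.IK_self ▸ h1 hG)) fun _ _ _ _ hy G hG =>
      hy.span (h2 G (X.IK_self ▸ hG))
  have h3 := h.map hc' fun G hG => by
    rw [MvPolynomial.map_id]
    exact h2 G (X.IK_self ▸ hG)
  rw [MvPolynomial.map_id] at h3
  exact ⟨c', hc', h3⟩

/-- finitely many charts cover `X` -/
theorem Var.Nice.exists_atlasS [Infinite k] (hN : N1p) (hX : X.Nice n)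
    (hσ : Fintype.card σ + 1 = n) {GG : Set (Fm X.N k)} (h1 : GG ⊆ X.I)
    (h2 : ∀ G ∈ X.I, G ∈ Ideal.span GG) : ∃ s : Set (Chart k σ X.N GG × MP σ k), s.Finite ∧
      (∀ p ∈ s, p.1.SM p.2 ∧ (p.1.d : k) ≠ 0) ∧
      ∀ (Ω : Type) [Field Ω] (φ : k →+* Ω) (x : Fin (X.N + 1) → Ω), Zer GG φ x →
        (∀ p ∈ s, eval₂ φ x (p.1.ufS (p.1.brs p.2)) = 0) → x = 0 := by
  let T : Set (Chart k σ X.N GG × MP σ k) := {p | p.1.SM p.2 ∧ (p.1.d : k) ≠ 0}
  let u : Chart k σ X.N GG × MP σ k → Fm X.N k := fun p => p.1.ufS (p.1.brs p.2)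
  obtain ⟨t, ht, hs⟩ := (Submodule.fg_span_iff_fg_span_finset_subset (R := Fm X.N k)
    (u '' T)).1 (IsNoetherian.noetherian _)
  obtain ⟨s, hsT, hf, he⟩ := Set.Finite.exists_subset_finite_image_eq t.finite_toSet ht
  refine ⟨s, hf, hsT, fun Ω _ φ x hx h => by_contra fun h0 => ?_⟩
  let _ := φ.toAlgebra
  obtain ⟨d, hd, hd'⟩ := exists_deg k
  obtain ⟨c, Φ, e1, e2, -, e3, -⟩ := hN k X n hX σ hσ Ω {x}
    (fun y hy => Finset.mem_singleton.1 hy ▸ ⟨h0, fun G hG => hx.span (h2 G hG)⟩) 1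
    ⟨0, isHomogeneous_one _ _⟩ (fun h => one_ne_zero ((map_one _).symm.trans h.2)) d hd hd'
  obtain ⟨c', hc', h4⟩ := gdvp_transfer h1 h2 e2
  have h3 : u (c', Φ) ∈ Ideal.span (t : Set (Fm X.N k)) := by
    rw [Ideal.span, ← hs]
    exact Submodule.subset_span ⟨(c', Φ), ⟨h4, by rw [hc'.d, e1]; exact hd'⟩, rfl⟩
  have h5 := (hc'.off (c.brs Φ) φ x).2 (e3 x (Finset.mem_singleton_self x))
  rw [← hc'.p.brs, MvPolynomial.map_id] at h5
  refine (c'.off_iff _ φ x).1 h5 (Zer.span (fun G hG => ?_) h3)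
  obtain ⟨e, h6, rfl⟩ := he.symm ▸ hG
  exact h e h6

variable {V : Type} {𝓕 : Filter V} {R : V → Subring k}

/-- almost all reductions are covered by charts -/
theorem Var.Nice.chvS_spread [Infinite k] (hN : N1p)
    (hR : ∀ t, ∀ᶠ v in 𝓕, t ∈ (R v).subtype.range) (hX : X.Nice n)
    (hσ : Fintype.card σ + 1 = n) {GG : Set (Fm X.N k)} (hG : GG.Finite) (h1 : GG ⊆ X.I)
    (h2 : ∀ G ∈ X.I, G ∈ Ideal.span GG) :
    ∀ᶠ v in 𝓕, CHvS σ (map (R v).subtype ⁻¹' GG) := by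
  obtain ⟨s, hs, hp, h⟩ := hX.exists_atlasS hN hσ h1 h2
  have := hG.to_subtype
  have := hs.to_subtype
  have hi (v : V) := (R v).subtype_injective
  have e (A Ω : Type) [CommRing A] [CommRing Ω] (ψ : Fm X.N A →+* Ω) (P : Fm X.N A) :
      MvPolynomial.eval₂ (ψ.comp C) (fun i => ψ (MvPolynomial.X i)) P = ψ P := by
    conv_rhs => rw [← eval₂_eta P, eval₂_comp_left]
    rfl
  filter_upwards [eventually_all.2 fun c : s => Chart.spread hR hG c.1.1,
    eventually_all.2 fun c : s => lf_unit hR hi (hp c.1 c.2).2.isUnit,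
    eventually_all.2 fun G : GG => lf_mp hR G.1, eventually_all.2 fun c : s => lf_mp hR c.1.2,
    eventually_all.2 fun c : s => (hp c.1 c.2).1.spread hR hG fun G hG => (h1 hG).1,
    eventually_all.2 fun i => spr (fun v => map (σ := Fin (X.N + 1)) (R v).subtype)
      (fun v => map_injective _ (hi v)) (lf_mp hR)
      (Sum.elim (fun G : GG => G.1) fun c : s => c.1.1.ufS (c.1.1.brs c.1.2))
      (MvPolynomial.X i) fun Ω _ ψ hψ => congrFun (h Ω (ψ.comp C) (fun i => ψ (MvPolynomial.X i))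
        (fun G hG => (e _ _ ψ G).trans (hψ (Sum.inl ⟨G, hG⟩)))
        fun c hc => (e _ _ ψ _).trans (hψ (Sum.inr ⟨c, hc⟩))) i]
    with v h3 h4 h5 k1 k2 h6 Ω _ φ x h0 hx
  choose c' hc' using h3
  choose G' hG' using h5
  choose Φ' hΦ' using k1
  by_contra h7
  refine h0 (funext fun i => ?_)
  have h8 := h6 i (Sum.elim G' fun c => (c' c).ufS ((c' c).brs (Φ' c))) (MvPolynomial.X i) (by
      rintro (G | c)
      · exact hG' G
      · refine ((hc' c).ufS (hi v) _).symm.trans ?_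
        rw [← (hc' c).p.brs, hΦ']
        rfl) (map_X _ _) Ω (eval₂Hom φ x) (by
      rintro (G | c)
      · exact hx _ (show map _ (G' G) ∈ GG from (hG' G).symm ▸ G.2)
      · by_contra h9
        exact h7 ⟨c' c, Φ' c, h4 c _ (by rw [map_natCast, (hc' c).d]), k2 c _ _ (hc' c) (hΦ' c),
          ((c' c).off_iff _ φ x).2 h9⟩)
  rwa [eval₂Hom_X'] at h8

theorem gdv_of (hN : N1p) : GDV := by
  intro k _ _ X n hX σ _ hσ V 𝓕 R hR₀ c Φ h hΦ hΨ hd
  have hR : ∀ t, ∀ᶠ v in 𝓕, t ∈ (R v).subtype.range := fun t =>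
    (hR₀ t).mono fun v hv => ⟨⟨t, hv⟩, rfl⟩
  have hi (v : V) := (R v).subtype_injective
  obtain ⟨G0, h1, h2⟩ := X.exists_GG
  have hG := G0.finite_toSet
  obtain ⟨c₁, hc₁, h3⟩ := gdvp_transfer h1 h2 h
  filter_upwards [Chart.spread hR hG c₁, h3.spread hR hG fun G hG => (h1 hG).1, lf_mp hR Φ,
    lf_unit hR hi hΦ.isUnit, lf_unit hR hi hΨ.isUnit, lf_unit hR hi hd.isUnit,
    hX.chvS_spread hN hR hσ hG h1 h2,
    lf_image (ι := fun v => map (σ := Fin (X.N + 1)) (R v).subtype) (lf_mp hR) hG]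
    with v ⟨c', hc'⟩ k1 ⟨Φ', hΦ'⟩ k2 k3 k4 k5 k6
  have hc : c'.IsMap (R v).subtype c := hc'.trans (gdvp_symm hc₁)
  refine ⟨_, c', Φ', hG.preimage (map_injective _ (hi v)).injOn, ⟨fun G hG => ?_, ?_⟩, k5, hc, hΦ',
    k1 c' Φ' hc' hΦ', k2 _ (by rw [← hΦ', constantCoeff_map]),
    k3 _ (by rw [hc.p.Ψ, constantCoeff_map]), k4 _ (by rw [map_natCast, hc.d])⟩
  · obtain ⟨m, hm⟩ := (h1 hG).1
    exact ⟨m, hm.of_map (hi v)⟩
  · rw [X.IK_self]
    exact (congrArg Ideal.span k6).trans (le_antisymm (Ideal.span_mono h1) (Ideal.span_le.2 h2))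

end Pool.Agent.ZCy
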