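import Pool.Agent.Lib.MP_751085_ag.ZF.C.N1
import Pool.Agent.Lib.MP_751085_ag.ZF.C.Chf
import Pool.Agent.Lib.MP_751085_ag.ZF.C.Fib
import Pool.Agent.Lib.MP_751085_ag.ZF.C.Gdv
import Pool.Agent.Lib.MP_751085_ag.ZF.C.Defs3

/-! The choice of the section and of the curves on it. -/

namespace Pool.Agent.ZCy

open scoped Classical Polynomial Topology
open MvPolynomial Filter

theorem fib_thm (hI : IRRp) : FIB := fib_of chfp_thm hI

theorem gdv_thm : GDV := gdv_of n1p_thm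

theorem mainp_val {k : Type} [Field k] (O : ValuationSubring k) {N : ℕ} {f g h : Fm N k}
    (h1 : ∀ m, O.valuation (coeff m (f - g)) < 1) (h2 : ∀ m, O.valuation (coeff m (g - h)) < 1)
    (m : Fin (N + 1) →₀ ℕ) : O.valuation (coeff m (f - h)) < 1 := by
  rw [← sub_add_sub_cancel f g h, coeff_add]
  exact O.valuation.map_add_lt (h1 m) (h2 m)

theorem cMainS_of (hI : IRRp) : CMainS := by
  intro k _ _ V R K _ _ _ _ hR hW X n hX hn σ _ hσ J hJ
  obtain ⟨d₂, hbig⟩ := hJ.big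
  refine ⟨d₂, fun Gd hGd Lf hLf c₀ Φ₀ hc₀ S hS d hd hd₀ hp fv W hfv => ?_⟩
  have hσ' : Fintype.card (Option σ) + 1 = n := by simpa using hσ
  obtain ⟨E, hE1, hE2⟩ := J.exists_span d
  obtain ⟨P, hP0, hP⟩ := (hX.gn_zch hσ' hJ hp hE1 (hbig d hd hp _ E (fun m => (hE1 m).1) hE2)).opt
  have ext : ∀ a : Mon X.N d → k, MvPolynomial.eval a P ≠ 0 → ∀ S' T : Finset V, S' ⊆ S →
      Disjoint S' T → ∀ g : σ → Fm X.N k, (∀ i, J.Van d (g i)) →
      ∃ (c : Chart k (Option σ) X.N (X.IK k)) (Φ : MP (Option σ) k), X.ZCh J c Φ ∧ c.d = d ∧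
        c.f (some (some none)) = ∑ m, C (a m) * E m ∧ (∀ v ∈ S', ∀ i,
          cf (map (algebraMap k (K v)) (c.f (some (some (some i))))) ∈ W v (some i)) ∧
        ∀ v ∈ T, ∀ i m, (R v).valuation (coeff m (c.f (some (some (some i))) - g i)) < 1 := by
    intro a ha S' T h1 h2 g hg
    obtain ⟨b, ⟨c, Φ, h3, h4, h5⟩, h6, h7⟩ := hW.sys hR E (hP a ha) h2 (fun v i => fv v (some i))
      (fun v i => W v (some i)) (fun v hv i =>
        ⟨(hfv v (h1 hv) _).1.mem_span hE2, (hfv v (h1 hv) _).2⟩) (fun _ => g) fun _ _ i =>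
          hE2 _ (hg i)
    have e : ∀ i, c.f (some (some (some i))) = sys (fun _ => E) b i := fun i => by
      rw [h5, sys_self, sys_self]; rfl
    refine ⟨c, Φ, h3, h4, by rw [h5, sys_self]; rfl, ?_, ?_⟩
    · simpa only [e] using h6
    · simpa only [e] using h7
  have z0 : ∀ _ : σ, J.Van d 0 := fun _ => Jets.Van.of_span (s := ∅) (by simp) (zero_mem _)
  have hl : ∀ i, J.Van d (c₀.l0 ^ (d - c₀.d) * c₀.f (some (some i))) := fun i => by
    have h := (hc₀.van i).mul (c₀.hl.pow (d - c₀.d))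
    rwa [one_mul, Nat.sub_add_cancel hd₀] at h
  obtain ⟨a₁, ha₁, hn₁, -⟩ := hW.sys hR E (ι := Unit) (Gn.compP ⟨P, hP0, fun _ h => h⟩
    (e := fun m => ((), m)) fun _ _ h => (Prod.ext_iff.1 h).2) (Finset.disjoint_empty_right S)
    (fun v _ => fv v none) (fun v _ => W v none)
    (fun v hv _ => ⟨(hfv v hv _).1.mem_span hE2, (hfv v hv _).2⟩) (fun _ _ => 0) (by simp)
  obtain ⟨cA, ΦA, zA, dA, fA, -, -⟩ := ext _ ha₁ ∅ ∅ (by simp) (by simp) _ z0
  obtain ⟨S₁, hS₁, hA⟩ : ∃ S₁ : Finset V, S ⊆ S₁ ∧ ∀ v ∉ S₁, Gd cA ΦA v :=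
    ⟨S ∪ (hGd _ _ zA).toFinset, Finset.subset_union_left, fun v hv => by_contra fun h =>
      hv (Finset.mem_union_right _ ((Set.Finite.mem_toFinset _).2 h))⟩
  obtain ⟨c, Φ, z, dc, fc, nc, cc⟩ :=
    ext _ ha₁ S (S₁ \ S) le_rfl Finset.disjoint_sdiff _ fun _ => hl none
  obtain ⟨S₂, hc⟩ : ∃ S₂ : Finset V, ∀ v ∉ S₂, Gd c Φ v :=
    ⟨(hGd _ _ z).toFinset, fun v hv => by_contra fun h => hv ((Set.Finite.mem_toFinset _).2 h)⟩
  obtain ⟨i₂⟩ : Nonempty σ := Fintype.card_pos_iff.1 (by omega)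
  obtain ⟨α, hα, hα₀⟩ : ∃ α : Option σ → Mon X.N d → k,
      (∀ i, c.f (some (some i)) = ∑ m, C (α i m) * E m) ∧ MvPolynomial.eval (α none) P ≠ 0 := by
    choose α hα using fun i => (Submodule.mem_span_range_iff_exists_fun k).1
      (hE2 _ (dc ▸ z.van (some i)))
    refine ⟨fun i => i.elim _ α, ?_, ha₁⟩
    rintro (_ | i)
    · exact fc
    · simpa only [smul_eq_C_mul, Option.elim_some] using (hα i).symm
  have hρ : ∀ a : Option σ → k, MvPolynomial.eval a (aeval (fun m => ∑ i, C (α i m) *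
      MvPolynomial.X i) P) = MvPolynomial.eval (fun m => ∑ i, α i m * a i) P := fun a => by
    rw [← aeval_eq_eval, ← aeval_eq_eval, comp_aeval_apply]
    simp
  choose r hr0 hr using fun v => exists_small (hR v) fun i => c.f (some (some i))
  obtain ⟨a, h1, h2, h3, h4⟩ := hW.pen (by simp; omega) (hLf c Φ z)
    (ρ := aeval (fun m => ∑ i, C (α i m) * MvPolynomial.X i) P) (fun e => hα₀ (by
      have e1 := hρ (Pi.single none 1)
      rw [e, map_zero] at e1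
      simpa [Pi.single_apply] using e1.symm)) (S₁ ∪ S₂)
    (fun v => Pi.single (if v ∈ S₁ then some i₂ else none) 1) r hr0
  rw [hρ] at h3
  obtain ⟨L, L', hL, rfl⟩ := exists_row h2
  obtain ⟨c', hc'⟩ := c.exists_isLin (L := L) (L' := L')
    (hL.trans (by ext i j; by_cases h : i = j <;> simp [Matrix.one_apply, h]))
  have eY : c'.f (some (some none)) = ∑ m, C (∑ i, α i m * L' none i) * E m := by
    simp only [hc'.f, hα, map_sum, Finset.mul_sum, Finset.sum_mul, map_mul]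
    rw [Finset.sum_comm]
    exact Finset.sum_congr rfl fun _ _ => Finset.sum_congr rfl fun _ _ => by ring
  have cY : ∀ v ∈ S₁ ∪ S₂, ∀ m, (R v).valuation (coeff m (c'.f (some (some none)) -
      c.f (some (some (if v ∈ S₁ then some i₂ else none))))) < 1 := fun v hv m => by
    have h := hr v _ (h4 v hv) m
    simp only [map_sub, sub_mul, Finset.sum_sub_distrib, ← hc'.f] at h
    generalize (if v ∈ S₁ then some i₂ else none) = i at h ⊢
    rwa [Finset.sum_eq_single i (fun j _ hj => by simp [hj]) (by simp), Pi.single_eq_same, map_one,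
      one_mul] at h
  have hsm : X.Sm (c'.f (some (some none))) := by
    obtain ⟨cY, ΦY, zY, dY, fY, -, -⟩ := ext _ h3 ∅ ∅ (by simp) (by simp) _ z0
    rw [eY, ← fY]
    exact zY.all.sm (cY.hf _) zY.dp
  obtain ⟨Y, hY, hsec, c'', hc''⟩ := hX.sec_chartP chfp_thm hI hσ c' (z.sm.lin hc')
    (by rw [constantCoeff_aff]; exact z.Φ0) hsm
  have hYg := (hsec _ Y.g).1 Y.var.on_g
  have crv : ∀ (e : Chart k (Option σ) X.N (X.IK k)) (Ψ : MP (Option σ) k), X.ZCh J e Ψ → e.d = d →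
      (∃ u : Option σ → k, c'.f (some (some none)) = ∑ j, C (u j) * e.f (some (some j))) →
      ∃ C : Gen k X.N, C.var.Nice 1 ∧ (X.Cut C fun i => e.f (some (some i))) ∧
        (∀ i, J.Van d (e.f (some (some i)))) ∧ ∀ (M : Type) [Field M] [Algebra k M]
          (x : Fin (X.N + 1) → M), C.var.On x → Y.var.On x := by
    rintro e Ψ ze de ⟨u, hu⟩
    obtain ⟨C, h5, h6⟩ := fib_thm hI k X n hX _ hσ' e Ψ ze.sm ze.Φ0
    refine ⟨C, h5, h6, fun i => de ▸ ze.van i, fun M _ _ x hx => (hsec M x).2 ⟨((h6 M x).1 hx).1, ?_⟩⟩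
    rw [hu, map_sum]
    exact Finset.sum_eq_zero fun j _ => by rw [map_mul, ((h6 M x).1 hx).2 j, mul_zero]
  refine ⟨c, c', Φ, L, L', Y, c'', z, dc, h1, hc', z.sm.lin hc', hY, hsec, hsm, hc'',
    (z.sm.lin hc').hyp hc'' ?_, fun v => ?_⟩
  · rw [Y.var.IK_self]
    rintro G (rfl | hG)
    · exact Ideal.subset_span ⟨⟨_, c'.hf _⟩, hYg.2⟩
    · rw [X.IK_self] at hG
      exact Ideal.subset_span ⟨hG.1, hYg.1.2 G hG⟩
  by_cases hv : v ∈ S ∨ v ∉ S₁ ∪ S₂
  · obtain ⟨C, h5, h6, h7, h8⟩ := crv c Φ z dc ⟨_, hc'.f none⟩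
    refine ⟨C, _, h5, h6, h7, h8, fun hv' => ?_, fun hv' => ⟨c, Φ, z, dc ▸ hd₀,
      hc v fun h => hv.resolve_left hv' (Finset.mem_union_right _ h), 0, fun i m => by simp⟩⟩
    rintro (_ | i)
    · have h9 := hn₁ v hv' ()
      rwa [sys_self, ← (show _ = ∑ m, MvPolynomial.C (a₁ ((), m)) * E m from fc)] at h9
    · exact nc v hv' i
  rw [not_or, not_not] at hv
  have fin : ∀ (cb : Chart k (Option σ) X.N (X.IK k)) (Φb : MP (Option σ) k) (e : ℕ),
      X.ZCh J cb Φb → c₀.d ≤ cb.d → Gd cb Φb v →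
      (∀ i, J.Van d (cb.l0 ^ e * cb.f (some (some i)))) → (∀ m, (R v).valuation
        (coeff m (c'.f (some (some none)) - cb.l0 ^ e * cb.f (some (some none)))) < 1) →
      ∃ (C : Gen k X.N) (g : Option σ → Fm X.N k),
      C.var.Nice 1 ∧ X.Cut C g ∧ (∀ i, J.Van d (g i)) ∧
      (∀ (M : Type) [Field M] [Algebra k M] (x : Fin (X.N + 1) → M), C.var.On x → Y.var.On x) ∧
      (v ∈ S → ∀ i, cf (map (algebraMap k (K v)) (g i)) ∈ W v i) ∧
      (v ∉ S → ∃ cb Φb, X.ZCh J cb Φb ∧ c₀.d ≤ cb.d ∧ Gd cb Φb v ∧ ∃ e : ℕ, ∀ i m,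
        (R v).valuation (coeff m (g i - cb.l0 ^ e * cb.f (some (some i)))) < 1) := by
    intro cb Φb e zb db gb vb hb
    obtain ⟨ce, Φe, ze, de, fe, -, h9⟩ := ext _ h3 ∅ {v} (by simp) (by simp) _ fun i => vb (some i)
    rw [← eY] at fe
    obtain ⟨C, h5, h6, h7, h8⟩ := crv ce Φe ze de
      ⟨Pi.single none 1, by simp [Pi.single_apply, apply_ite, fe]⟩
    refine ⟨C, _, h5, h6, h7, h8, fun h => (hv.1 h).elim, fun _ => ⟨cb, Φb, zb, db, gb, e, ?_⟩⟩
    rintro (_ | i)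
    · exact fe ▸ hb
    · exact h9 v (Finset.mem_singleton_self v) i
  have h5 := cY v hv.2
  by_cases hv₁ : v ∈ S₁
  · rw [if_pos hv₁] at h5
    exact fin c₀ Φ₀ _ hc₀ le_rfl (hS v hv.1) hl
      (mainp_val _ h5 (cc v (Finset.mem_sdiff.2 ⟨hv₁, hv.1⟩) i₂))
  · rw [if_neg hv₁, fc, ← fA] at h5
    exact fin cA ΦA 0 zA (dA ▸ hd₀) (hA v hv₁) (fun i => by simpa using dA ▸ zA.van i)
      (by simpa using h5)

end Pool.Agent.ZCy
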