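import Pool.Agent.Lib.MP_751085_ag.ZC.CTan
import Pool.Agent.Lib.MP_751085_ag.ZC.CJet
import Pool.Agent.Lib.MP_751085_ag.ZF.C.SDefs
import Pool.Agent.Lib.MP_751085_ag.ZF.C.Lin

/-! Generic members of linear systems: no common zero, no ramification over a given point. -/

namespace Pool.Agent.ZCy

open scoped Classical Polynomial
open MvPolynomial Set

variable {k : Type} [Field k] {n d : ℕ} {ι μ : Type} [Fintype ι] [Fintype μ]

/-- `count_indep` with `M e (i, m) = grad x (E i m) ⬝ᵥ u e i` (`grad_sys`, `mem_gsp`; membership in `acl` by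
`aeval_map_algebraMap`, `aeval_mem_acl` as in ZC/CTan) -/
theorem sys_count {N : ℕ} {Λ Ω ε : Type} [Field Λ] [Field Ω] [Algebra k Λ] [Algebra Λ Ω]
    [Algebra k Ω] [IsScalarTower k Λ Ω] [Fintype ε] (E : ι → μ → Fm N k) {a : ι × μ → Ω}
    (ha : AlgebraicIndependent Λ a) (s : Set Ω) {x : Fin (N + 1) → Ω} (hx : ∀ j, x j ∈ acl Λ s)
    (u : ε → ι → Fin (N + 1) → Ω) (hu : ∀ e i j, u e i j ∈ acl Λ s)
    (hb : ∀ e, ∑ i, grad x (sys E a i) ⬝ᵥ u e i ∈ acl Λ s)
    (hs : ∀ β : ε → Ω, ∃ g : ι → Fin (N + 1) → Ω, (∀ i, g i ∈ gsp (E i) x) ∧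
      ∀ e, ∑ i, g i ⬝ᵥ u e i = β e) {r : ℕ} (hr : rk Λ s ≤ r) : Fintype.card ε ≤ r := by
  have e1 : ∀ (c : ι × μ → Ω) (e : ε), ∑ p : ι × μ, c p * (grad x (E p.1 p.2) ⬝ᵥ u e p.1) =
      ∑ i, (∑ m, c (i, m) • grad x (E i m)) ⬝ᵥ u e i := fun c e => by
    rw [Fintype.sum_prod_type]
    refine Finset.sum_congr rfl fun i _ => ?_
    rw [sum_dotProduct]
    exact Finset.sum_congr rfl fun m _ => by rw [smul_dotProduct, smul_eq_mul]
  refine count_indep (K := Λ) s (fun e p => grad x (E p.1 p.2) ⬝ᵥ u e p.1) a (fun e p => ?_)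
    (fun e => ?_) (fun β => ?_) ha hr
  · refine sum_mem fun j _ => mul_mem ?_ (hu e _ j)
    change aeval x (pderiv j (E p.1 p.2)) ∈ acl Λ s
    rw [← aeval_map_algebraMap Λ]
    exact aeval_mem_acl hx _
  · rw [e1]
    have h := hb e
    simp only [grad_sys, Algebra.algebraMap_self, RingHom.id_apply] at h
    exact h
  · obtain ⟨g, hg, h⟩ := hs β
    choose c hc using fun i => mem_gsp.1 (hg i)
    refine ⟨fun p => c p.1 p.2, fun e => ?_⟩
    rw [e1]
    simp only [hc]
    exact h e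

/-- the values of some members at a point where the gradients fill the space -/
theorem cnt1p_val {N : ℕ} {Λ Ω ε : Type} [Field Λ] [Field Ω] [Algebra k Λ] [Algebra Λ Ω]
    [Algebra k Ω] [IsScalarTower k Λ Ω] [Fintype ε] {E : ι → μ → Fm N k}
    (hE : ∀ i m, (E i m).IsHomogeneous d) {a : ι × μ → Ω} (ha : AlgebraicIndependent Λ a)
    (s : Set Ω) {x : Fin (N + 1) → Ω} (h0 : x ≠ 0) (hx : ∀ j, x j ∈ acl Λ s) {t : ε → ι}
    (ht : Function.Injective t) (hg : ∀ e, gsp (E (t e)) x = ⊤)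
    (hb : ∀ e, aeval x (sys E a (t e)) ∈ acl Λ s) {r : ℕ} (hr : rk Λ s ≤ r) :
    Fintype.card ε ≤ r := by
  have e1 : ∀ (g : ι → Fin (N + 1) → Ω) (e : ε),
      ∑ i, g i ⬝ᵥ (if i = t e then x else 0) = g (t e) ⬝ᵥ x := fun g e => by
    rw [Finset.sum_eq_single (t e)]
    · rw [if_pos rfl]
    · intro i _ hi
      rw [if_neg hi, dotProduct_zero]
    · simp
  refine sys_count E ha s hx (fun e i => if i = t e then x else 0) (fun e i j => ?_)
    (fun e => ?_) (fun β => ?_) hr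
  · split_ifs
    · exact hx j
    · exact zero_mem _
  · rw [e1 fun i => grad x (sys E a i), grad_dot_self (sys_hom (hE _) a)]
    exact mul_mem (natCast_mem _ _) (hb e)
  · obtain ⟨w, hw⟩ := jet_one h0
    refine ⟨Function.extend t (fun e => β e • w) 0, fun i => ?_, fun e => ?_⟩
    · by_cases hi : ∃ e, t e = i
      · obtain ⟨e, rfl⟩ := hi
        rw [hg]
        trivial
      · rw [Function.extend_apply' _ _ _ hi]
        exact zero_mem _
    · rw [e1, ht.extend_apply, smul_dotProduct, hw, smul_eq_mul, mul_one]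

/-- the equations of a point of a fibre with a tangent vector -/
noncomputable def cnt1pEq {N : ℕ} {S : Type} [CommRing S] [Algebra k S] (I : Set (Fm N k))
    (E : ι → μ → Fm N k) (y : ι → S) (a : ι × μ → S) (x v : Fin (N + 1) → S) :
    (I ⊕ I) ⊕ ι ⊕ ι → S
  | .inl (.inl G) => aeval x G.1
  | .inl (.inr G) => ∑ j, aeval x (pderiv j G.1) * v j
  | .inr (.inl i) => ∑ m, a (i, m) * aeval x (E i m) - y i
  | .inr (.inr i) => ∑ m, a (i, m) * ∑ j, aeval x (pderiv j (E i m)) * v j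

omit [Fintype ι] in
theorem cnt1p_map {N : ℕ} {S T : Type} [CommRing S] [Algebra k S] [CommRing T] [Algebra k T]
    (ψ : S →ₐ[k] T) (I : Set (Fm N k)) (E : ι → μ → Fm N k) (y : ι → S) (a : ι × μ → S)
    (x v : Fin (N + 1) → S) (e : (I ⊕ I) ⊕ ι ⊕ ι) :
    ψ (cnt1pEq I E y a x v e) = cnt1pEq I E (fun i => ψ (y i)) (fun p => ψ (a p))
      (fun j => ψ (x j)) (fun j => ψ (v j)) e := by
  rcases e with (G | G) | i | i <;>
    simp only [cnt1pEq, map_sum, map_mul, map_sub, comp_aeval_apply]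

omit [Fintype ι] in
theorem cnt1p_dot {N : ℕ} {S T : Type} [CommRing S] [Algebra k S] [CommRing T] [Algebra k T]
    [Algebra S T] [IsScalarTower k S T] (E : ι → μ → Fm N k) (a : ι × μ → S) (i : ι)
    (x v : Fin (N + 1) → T) : grad x (sys E a i) ⬝ᵥ v =
      ∑ m, algebraMap S T (a (i, m)) * ∑ j, aeval x (pderiv j (E i m)) * v j := by
  rw [grad_sys, sum_dotProduct]
  exact Finset.sum_congr rfl fun m _ => by rw [smul_dotProduct, smul_eq_mul]; rfl

variable {X : Var k} {E : ι → μ → Fm X.N k}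

omit [Fintype ι] in
/-- from independent coefficients to generic coefficients -/
theorem cnt1p_gen {Λ : Type} [Field Λ] [Algebra k Λ] (y : ι → Λ)
    (w : Fin (X.N + 1) ⊕ Fin (X.N + 1))
    (h : ∀ (Ω : Type) [Field Ω] [Algebra Λ Ω] [Algebra k Ω] [IsScalarTower k Λ Ω]
      (a : ι × μ → Ω) (x v : Fin (X.N + 1) → Ω), AlgebraicIndependent Λ a → X.Zr x →
      (∀ G ∈ X.I, grad x G ⬝ᵥ v = 0) → (∀ i, aeval x (sys E a i) = algebraMap Λ Ω (y i)) →
      (∀ i, grad x (sys E a i) ⬝ᵥ v = 0) → Sum.elim x v w = 0) :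
    Gn k fun a : ι × μ → k => ∀ (Ω : Type) [Field Ω] [Algebra Λ Ω] [Algebra k Ω]
      [IsScalarTower k Λ Ω] (x v : Fin (X.N + 1) → Ω), X.Zr x →
      (∀ G ∈ X.I, grad x G ⬝ᵥ v = 0) → (∀ i, aeval x (sys E a i) = algebraMap Λ Ω (y i)) →
      (∀ i, grad x (sys E a i) ⬝ᵥ v = 0) → Sum.elim x v w = 0 := by
  have key : ∀ (Ω : Type) [Field Ω] [Algebra Λ Ω] [Algebra k Ω] [IsScalarTower k Λ Ω]
      (a : ι × μ → Ω) (z : Fin (X.N + 1) ⊕ Fin (X.N + 1) → Ω) e,
      aeval (Sum.elim a z) (cnt1pEq (S := MP ((ι × μ) ⊕ Fin (X.N + 1) ⊕ Fin (X.N + 1)) Λ) X.I E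
        (fun i => C (y i)) (fun m => MvPolynomial.X (.inl m))
        (fun j => MvPolynomial.X (.inr (.inl j))) (fun j => MvPolynomial.X (.inr (.inr j))) e) =
        cnt1pEq X.I E (fun i => algebraMap Λ Ω (y i)) a (fun j => z (.inl j))
          (fun j => z (.inr j)) e := by
    intro Ω _ _ _ _ a z e
    refine (cnt1p_map ((aeval (Sum.elim a z) : MP _ Λ →ₐ[Λ] Ω).restrictScalars k)
      X.I E _ _ _ _ e).trans ?_
    simp
  obtain ⟨r, h0, hr⟩ := generic (ι := ι × μ) (ζ := Fin (X.N + 1) ⊕ Fin (X.N + 1))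
    (range (cnt1pEq (S := MP ((ι × μ) ⊕ Fin (X.N + 1) ⊕ Fin (X.N + 1)) Λ) X.I E
        (fun i => C (y i)) (fun m => MvPolynomial.X (.inl m))
        (fun j => MvPolynomial.X (.inr (.inl j))) (fun j => MvPolynomial.X (.inr (.inr j)))))
    (MvPolynomial.X (.inr w)) (by
      intro Ω _ _ a z ha hE
      let := ((algebraMap Λ Ω).comp (algebraMap k Λ)).toAlgebra
      have : IsScalarTower k Λ Ω := .of_algebraMap_eq fun _ => rfl
      have hE' := fun e => (key Ω a z e).symm.trans (hE _ ⟨e, rfl⟩)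
      rw [aeval_X, Sum.elim_inr]
      have h1 := h Ω a (fun j => z (.inl j)) (fun j => z (.inr j)) ha
        (fun G hG => hE' (.inl (.inl ⟨G, hG⟩))) (fun G hG => hE' (.inl (.inr ⟨G, hG⟩)))
        (fun i => (aeval_sys E a i _).trans (sub_eq_zero.1 (hE' (.inr (.inl i)))))
        (fun i => (cnt1p_dot E a i _ _).trans (hE' (.inr (.inr i))))
      cases w <;> exact h1)
  refine (Gn.of_ext h0).mono fun a ha Ω _ _ _ _ x v h1 h2 h3 h4 => ?_
  have h5 := hr Ω (fun m => algebraMap k Ω (a m)) (Sum.elim x v) ?_ ?_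
  · rwa [aeval_X] at h5
  · simp only [IsScalarTower.algebraMap_apply k Λ Ω]
    have h6 := aeval_algebraMap_apply Ω (fun m => algebraMap k Λ (a m)) r
    rw [Function.comp_def] at h6
    rw [h6, map_ne_zero]
    exact ha
  · rintro _ ⟨e, rfl⟩
    rw [key]
    rcases e with (G | G) | i | i
    · exact h1 G G.2
    · exact h2 G G.2
    · exact sub_eq_zero.2 ((aeval_sys E a i x).symm.trans (h3 i))
    · exact (cnt1p_dot E a i x v).symm.trans (h4 i)

/-- Model: ZC/CB1. For independent coefficients let `x` be a common zero with `x j = 1`. The value of a form of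
degree `d` is given by Euler: `grad x f ⬝ᵥ x = d * f x`, so use `u e i = if i = e then x else 0`. If all
`gsp (E i) x = ⊤`: `n + 1` conditions, rank at most `n` (`Var.On.rk_le`). Else `x` is algebraic, rank `0`
(`rk_eq_zero`), and `i₀` gives one condition. Then `generic` with `Λ = k` and `u = X j`. -/
theorem Var.gn_b1S (hn : Algebra.trdeg k X.F = n) (hι : Fintype.card ι = n + 1) (_hd : (d : k) ≠ 0)
    (hE : ∀ i m, (E i m).IsHomogeneous d) (hb : ∀ i, Big (E i)) {i₀ : ι} (h0 : Ful (E i₀)) :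
    Gn k fun a : ι × μ → k => X.B1 (sys E a) := by
  refine (Gn.all fun j => cnt1p_gen (X := X) (E := E) (Λ := k) 0 (.inl j) ?_).mono
    fun a ha Ω _ _ x hx => ?_
  · intro Ω _ alg' alg tw a x v ha h1 _ h3 _
    obtain rfl : alg = alg' := Algebra.algebra_ext _ _ fun r =>
      @IsScalarTower.algebraMap_apply k k Ω _ _ _ _ alg' alg tw r
    by_contra hz
    replace hz : x j ≠ 0 := hz
    have h2 : X.On ((x j)⁻¹ • x) := Var.On.smul ⟨fun h => hz (congrFun h j), h1⟩ (inv_ne_zero hz)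
    have h4 : ((x j)⁻¹ • x) j = 1 := inv_mul_cancel₀ hz
    have h5 : ∀ i, aeval ((x j)⁻¹ • x) (sys E a i) ∈ acl k (range ((x j)⁻¹ • x)) := fun i => by
      rw [aeval_smul_hom (sys_hom (hE i) a), h3, Pi.zero_apply, map_zero, mul_zero]
      exact zero_mem _
    generalize (x j)⁻¹ • x = x' at h2 h4 h5
    have hm : ∀ i, x' i ∈ acl k (range x') := fun i => mem_acl_of_mem (mem_range_self i)
    by_cases hg : ∀ i, gsp (E i) x' = ⊤
    · have h6 := cnt1p_val hE ha _ h2.1 hm Function.injective_id hg h5 (h2.rk_le hn h4)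
      omega
    · obtain ⟨i, hi⟩ := not_forall.1 hg
      have h6 := ((hb i Ω x' h2.1).resolve_left hi).1
      have h7 := cnt1p_val hE ha _ h2.1 hm (t := fun _ : Unit => i₀)
        (fun _ _ _ => Subsingleton.elim _ _) (fun _ => h0 Ω x' h2.1) (fun _ => h5 _) (r := 0)
        (rk_eq_zero (by
          rintro _ ⟨l, rfl⟩
          simpa [h4] using h6 l j)).le
      simp at h7
  · by_contra hn'
    exact hx.1 (funext fun j => ha j Ω x 0 hx.2 (fun _ _ => dotProduct_zero _)
      (fun i => (not_not.1 fun h => hn' ⟨i, h⟩).trans (map_zero _).symm)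
      fun _ => dotProduct_zero _)

/-- Model: ZC/CEtg. If all `gsp (E i) x = ⊤` count as in `etg_indep` (`exists_dot₂`; `v` is no multiple of `x` by
Euler, `d ≠ 0`, `y ≠ 0`). Else `x` is a multiple of an algebraic vector, so `rk Λ (range x) ≤ 1`, and the values of the
members `i₀`, `i₁` at `x` give two conditions. -/
theorem Var.Nice.gn_et0S (hX : X.Nice n) (hι : Fintype.card ι = n + 1) (hd : (d : k) ≠ 0)
    (hE : ∀ i m, (E i m).IsHomogeneous d) (hb : ∀ i, Big (E i)) {i₀ i₁ : ι} (hne : i₀ ≠ i₁)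
    (h0 : Ful (E i₀)) (h1 : Ful (E i₁)) {Λ : Type} [Field Λ] [Algebra k Λ] {y : ι → Λ}
    (hy : y ≠ 0) : Gn k fun a : ι × μ → k => X.Et (sys E a) y := by
  refine (Gn.all fun j => cnt1p_gen (X := X) (E := E) y (.inr j) ?_).mono
    fun a ha x hx v h2 h4 => funext fun j => ha j Λ x v hx.1.2 h2 hx.2 h4
  intro Ω _ _ _ _ a x v₀ ha hz0 h2 h3 h4
  by_contra hz
  replace hz : v₀ j ≠ 0 := hz
  replace h2 : ∀ G ∈ X.I, grad x G ⬝ᵥ ((v₀ j)⁻¹ • v₀) = 0 := fun G hG => by
    rw [dotProduct_smul, h2 G hG, smul_zero]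
  replace h4 : ∀ i, grad x (sys E a i) ⬝ᵥ ((v₀ j)⁻¹ • v₀) = 0 := fun i => by
    rw [dotProduct_smul, h4 i, smul_zero]
  have hj : ((v₀ j)⁻¹ • v₀) j = 1 := inv_mul_cancel₀ hz
  generalize (v₀ j)⁻¹ • v₀ = v at h2 h4 hj
  have hd0 : d ≠ 0 := fun h => hd (by rw [h, Nat.cast_zero])
  have hd1 : (d : Ω) ≠ 0 := by
    rw [← map_natCast (algebraMap k Ω), map_ne_zero]
    exact hd
  obtain ⟨i, hi⟩ := Function.ne_iff.1 hy
  have hi' : aeval x (sys E a i) ≠ 0 := fun h =>
    hi ((map_eq_zero (algebraMap Λ Ω)).1 ((h3 i).symm.trans h))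
  have hx : X.On x := ⟨fun h => hi' (by
    rw [h, ← zero_smul Ω x, aeval_smul_hom (sys_hom (hE i) a), zero_pow hd0, zero_mul]), hz0⟩
  by_cases hg : ∀ i, gsp (E i) x = ⊤
  · have hv : ∀ ζ : Ω, v ≠ ζ • x := by
      rintro ζ rfl
      have h := h4 i
      rw [dotProduct_smul, grad_dot_self (sys_hom (hE i) a), smul_eq_mul] at h
      rw [(mul_eq_zero.1 h).resolve_right (mul_ne_zero hd1 hi'), zero_smul] at hj
      exact zero_ne_one hj
    have hm : ∀ l, x l ∈ acl Λ (range x ∪ range v) := fun l => mem_acl_of_mem (Or.inl ⟨l, rfl⟩)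
    have e1 : ∀ (g : ι → Fin (X.N + 1) → Ω) (e : ι) (z : Fin (X.N + 1) → Ω),
        ∑ i, g i ⬝ᵥ (if i = e then z else 0) = g e ⬝ᵥ z := fun g e z => by
      rw [Finset.sum_eq_single e]
      · rw [if_pos rfl]
      · intro i _ hi
        rw [if_neg hi, dotProduct_zero]
      · simp
    have h := sys_count (ε := ι ⊕ ι) E ha (range x ∪ range v) hm
      (Sum.elim (fun e i => if i = e then x else 0) fun e i => if i = e then v else 0) ?_ ?_ ?_
      (hX.rk_tan hx (fun i => mem_acl_of_mem (mem_range_self i)) h2 hj (r := n + 1)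
        ((rk_le_of_tower (K := k) _).trans (by exact_mod_cast hx.rk_le' hX.dim)))
    · rw [Fintype.card_sum, hι] at h
      omega
    · rintro (e | e) i l <;> simp only [Sum.elim_inl, Sum.elim_inr] <;> split_ifs
      · exact hm l
      · exact zero_mem _
      · exact mem_acl_of_mem (Or.inr ⟨l, rfl⟩)
      · exact zero_mem _
    · rintro (e | e) <;> simp only [Sum.elim_inl, Sum.elim_inr] <;>
        rw [e1 fun i => grad x (sys E a i)]
      · rw [grad_dot_self (sys_hom (hE _) a), h3]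
        exact mul_mem (natCast_mem _ _) (IntermediateField.algebraMap_mem _ _)
      · rw [h4]
        exact zero_mem _
    · intro β
      choose g hg₁ hg₂ using fun i => exists_dot₂ hx.1 hv (β (.inl i)) (β (.inr i))
      refine ⟨g, fun i => by rw [hg]; trivial, ?_⟩
      rintro (e | e) <;> simp only [Sum.elim_inl, Sum.elim_inr] <;> rw [e1]
      · exact hg₁ e
      · exact hg₂ e
  · obtain ⟨i', hi'⟩ := not_forall.1 hg
    have h6 := ((hb i' Ω x hx.1).resolve_left hi').1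
    obtain ⟨l, hl⟩ := Function.ne_iff.1 hx.1
    have hm : ∀ m, x m ∈ acl Λ {x l} := fun m => by
      rw [← div_mul_cancel₀ (x m) hl]
      exact mul_mem (mem_acl_of_isAlgebraic _ ((h6 m l).extendScalars (algebraMap k Λ).injective))
        (mem_acl_of_mem rfl)
    have h7 := cnt1p_val hE ha _ hx.1 hm (t := fun b : Bool => if b then i₀ else i₁)
      (by
        rintro (_ | _) (_ | _) h
        · rfl
        · exact (hne h.symm).elim
        · exact (hne h).elim
        · rfl)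
      (by
        rintro (_ | _)
        · exact h1 Ω x hx.1
        · exact h0 Ω x hx.1)
      (fun _ => by
        rw [h3]
        exact IntermediateField.algebraMap_mem _ _) (r := 1)
      ((rk_le_encard _).trans (by simp))
    simp at h7

end Pool.Agent.ZCy
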